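import Mathlib
import Pool.Agent.Helper233.Cen.M5

set_option autoImplicit false

namespace Pool.Agent.Helper233.Cen.ZA1

open Subgroup
open scoped commutatorElement
open Pool.Agent.Helper233.Cen

variable {G : Type*} [Group G]




/-- an infinite chain of `p`-th roots of `z` inside `R` -/
def Ch (p : ℕ) (R : Subgroup G) (z : G) : Prop :=
  ∃ x : ℕ → G, (∀ n, x n ∈ R) ∧ x 0 = z ∧ ∀ n, x (n + 1) ^ p = x n

/-- an abelian `p`-group with finitely many elements of order `p` is divisible-by-bounded -/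
theorem struct {p : ℕ} [hp : Fact p.Prime] (hG : IsPGroup p G) (R : Subgroup G)
    (hR : ∀ x ∈ R, ∀ y ∈ R, x * y = y * x) (hS : {y : G | y ∈ R ∧ y ^ p = 1}.Finite) :
    (∀ n : ℕ, {y : G | y ∈ R ∧ y ^ p ^ n = 1}.Finite) ∧
    ∃ n0 : ℕ, ∀ y ∈ R, ∃ z ∈ R, Ch p R z ∧ (y * z⁻¹) ^ p ^ n0 = 1 := by
  have hcm : ∀ x ∈ R, ∀ y ∈ R, ∀ m : ℕ, (x * y) ^ m = x ^ m * y ^ m := fun x hx y hy m =>
    (show Commute x y from hR x hx y hy).mul_pow m
  have hfin : ∀ n : ℕ, {y : G | y ∈ R ∧ y ^ p ^ n = 1}.Finite := by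
    intro n
    induction n with
    | zero =>
      apply (Set.finite_singleton (1:G)).subset
      rintro y ⟨_, hy⟩
      simpa using hy
    | succ n ih =>
      apply Set.Finite.of_finite_fibers (fun y => y ^ p)
      · apply ih.subset
        rintro _ ⟨y, ⟨hy, hy1⟩, rfl⟩
        refine ⟨R.pow_mem hy p, ?_⟩
        dsimp only
        rw [← pow_mul, ← pow_succ']
        exact hy1
      · rintro x ⟨y0, ⟨hy0, _⟩, rfl⟩
        apply (hS.image (fun s => y0 * s)).subset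
        rintro y ⟨⟨hy, _⟩, hyx⟩
        refine ⟨y0⁻¹ * y, ⟨R.mul_mem (R.inv_mem hy0) hy, ?_⟩, by group⟩
        rw [hcm _ (R.inv_mem hy0) _ hy, inv_pow]
        have : y ^ p = y0 ^ p := hyx
        rw [this, inv_mul_cancel]
  refine ⟨hfin, ?_⟩
  obtain ⟨D, hD⟩ : ∃ D : ℕ → Set G, ∀ n x, x ∈ D n ↔ (x ∈ R ∧ x ^ p = 1 ∧ ∃ w ∈ R, w ^ (p ^ n) = x) :=
    ⟨fun n => {x | x ∈ R ∧ x ^ p = 1 ∧ ∃ w ∈ R, w ^ (p ^ n) = x}, fun n x => Iff.rfl⟩
  have hDfin : ∀ n, (D n).Finite := fun n =>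
    hS.subset (fun x hx => ⟨((hD n x).1 hx).1, ((hD n x).1 hx).2.1⟩)
  have hDanti : ∀ m n, m ≤ n → D n ⊆ D m := by
    intro m n hmn x hx
    obtain ⟨h1, h2, w, hw, hwx⟩ := (hD n x).1 hx
    refine (hD m x).2 ⟨h1, h2, w ^ (p ^ (n - m)), R.pow_mem hw _, ?_⟩
    rw [← pow_mul, ← pow_add, show n - m + m = n by omega]
    exact hwx
  obtain ⟨n0, hn0⟩ : ∃ n0, ∀ n, n0 ≤ n → D n0 ⊆ D n := by
    obtain ⟨n0, hn0⟩ : ∃ n0, ∀ n, (D n0).ncard ≤ (D n).ncard := by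
      by_contra h
      push Not at h
      choose g hg using h
      have : ∀ k : ℕ, (D (g^[k] 0)).ncard + k ≤ (D 0).ncard := by
        intro k
        induction k with
        | zero => simp
        | succ k ih =>
          rw [Function.iterate_succ_apply']
          have := hg (g^[k] 0)
          omega
      have := this ((D 0).ncard + 1)
      omega
    refine ⟨n0, fun n hn => ?_⟩
    have := Set.eq_of_subset_of_ncard_le (hDanti n0 n hn) (hn0 n) (hDfin n0)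
    exact this.symm.subset
  have hdiv : ∀ k : ℕ, ∀ w ∈ R, (w ^ (p ^ n0)) ^ (p ^ k) = 1 →
      ∃ v ∈ R, (v ^ (p ^ n0)) ^ p = w ^ (p ^ n0) := by
    intro k
    induction k with
    | zero =>
      intro w hw h
      refine ⟨1, R.one_mem, ?_⟩
      rw [pow_zero, pow_one] at h
      rw [h, one_pow, one_pow]
    | succ k ih =>
      intro w hw h
      have hx : (w ^ (p ^ n0)) ^ (p ^ k) ∈ D n0 := by
        refine (hD _ _).2 ⟨R.pow_mem (R.pow_mem hw _) _, ?_, w ^ (p ^ k), R.pow_mem hw _, ?_⟩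
        · rw [← pow_mul, ← pow_succ]; exact h
        · rw [← pow_mul, ← pow_mul, mul_comm]
      obtain ⟨_, _, w', hw', hw'x⟩ := (hD _ _).1 (hn0 (n0 + k + 1) (by omega) hx)
      have ht : ((w' ^ p) ^ (p ^ n0)) ^ (p ^ k) = (w ^ (p ^ n0)) ^ (p ^ k) := by
        rw [← hw'x, ← pow_mul, ← pow_mul]
        congr 1
        ring
      have hw2 : (w' ^ p)⁻¹ ∈ R := R.inv_mem (R.pow_mem hw' p)
      obtain ⟨v, hv, hv'⟩ := ih (w * (w' ^ p)⁻¹) (R.mul_mem hw hw2) (by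
        rw [hcm w hw _ hw2, hcm _ (R.pow_mem hw _) _ (R.pow_mem hw2 _), inv_pow, inv_pow, ht,
          mul_inv_cancel])
      refine ⟨v * w', R.mul_mem hv hw', ?_⟩
      rw [hcm v hv w' hw', hcm _ (R.pow_mem hv _) _ (R.pow_mem hw' _), hv',
        hcm w hw _ hw2, inv_pow, pow_right_comm w' p, mul_assoc, inv_mul_cancel, mul_one]
  have hstep : ∀ w : R, ∃ v : R, ((v : G) ^ (p ^ n0)) ^ p = (w : G) ^ (p ^ n0) := by
    intro w
    obtain ⟨k, hk⟩ := hG ((w : G) ^ (p ^ n0))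
    obtain ⟨v, hv, hv'⟩ := hdiv k w w.2 hk
    exact ⟨⟨v, hv⟩, hv'⟩
  choose step hst using hstep
  refine ⟨n0, fun y hy => ?_⟩
  have hW : ∀ n : ℕ, ((step^[n+1] ⟨y, hy⟩ : R) : G) ^ (p ^ n0) ^ 1 = ((step^[n+1] ⟨y, hy⟩ : R) : G) ^ (p ^ n0) := by
    intro n; rw [pow_one]
  have hch : ∀ n : ℕ, (((step^[n+1] ⟨y, hy⟩ : R) : G) ^ (p ^ n0)) ^ p =
      ((step^[n] ⟨y, hy⟩ : R) : G) ^ (p ^ n0) := by
    intro n
    rw [Function.iterate_succ_apply']
    exact hst _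
  have hpw : ∀ n : ℕ, (((step^[n] ⟨y, hy⟩ : R) : G) ^ (p ^ n0)) ^ (p ^ n) = y ^ (p ^ n0) := by
    intro n
    induction n with
    | zero => simp
    | succ n ih => rw [pow_succ', pow_mul, hch n, ih]
  refine ⟨((step^[n0] ⟨y, hy⟩ : R) : G) ^ (p ^ n0), R.pow_mem (step^[n0] ⟨y, hy⟩).2 _,
    ⟨fun n => ((step^[n0 + n] ⟨y, hy⟩ : R) : G) ^ (p ^ n0), fun n => R.pow_mem (step^[n0 + n] ⟨y, hy⟩).2 _,
      rfl, fun n => hch (n0 + n)⟩, ?_⟩
  rw [hcm y hy _ (R.inv_mem (R.pow_mem (step^[n0] ⟨y, hy⟩).2 _)), inv_pow, hpw n0, mul_inv_cancel]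


end Pool.Agent.Helper233.Cen.ZA1
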