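import Mathlib
import Pool.Agent.Helper233.Cen.M5
import Pool.Agent.Helper233.Cen.Z.A1

set_option autoImplicit false

namespace Pool.Agent.Helper233.Cen.ZA5

open Subgroup
open scoped commutatorElement
open Pool.Agent.Helper233.Cen
open Pool.Agent.Helper233.Cen.ZA1

variable {G : Type*} [Group G]






/-- PROVE THIS ONE -/
theorem FSsum {p : ℕ} [hp : Fact p.Prime] (hG : IsPGroup p G) (D A B : Subgroup G)
    (hD : ∀ x ∈ D, ∀ y ∈ D, x * y = y * x) (hAD : A ≤ D) (hBD : B ≤ D)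
    (hA : {y : G | y ∈ A ∧ y ^ p = 1}.Finite) (hB : {y : G | y ∈ B ∧ y ^ p = 1}.Finite) :
    {y : G | (∃ s ∈ A, ∃ t ∈ B, y = s * t) ∧ y ^ p = 1}.Finite := by
  have hcomm : ∀ x ∈ D, ∀ y ∈ D, Commute x y := fun x hx y hy => hD x hx y hy
  obtain ⟨hA1, _⟩ := struct hG A (fun x hx y hy => hD x (hAD hx) y (hAD hy)) hA
  obtain ⟨hB1, _⟩ := struct hG B (fun x hx y hy => hD x (hBD hx) y (hBD hy)) hB
  have hC : {y : G | y ∈ A ⊓ B ∧ y ^ p = 1}.Finite := hA.subset (fun y hy => ⟨hy.1.1, hy.2⟩)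
  obtain ⟨_, n0, hn0⟩ := struct hG (A ⊓ B)
    (fun x hx y hy => hD x (hAD hx.1) y (hAD hy.1)) hC
  refine (Set.Finite.image2 (fun s t => s * t) (hA1 (n0 + 1)) (hB1 (n0 + 1))).subset ?_
  rintro y ⟨⟨s, hs, t, ht, rfl⟩, hy⟩
  have hst : Commute s t := hcomm s (hAD hs) t (hBD ht)
  rw [hst.mul_pow] at hy
  have hsp : s ^ p ∈ A ⊓ B := by
    refine ⟨A.pow_mem hs p, ?_⟩
    rw [eq_inv_of_mul_eq_one_left hy]
    exact B.inv_mem (B.pow_mem ht p)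
  obtain ⟨z, hz, ⟨x, hx, hx0, hxs⟩, hzn⟩ := hn0 _ hsp
  have hwz : (x 1) ^ p = z := by
    have := hxs 0
    rw [hx0] at this
    exact this
  have hwC := hx 1
  generalize x 1 = w at hwz hwC
  have hsw : Commute s w := hcomm s (hAD hs) w (hAD hwC.1)
  have htw : Commute t w := hcomm t (hBD ht) w (hBD hwC.2)
  have h1 : (s * w⁻¹) ^ p = s ^ p * z⁻¹ := by
    rw [(hsw.inv_right).mul_pow, inv_pow, hwz]
  have h2 : (s * w⁻¹) ^ (p ^ (n0 + 1)) = 1 := by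
    rw [pow_succ', pow_mul, h1, hzn]
  have h3 : (t * w) ^ (p ^ (n0 + 1)) = 1 := by
    have h4 : (t * w) ^ p = (s ^ p * z⁻¹)⁻¹ := by
      rw [htw.mul_pow, hwz, mul_inv_rev, inv_inv, eq_inv_of_mul_eq_one_right hy]
      exact hcomm _ (D.inv_mem (hAD hsp.1)) _ (hAD hz.1)
    rw [pow_succ', pow_mul, h4, inv_pow, hzn, inv_one]
  refine ⟨s * w⁻¹, ⟨A.mul_mem hs (A.inv_mem hwC.1), h2⟩, t * w, ⟨B.mul_mem ht hwC.2, h3⟩, ?_⟩
  show s * w⁻¹ * (t * w) = s * t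
  rw [htw.eq]
  group


end Pool.Agent.Helper233.Cen.ZA5
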