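import Mathlib
import Pool.Agent.Helper233.Cen.M5

set_option autoImplicit false

namespace Pool.Agent.Helper233.Cen.ZB1

open Subgroup
open scoped commutatorElement
open Pool.Agent.Helper233.Cen

variable {G : Type*} [Group G]





/-- two abelian subgroups of a `p`-group normalising each other commute if one is divisible -/
theorem comm_div {p : ℕ} [hp : Fact p.Prime] (hG : IsPGroup p G) (E₁ E₂ : Subgroup G)
    (h1 : ∀ x ∈ E₁, ∀ y ∈ E₁, x * y = y * x) (h2 : ∀ x ∈ E₂, ∀ y ∈ E₂, x * y = y * x)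
    (hd : ∀ x ∈ E₂, ∃ y ∈ E₂, y ^ p = x)
    (hn1 : ∀ x ∈ E₁, ∀ y ∈ E₂, cj x y ∈ E₁) (hn2 : ∀ x ∈ E₁, ∀ y ∈ E₂, cj y x ∈ E₂) :
    ∀ x ∈ E₁, ∀ y ∈ E₂, x * y = y * x := by
  intro x hx y hy
  obtain ⟨k, hk⟩ := hG x
  have hroot : ∀ n : ℕ, ∀ y ∈ E₂, ∃ z ∈ E₂, z ^ (p ^ n) = y := by
    intro n
    induction n with
    | zero => intro y hy; exact ⟨y, hy, by simp⟩
    | succ n ih =>
      intro y hy
      obtain ⟨z, hz, hzy⟩ := ih y hy
      obtain ⟨w, hw, hwz⟩ := hd z hz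
      refine ⟨w, hw, ?_⟩
      rw [pow_succ, mul_comm, pow_mul, hwz, hzy]
  obtain ⟨z, hz, hzy⟩ := hroot k y hy
  have hc1 : x⁻¹ * cj x z ∈ E₁ := E₁.mul_mem (E₁.inv_mem hx) (hn1 x hx z hz)
  have hc2 : x⁻¹ * cj x z ∈ E₂ := by
    have h3 : (cj z x)⁻¹ * z ∈ E₂ := E₂.mul_mem (E₂.inv_mem (hn2 x hx z hz)) hz
    have h4 : (cj z x)⁻¹ * z = x⁻¹ * cj x z := by
      unfold cj; group
    rwa [h4] at h3
  have hxc : z⁻¹ * x * z = x * (x⁻¹ * cj x z) := by
    unfold cj; group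
  generalize x⁻¹ * cj x z = c at hc1 hc2 hxc
  have hcx : x * c = c * x := h1 x hx c hc1
  have hcz : c * z = z * c := h2 c hc2 z hz
  have hxz : x * z = z * x * c := by
    have : x * z = z * (z⁻¹ * x * z) := by group
    rw [this, hxc, mul_assoc]
  have hczn : ∀ n : ℕ, c ^ n * z = z * c ^ n := fun n =>
    ((show Commute c z from hcz).pow_left n).eq
  have hpow : ∀ n : ℕ, x * z ^ n = z ^ n * x * c ^ n := by
    intro n
    induction n with
    | zero => simp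
    | succ n ih =>
      calc x * z ^ (n + 1) = x * z ^ n * z := by rw [pow_succ, mul_assoc]
        _ = z ^ n * x * (c ^ n * z) := by rw [ih, mul_assoc]
        _ = z ^ n * x * (z * c ^ n) := by rw [hczn]
        _ = z ^ n * (x * z) * c ^ n := by simp only [mul_assoc]
        _ = z ^ n * (z * x * c) * c ^ n := by rw [hxz]
        _ = z ^ (n + 1) * x * c ^ (n + 1) := by
            rw [pow_succ z n, pow_succ' c n]; simp only [mul_assoc]
  have hcn : c ^ (p ^ k) = 1 := by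
    have h3 : (z⁻¹ * x * z) ^ (p ^ k) = 1 := by
      have h4 : z⁻¹ * x * z = z⁻¹ * x * (z⁻¹)⁻¹ := by rw [inv_inv]
      rw [h4, conj_pow, hk]; group
    rw [hxc, (show Commute x c from hcx).mul_pow, hk, one_mul] at h3
    exact h3
  have h5 := hpow (p ^ k)
  rw [hcn, mul_one, hzy] at h5
  exact h5


end Pool.Agent.Helper233.Cen.ZB1
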