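import Mathlib
import Pool.Agent.Helper233.Cen.M5
import Pool.Agent.Helper233.Cen.Z.B1

set_option autoImplicit false

namespace Pool.Agent.Helper233.Cen.ZB2

open Subgroup
open scoped commutatorElement
open Pool.Agent.Helper233.Cen
open Pool.Agent.Helper233.Cen.ZB1

variable {G : Type*} [Group G]






/-- PROVE THIS ONE: the subgroup generated by pairwise commuting divisible abelian subgroups -/
theorem div_closure {p : ℕ} (U : Set G)
    (hc : ∀ x ∈ U, ∀ y ∈ U, x * y = y * x) (hd : ∀ x ∈ U, ∃ y ∈ U, y ^ p = x) :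
    (∀ x ∈ closure U, ∀ y ∈ closure U, x * y = y * x) ∧
      ∀ x ∈ closure U, ∃ y ∈ closure U, y ^ p = x := by
  have h1 : closure U ≤ centralizer U := by
    rw [closure_le]
    intro x hx
    exact mem_centralizer_iff.2 (fun y hy => hc y hy x hx)
  have h2 : closure U ≤ centralizer (closure U : Set G) := by
    rw [closure_le]
    intro x hx
    refine mem_centralizer_iff.2 (fun y hy => ?_)
    exact (mem_centralizer_iff.1 (h1 hy) x hx).symm
  have hcomm : ∀ x ∈ closure U, ∀ y ∈ closure U, x * y = y * x := fun x hx y hy =>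
    (mem_centralizer_iff.1 (h2 hx) y hy).symm
  refine ⟨hcomm, ?_⟩
  intro x hx
  induction hx using closure_induction with
  | mem x hx =>
    obtain ⟨y, hy, e⟩ := hd x hx
    exact ⟨y, subset_closure hy, e⟩
  | one => exact ⟨1, one_mem _, one_pow _⟩
  | mul a b ha hb iha ihb =>
    obtain ⟨y, hy, e⟩ := iha
    obtain ⟨z, hz, e'⟩ := ihb
    refine ⟨y * z, mul_mem hy hz, ?_⟩
    have hc' : Commute y z := hcomm y hy z hz
    rw [hc'.mul_pow, e, e']
  | inv a ha iha =>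
    obtain ⟨y, hy, e⟩ := iha
    exact ⟨y⁻¹, inv_mem hy, by rw [inv_pow, e]⟩

/-- PROVE THIS ONE TOO: there is a largest divisible abelian normal subgroup inside `K` -/
theorem exists_maxD {p : ℕ} [hp : Fact p.Prime] (hG : IsPGroup p G) (K : Subgroup G) :
    ∃ D : Subgroup G, D.Normal ∧ D ≤ K ∧ (∀ x ∈ D, ∀ y ∈ D, x * y = y * x) ∧
      (∀ x ∈ D, ∃ y ∈ D, y ^ p = x) ∧
      ∀ E : Subgroup G, E.Normal → E ≤ K → (∀ x ∈ E, ∀ y ∈ E, x * y = y * x) →
        (∀ x ∈ E, ∃ y ∈ E, y ^ p = x) → E ≤ D := by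
  let U : Set G := {x | ∃ E : Subgroup G, E.Normal ∧ E ≤ K ∧ (∀ x ∈ E, ∀ y ∈ E, x * y = y * x) ∧
    (∀ x ∈ E, ∃ y ∈ E, y ^ p = x) ∧ x ∈ E}
  have hU := div_closure (p := p) U (by
    rintro x ⟨E1, n1, k1, c1, d1, hx⟩ y ⟨E2, n2, k2, c2, d2, hy⟩
    refine comm_div hG E1 E2 c1 c2 d2 ?_ ?_ x hx y hy
    · intro a ha b _
      have := n1.conj_mem a ha b⁻¹
      rwa [inv_inv] at this
    · intro a _ b hb
      have := n2.conj_mem b hb a⁻¹
      rwa [inv_inv] at this) (by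
    rintro x ⟨E1, n1, k1, c1, d1, hx⟩
    obtain ⟨y, hy, e⟩ := d1 x hx
    exact ⟨y, ⟨E1, n1, k1, c1, d1, hy⟩, e⟩)
  refine ⟨closure U, ⟨?_⟩, ?_, hU.1, hU.2, ?_⟩
  · intro n hn g
    induction hn using closure_induction with
    | mem x hx =>
      obtain ⟨E1, n1, k1, c1, d1, hx⟩ := hx
      exact subset_closure ⟨E1, n1, k1, c1, d1, n1.conj_mem x hx g⟩
    | one => simp [one_mem]
    | mul a b ha hb iha ihb =>
      have e : g * (a * b) * g⁻¹ = (g * a * g⁻¹) * (g * b * g⁻¹) := by group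
      rw [e]
      exact mul_mem iha ihb
    | inv a ha iha =>
      have e : g * a⁻¹ * g⁻¹ = (g * a * g⁻¹)⁻¹ := by group
      rw [e]
      exact inv_mem iha
  · rw [closure_le]
    rintro x ⟨E1, n1, k1, c1, d1, hx⟩
    exact k1 hx
  · intro E hn hk hc hd x hx
    exact subset_closure ⟨E, hn, hk, hc, hd, hx⟩


end Pool.Agent.Helper233.Cen.ZB2
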