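import Mathlib
import Pool.Agent.Helper233.Cen.M5

set_option autoImplicit false

namespace Pool.Agent.Helper233.Cen.ZDD

open Subgroup
open scoped commutatorElement
open Pool.Agent.Helper233.Cen

variable {G : Type*} [Group G]






theorem lem_DD_pow {R : Type*} [Ring R] (N : R) (k : ℕ) :
    ∃ q : R, (1 + N) ^ k = 1 + (k : R) * N + N ^ 2 * q := by
  induction k with
  | zero => exact ⟨0, by simp⟩
  | succ k ih =>
    obtain ⟨q, hq⟩ := ih
    refine ⟨q + (k : R) + N * q, ?_⟩
    have hk : N * (k : R) = (k : R) * N := (Nat.cast_commute k N).symm.eq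
    have hk2 : N ^ 2 * (k : R) = (k : R) * N ^ 2 := (Nat.cast_commute k (N ^ 2)).symm.eq
    rw [pow_succ', hq, mul_add (N ^ 2), mul_add (N ^ 2), hk2]
    have e : N * ((k : R) * N) = (k : R) * N ^ 2 := by
      rw [← mul_assoc, hk, mul_assoc, pow_two]
    push_cast
    rw [add_mul (1:R) N, one_mul, mul_add N, mul_add N, e, mul_one]
    noncomm_ring

theorem lem_DD_ker {p : ℕ} (D : Subgroup G)
    [hDn : D.Normal] (hD : ∀ x ∈ D, ∀ y ∈ D, x * y = y * x)
    (hDd : ∀ x ∈ D, ∃ y ∈ D, y ^ p = x) (a : G) (hap : a ^ p = 1) (d0 : G) (hd0 : d0 ∈ D) :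
    ∃ d ∈ D, dl a d0 = dl a (dl a d) := by
  letI cg : CommGroup D :=
    { (inferInstance : Group D) with mul_comm := fun x y => Subtype.ext (hD x x.2 y y.2) }
  let α : D →* D := (MulAut.conjNormal (a⁻¹) : MulAut D).toMonoidHom
  have hα : ∀ x : D, ((α x : D) : G) = a⁻¹ * x * a := by
    intro x
    have : ((α x : D) : G) = a⁻¹ * (x : G) * a⁻¹⁻¹ := MulAut.conjNormal_apply a⁻¹ x
    rw [this, inv_inv]
  have hαk : ∀ (k : ℕ) (x : D), (((α : D → D)^[k] x : D) : G) = (a ^ k)⁻¹ * x * a ^ k := by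
    intro k
    induction k with
    | zero => intro x; simp
    | succ k ih =>
      intro x
      rw [Function.iterate_succ_apply', hα, ih, pow_succ]
      group
  let A : AddMonoid.End (Additive D) := MonoidHom.toAdditive α
  have hAk : ∀ (k : ℕ) (x : Additive D), (A ^ k) x = Additive.ofMul ((α : D → D)^[k] (Additive.toMul x)) := by
    intro k
    induction k with
    | zero => intro x; rfl
    | succ k ih =>
      intro x
      rw [pow_succ', Function.iterate_succ_apply']
      have : (A * A ^ k) x = A ((A ^ k) x) := rfl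
      rw [this, ih]
      rfl
  have hAp : A ^ p = 1 := by
    ext x
    rw [hAk]
    have : ((α : D → D)^[p] (Additive.toMul x)) = Additive.toMul x := by
      apply Subtype.ext
      rw [hαk, hap]
      simp
    rw [this]
    rfl
  obtain ⟨q, hq⟩ := lem_DD_pow (A - 1) p
  rw [add_sub_cancel, hAp] at hq
  have hq2 : (p : AddMonoid.End (Additive D)) * (A - 1) = -((A - 1) ^ 2 * q) := by
    have h2 : (p : AddMonoid.End (Additive D)) * (A - 1) + (A - 1) ^ 2 * q = 0 := by
      have h3 : (1 : AddMonoid.End (Additive D)) + ((p : AddMonoid.End (Additive D)) * (A - 1) + (A - 1) ^ 2 * q) = 1 + 0 := by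
        rw [← add_assoc, ← hq, add_zero]
      exact add_left_cancel h3
    exact eq_neg_of_add_eq_zero_left h2
  obtain ⟨y, hy, hyp⟩ := hDd d0 hd0
  let Y : Additive D := Additive.ofMul ⟨y, hy⟩
  let Z : Additive D := -(q Y)
  have hN : ∀ X : Additive D, ((Additive.toMul ((A - 1) X) : D) : G) = dl a ((Additive.toMul X : D) : G) := by
    intro X
    have e1 : (A - 1) X = A X - X := rfl
    rw [e1, toMul_sub]
    have e2 : Additive.toMul (A X) = α (Additive.toMul X) := rfl
    rw [e2]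
    have e3 : ((α (Additive.toMul X) / Additive.toMul X : D) : G) = ((α (Additive.toMul X) : D) : G) * ((Additive.toMul X : D) : G)⁻¹ := by
      rw [div_eq_mul_inv]; rfl
    rw [e3, ← Subgroup.coe_inv]
    rw [hD _ (α (Additive.toMul X)).2 _ (Additive.toMul X)⁻¹.2, hα]
    rfl
  have hmain : (A - 1) (p • Y) = (A - 1) ((A - 1) Z) := by
    have e1 : (A - 1) (p • Y) = ((p : AddMonoid.End (Additive D)) * (A - 1)) Y := by
      rw [map_nsmul]
      have : ((p : AddMonoid.End (Additive D)) * (A - 1)) Y = (p : AddMonoid.End (Additive D)) ((A - 1) Y) := rfl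
      rw [this, AddMonoid.End.natCast_apply]
    rw [e1, hq2]
    have e2 : (-((A - 1) ^ 2 * q) : AddMonoid.End (Additive D)) Y =
        -((((A - 1) ^ 2 * q) : AddMonoid.End (Additive D)) Y) := rfl
    rw [e2, pow_two]
    have e3 : ((A - 1) * (A - 1) * q : AddMonoid.End (Additive D)) Y = (A - 1) ((A - 1) (q Y)) := rfl
    rw [e3]
    simp only [Z, map_neg]
  refine ⟨((Additive.toMul Z : D) : G), (Additive.toMul Z).2, ?_⟩
  have h1 : ((Additive.toMul ((A - 1) (p • Y)) : D) : G) = ((Additive.toMul ((A - 1) ((A - 1) Z)) : D) : G) :=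
    congrArg (fun X : Additive D => ((Additive.toMul X : D) : G)) hmain
  rw [hN, hN, hN] at h1
  have h2 : ((Additive.toMul (p • Y) : D) : G) = d0 := by
    have : (Additive.toMul (p • Y) : D) = (⟨y, hy⟩ : D) ^ p := rfl
    rw [this, Subgroup.coe_pow]
    exact hyp
  rw [h2] at h1
  exact h1

theorem lem_DD {p : ℕ} [hp : Fact p.Prime] (hG : IsPGroup p G) (D : Subgroup G)
    [hDn : D.Normal] (hD : ∀ x ∈ D, ∀ y ∈ D, x * y = y * x)
    (hDd : ∀ x ∈ D, ∃ y ∈ D, y ^ p = x) (a : G) (hap : a ^ p = 1) (w : G)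
    (hw : ∀ x ∈ D, w * x = x * w) (hc : IsConj a (a * w))
    (hR : ∃ d ∈ D, a⁻¹ * cj a w = dl a d) : ∃ d ∈ D, a * w * dl a d ∈ CC a := by
  obtain ⟨d0, hd0, hR⟩ := hR
  obtain ⟨d, hd, hdd⟩ := lem_DD_ker D hD hDd a hap d0 hd0
  rw [hdd] at hR
  have hρD : dl a d ∈ D := by
    unfold dl cj
    have : a⁻¹ * d * a ∈ D := by
      have := hDn.conj_mem d hd a⁻¹
      rwa [inv_inv] at this
    exact D.mul_mem (D.inv_mem hd) this
  refine ⟨d, hd, ?_, ?_⟩
  · -- commute
    set ρ := dl a d with hρ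
    have hρ' : a * ρ⁻¹ * a⁻¹ ∈ D := hDn.conj_mem _ (D.inv_mem hρD) a
    have hcm := hD _ hρ' _ hρD
    have h1 : a * w = w * a * (ρ⁻¹ * (a⁻¹ * ρ * a)) := by
      have : a⁻¹ * (w⁻¹ * a * w) = ρ⁻¹ * (a⁻¹ * ρ * a) := hR
      rw [← this]
      group
    show a * w * ρ * a = a * (a * w * ρ)
    have h2 : a * w * ρ = w * ρ * a := by
      calc a * w * ρ = w * ((a * ρ⁻¹ * a⁻¹) * ρ) * a * ρ := by rw [h1]; group
        _ = w * (ρ * (a * ρ⁻¹ * a⁻¹)) * a * ρ := by rw [hcm]
        _ = w * ρ * a := by group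
    calc a * w * ρ * a = a * (w * ρ * a) := by group
      _ = a * (a * w * ρ) := by rw [h2]
  · -- conjugate
    refine hc.trans ?_
    rw [isConj_iff]
    refine ⟨d, ?_⟩
    have hwd := hw _ (D.inv_mem hd)
    have hwρ := hw _ hρD
    have hcm := hD _ (hDn.conj_mem _ (D.inv_mem hd) a) _ hd
    calc d * (a * w) * d⁻¹ = d * a * (w * d⁻¹) := by group
      _ = d * a * (d⁻¹ * w) := by rw [hwd]
      _ = (d * (a * d⁻¹ * a⁻¹)) * a * w := by group
      _ = ((a * d⁻¹ * a⁻¹) * d) * a * w := by rw [hcm]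
      _ = a * (dl a d * w) := by unfold dl cj; group
      _ = a * (w * dl a d) := by rw [hwρ]
      _ = a * w * dl a d := by group


end Pool.Agent.Helper233.Cen.ZDD
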