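import Mathlib
import Pool.Agent.Helper233.Cen.M5
import Pool.Agent.Helper233.Cen.Z.DD

set_option autoImplicit false

namespace Pool.Agent.Helper233.Cen.ZJAX

open Subgroup
open scoped commutatorElement
open Pool.Agent.Helper233.Cen
open Pool.Agent.Helper233.Cen.ZDD

variable {G : Type*} [Group G]








/-- PROVE THIS ONE -/
theorem AX_quot {p : ℕ} [hp : Fact p.Prime] (hG : IsPGroup p G) (D : Subgroup G)
    [hDn : D.Normal] (hD : ∀ x ∈ D, ∀ y ∈ D, x * y = y * x)
    (hDd : ∀ x ∈ D, ∃ y ∈ D, y ^ p = x) (a : G) (hap : a ^ p = 1) (h2 : (CC a).Finite) :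
    AX (QuotientGroup.mk' D a) ((centralizer (D : Set G)).map (QuotientGroup.mk' D)) := by
  classical
  intro u hu hconst hcomm
  let π : G →* G ⧸ D := QuotientGroup.mk' D
  have hπ : π = QuotientGroup.mk' D := rfl
  have hker : ∀ g : G, π g = 1 ↔ g ∈ D := fun g => QuotientGroup.eq_one_iff g
  choose U hU hUu using hu
  have hUu' : ∀ n, π (U n) = u n := hUu
  obtain ⟨W, hW⟩ : ∃ W : G → G, ∀ g, W g = a⁻¹ * cj a g := ⟨_, fun _ => rfl⟩
  have hπW : ∀ g, (π a)⁻¹ * cj (π a) (π g) = π (W g) := by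
    intro g; simp [hW, cj]
  have hX : ∀ n, (π a)⁻¹ * cj (π a) (u n) = π (W (U n)) := by
    intro n; rw [← hUu' n]; exact hπW _
  -- centralizer facts
  have hCc : ∀ g ∈ centralizer (D : Set G), ∀ d ∈ D, d * g = g * d := by
    intro g hg d hd
    exact (mem_centralizer_iff.1 hg) d hd
  have hcjD : ∀ g ∈ centralizer (D : Set G), ∀ d ∈ D, cj d g = d := by
    intro g hg d hd
    have := hCc g hg d hd
    simp only [cj]
    rw [mul_assoc, this]; group
  have hWC : ∀ g ∈ centralizer (D : Set G), W g ∈ centralizer (D : Set G) := by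
    intro g hg
    rw [mem_centralizer_iff]
    intro d hd
    have h1 : a * d * a⁻¹ ∈ D := hDn.conj_mem d hd a
    have h2 := hCc g⁻¹ (inv_mem hg) _ h1
    have h3 := hCc g hg d hd
    simp only [hW, cj]
    calc d * (a⁻¹ * (g⁻¹ * a * g)) = a⁻¹ * ((a * d * a⁻¹) * g⁻¹) * a * g := by group
      _ = a⁻¹ * (g⁻¹ * (a * d * a⁻¹)) * a * g := by rw [h2]
      _ = a⁻¹ * g⁻¹ * a * (d * g) := by group
      _ = a⁻¹ * g⁻¹ * a * (g * d) := by rw [h3]
      _ = a⁻¹ * (g⁻¹ * a * g) * d := by group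
  have hWmul : ∀ x y, W (x * y) = W y * cj (W x) y := by
    intro x y; simp only [hW, cj]; group
  have hconjD : ∀ d ∈ D, a⁻¹ * d * a ∈ D := by
    intro d hd
    have := hDn.conj_mem d hd a⁻¹
    simpa using this
  have hdlD : ∀ d ∈ D, dl a d ∈ D := by
    intro d hd
    simp only [dl, cj]
    exact D.mul_mem (D.inv_mem hd) (hconjD d hd)
  have hdlmul : ∀ x ∈ D, ∀ y ∈ D, dl a x * dl a y = dl a (x * y) := by
    intro x hx y hy
    have h1 : x⁻¹ * (a⁻¹ * x * a) ∈ D := D.mul_mem (D.inv_mem hx) (hconjD x hx)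
    have h2 := hD y⁻¹ (D.inv_mem hy) _ h1
    simp only [dl, cj]
    calc x⁻¹ * (a⁻¹ * x * a) * (y⁻¹ * (a⁻¹ * y * a))
        = (x⁻¹ * (a⁻¹ * x * a) * y⁻¹) * (a⁻¹ * y * a) := by group
      _ = (y⁻¹ * (x⁻¹ * (a⁻¹ * x * a))) * (a⁻¹ * y * a) := by rw [h2]
      _ = (x * y)⁻¹ * (a⁻¹ * (x * y) * a) := by group
  have hdl1 : dl a 1 = 1 := by simp [dl, cj]
  have hdlinv : ∀ x ∈ D, (dl a x)⁻¹ = dl a x⁻¹ := by
    intro x hx
    have := hdlmul x hx x⁻¹ (D.inv_mem hx)
    rw [mul_inv_cancel, hdl1] at this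
    exact inv_eq_of_mul_eq_one_right this
  have hWD : ∀ x ∈ D, W x = dl a x⁻¹ := by
    intro x hx
    have h1 : a⁻¹ * x⁻¹ * a ∈ D := hconjD x⁻¹ (D.inv_mem hx)
    have h2 := hD x hx _ h1
    simp only [hW, dl, cj, inv_inv]
    calc a⁻¹ * (x⁻¹ * a * x) = (a⁻¹ * x⁻¹ * a) * x := by group
      _ = x * (a⁻¹ * x⁻¹ * a) := h2.symm
  have hWDD : ∀ x ∈ D, W x ∈ D := by
    intro x hx
    rw [hWD x hx]; exact hdlD _ (D.inv_mem hx)
  have haW : ∀ g, a * W g = cj a g := by
    intro g; simp only [hW]; group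
  have hIC : ∀ g, IsConj a (a * W g) := by
    intro g
    rw [haW, isConj_iff]
    exact ⟨g⁻¹, by simp only [cj]; group⟩
  -- (A)
  have hv : ∀ n k, (U k)⁻¹ * U n ∈ centralizer (D : Set G) := fun n k =>
    mul_mem (inv_mem (hU k)) (hU n)
  have hcomm' : ∀ n k, n < k → Commute (π (W (U k))) (π ((U k)⁻¹ * U n)) := by
    intro n k hnk
    have := hcomm n k hnk
    have e1 : (π ((U k)⁻¹ * U n)) = (u k)⁻¹ * u n := by
      rw [map_mul, map_inv, hUu', hUu']
    rw [e1, ← hX]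
    exact this
  have hA : ∀ n k, n < k → π (W (U n)) = π (W ((U k)⁻¹ * U n)) * π (W (U k)) := by
    intro n k hnk
    have h1 : U n = U k * ((U k)⁻¹ * U n) := by group
    have h2 := hWmul (U k) ((U k)⁻¹ * U n)
    rw [← h1] at h2
    rw [h2, map_mul]
    congr 1
    have h3 := (hcomm' n k hnk).eq
    simp only [cj]
    rw [map_mul, map_mul, map_inv, mul_assoc, h3]
    group
  have hconst' : ∀ n, cj (π a) (π (W (U n))) = cj (π a) (π (W (U 0))) := by
    intro n
    have := hconst n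
    rw [← hX n, ← hX 0]
    exact this
  have hB : ∀ n k, n < k → W (W ((U k)⁻¹ * U n)) ∈ D := by
    intro n k hnk
    rw [← hker, ← hπW]
    have h1 : π (W ((U k)⁻¹ * U n)) = π (W (U n)) * (π (W (U k)))⁻¹ := by
      rw [hA n k hnk, mul_inv_cancel_right]
    rw [h1]
    have h2 := hconst' n
    have h3 := hconst' k
    rw [← h3] at h2
    simp only [cj] at h2 ⊢
    rw [inv_mul_eq_one]
    have : (π (W (U n)) * (π (W (U k)))⁻¹)⁻¹ * π a * (π (W (U n)) * (π (W (U k)))⁻¹) =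
        π (W (U k)) * ((π (W (U n)))⁻¹ * π a * π (W (U n))) * (π (W (U k)))⁻¹ := by group
    rw [this, h2]
    group
  -- the classes
  have hcls : ∀ k, 0 < k → ∃ d ∈ D, a * W (W ((U k)⁻¹ * U 0)) * dl a d ∈ CC a := by
    intro k hk
    have ht := hB 0 k hk
    refine lem_DD hG D hD hDd a hap _ (fun x hx => hD _ ht x hx) (hIC _) ?_
    exact ⟨(W (W ((U k)⁻¹ * U 0)))⁻¹, D.inv_mem ht, by rw [← hW]; exact hWD _ ht⟩
  choose! δ hδD hδ using hcls
  -- key: same class
  have hkey : ∀ k l, 0 < k → k < l →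
      a * W (W ((U k)⁻¹ * U 0)) * dl a (δ k) = a * W (W ((U l)⁻¹ * U 0)) * dl a (δ l) →
      ∃ c ∈ CC a, π (W (U l)) = (π (a⁻¹ * c))⁻¹ * π (W (U k)) := by
    intro k l hk hkl hc
    have hl : 0 < l := lt_trans hk hkl
    set v := (U l)⁻¹ * U k with hvdef
    set vk := (U k)⁻¹ * U 0 with hvk
    have hvC : v ∈ centralizer (D : Set G) := hv k l
    have hvkC : vk ∈ centralizer (D : Set G) := hv 0 k
    have hvl : (U l)⁻¹ * U 0 = v * vk := by rw [hvdef, hvk]; group
    have htk : W (W vk) ∈ D := hB 0 k hk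
    have htl : W (W ((U l)⁻¹ * U 0)) ∈ D := hB 0 l hl
    have hwv : W (W v) ∈ D := hB k l hkl
    -- d'
    have hcom1 : Commute (π (W (U k))) (π vk) := hcomm' 0 k hk
    have hcom2 : Commute (π (W (U l))) (π vk) := by
      have c1 := hcomm' 0 l hl
      have c2 := hcomm' k l hkl
      have e : vk = v⁻¹ * ((U l)⁻¹ * U 0) := by rw [hvl]; group
      rw [e, map_mul, map_inv]
      exact (c2.inv_right).mul_right c1
    have hcom3 : Commute (π (W v)) (π vk) := by
      have h1 : π (W v) = π (W (U k)) * (π (W (U l)))⁻¹ := by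
        have hA' := hA k l hkl
        rw [← hvdef] at hA'
        rw [hA', mul_inv_cancel_right]
      rw [h1]
      exact hcom1.mul_left hcom2.inv_left
    have hd' : (W v)⁻¹ * cj (W v) vk ∈ D := by
      rw [← hker]
      simp only [cj, map_mul, map_inv]
      rw [mul_assoc (π vk)⁻¹, hcom3.eq]
      group
    set d' := (W v)⁻¹ * cj (W v) vk with hd'def
    have hWvl : W ((U l)⁻¹ * U 0) = (W vk * W v) * d' := by
      rw [hvl, hWmul, hd'def]; group
    have hWWv : W (W vk * W v) = W (W v) * W (W vk) := by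
      rw [hWmul, hcjD _ (hWC v hvC) _ htk]
    have htl2 : W (W ((U l)⁻¹ * U 0)) = W d' * (W (W v) * W (W vk)) := by
      rw [hWvl, hWmul, hWWv]
      congr 1
      have h1 : W (W v) * W (W vk) ∈ D := D.mul_mem hwv htk
      have h2 := hD _ h1 d' hd'
      simp only [cj]
      rw [mul_assoc, h2]; group
    have hR : ∃ d ∈ D, a⁻¹ * cj a (W v) = dl a d := by
      have hk0 := hδD k hk
      have hl0 := hδD l hl
      refine ⟨d' * (δ k * (δ l)⁻¹), D.mul_mem hd' (D.mul_mem hk0 (D.inv_mem hl0)), ?_⟩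
      rw [← hW]
      rw [← hdlmul _ hd' _ (D.mul_mem hk0 (D.inv_mem hl0)), ← hdlmul _ hk0 _ (D.inv_mem hl0),
        ← hdlinv _ hl0]
      have e1 : W (W v) = (W d')⁻¹ * W (W ((U l)⁻¹ * U 0)) * (W (W vk))⁻¹ := by
        rw [htl2]; group
      have e2 : (W d')⁻¹ = dl a d' := by
        rw [hWD _ hd', hdlinv _ (D.inv_mem hd'), inv_inv]
      have e3 : W (W ((U l)⁻¹ * U 0)) * (W (W vk))⁻¹ = dl a (δ k) * (dl a (δ l))⁻¹ := by
        have h1 : W (W vk) * dl a (δ k) = W (W ((U l)⁻¹ * U 0)) * dl a (δ l) := by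
          have : a * (W (W vk) * dl a (δ k)) = a * (W (W ((U l)⁻¹ * U 0)) * dl a (δ l)) := by
            rw [← mul_assoc, ← mul_assoc]; exact hc
          exact mul_left_cancel this
        have h2 := hD _ htk _ (hdlD _ hk0)
        have h3 : W (W ((U l)⁻¹ * U 0)) = dl a (δ k) * W (W vk) * (dl a (δ l))⁻¹ := by
          rw [← h2, h1]; group
        rw [h3]
        have h4 := hD _ htk _ (D.inv_mem (hdlD _ hl0))
        calc dl a (δ k) * W (W vk) * (dl a (δ l))⁻¹ * (W (W vk))⁻¹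
            = dl a (δ k) * (W (W vk) * (dl a (δ l))⁻¹) * (W (W vk))⁻¹ := by group
          _ = dl a (δ k) * ((dl a (δ l))⁻¹ * W (W vk)) * (W (W vk))⁻¹ := by rw [h4]
          _ = dl a (δ k) * (dl a (δ l))⁻¹ := by group
      rw [e1, e2, mul_assoc, e3]
    obtain ⟨d, hd, hcc⟩ := lem_DD hG D hD hDd a hap (W v)
      (fun x hx => (hCc _ (hWC v hvC) x hx).symm) (hIC v) hR
    refine ⟨_, hcc, ?_⟩
    have h1 : π (a⁻¹ * (a * W v * dl a d)) = π (W v) := by
      have : π (dl a d) = 1 := (hker _).2 (hdlD _ hd)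
      rw [map_mul, map_mul, this, mul_one, map_mul, map_inv]
      group
    have hA' := hA k l hkl
    rw [← hvdef] at hA'
    rw [h1, hA', inv_mul_cancel_left]
  -- finiteness
  have hfinal : (Set.range fun n => π (W (U n))).Finite := by
    have hsub : (Set.range fun n => π (W (U n))) ⊆ {π (W (U 0))} ∪
        ⋃ c ∈ CC a, {x | ∃ k, 0 < k ∧ a * W (W ((U k)⁻¹ * U 0)) * dl a (δ k) = c ∧
          x = π (W (U k))} := by
      rintro x ⟨n, rfl⟩
      rcases Nat.eq_zero_or_pos n with h | h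
      · left; simp [h]
      · right
        simp only [Set.mem_iUnion]
        exact ⟨_, hδ n h, n, h, rfl, rfl⟩
    refine Set.Finite.subset ?_ hsub
    refine (Set.finite_singleton _).union ?_
    refine Set.Finite.biUnion h2 fun c _ => ?_
    by_cases hne : ∃ k, 0 < k ∧ a * W (W ((U k)⁻¹ * U 0)) * dl a (δ k) = c
    · obtain ⟨hk0, hk1⟩ := Nat.find_spec hne
      set k := Nat.find hne with hkdef
      have hfin : ({π (W (U k))} ∪ (fun c' => (π (a⁻¹ * c'))⁻¹ * π (W (U k))) '' CC a).Finite :=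
        (Set.finite_singleton _).union (h2.image _)
      refine hfin.subset ?_
      rintro x ⟨l, hl0, hl1, rfl⟩
      have hkl : k ≤ l := Nat.find_min' hne ⟨hl0, hl1⟩
      rcases hkl.eq_or_lt with h | h
      · left; rw [h]; rfl
      · right
        obtain ⟨c', hc', he⟩ := hkey k l hk0 h (hk1.trans hl1.symm)
        exact ⟨c', hc', he.symm⟩
    · refine Set.Finite.subset Set.finite_empty ?_
      rintro x ⟨l, hl0, hl1, rfl⟩
      exact (hne ⟨l, hl0, hl1⟩).elim
  have heq : (fun n => (QuotientGroup.mk' D a)⁻¹ * cj (QuotientGroup.mk' D a) (u n)) =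
      fun n => π (W (U n)) := by
    funext n
    exact hX n
  rw [heq]
  exact hfinal


end Pool.Agent.Helper233.Cen.ZJAX
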