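import Mathlib
import Pool.Agent.Helper233.Cen.M5
import Pool.Agent.Helper233.Cen.Z.A5

set_option autoImplicit false

namespace Pool.Agent.Helper233.Cen.ZJW

open Subgroup
open scoped commutatorElement
open Pool.Agent.Helper233.Cen
open Pool.Agent.Helper233.Cen.ZA5

variable {G : Type*} [Group G]







theorem jw_cj_eq (x g : G) : cj x g = MulAut.conj g⁻¹ x := by simp [cj, MulAut.conj_apply]
theorem jw_cj_mul (x y g : G) : cj (x * y) g = cj x g * cj y g := by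
  rw [jw_cj_eq, jw_cj_eq, jw_cj_eq, map_mul]
theorem jw_cj_inv (x g : G) : cj x⁻¹ g = (cj x g)⁻¹ := by rw [jw_cj_eq, jw_cj_eq, map_inv]
theorem jw_cj_pow (x g : G) (n : ℕ) : cj (x ^ n) g = (cj x g) ^ n := by
  rw [jw_cj_eq, jw_cj_eq, map_pow]
theorem jw_cj_one (x : G) : cj x 1 = x := by simp [cj]
theorem jw_one_cj (g : G) : cj 1 g = 1 := by simp [cj]
theorem jw_cj_cj (x g h : G) : cj (cj x g) h = cj x (g * h) := by simp [cj, mul_assoc]
theorem jw_dl_one (g : G) : dl g 1 = 1 := by simp [dl, cj]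
theorem jw_one_dl (x : G) : dl 1 x = 1 := by simp [dl, cj]

theorem jw_dl_mulg (g h x : G) : dl (g * h) x = dl g x * dl h (cj x g) := by
  unfold dl; rw [jw_cj_cj]; group

theorem jw_dl_invg (g x : G) : dl g⁻¹ x = (dl g (cj x g⁻¹))⁻¹ := by
  unfold dl; rw [jw_cj_cj, inv_mul_cancel, jw_cj_one]; group

theorem jw_dl_conj (g k x : G) : dl (k⁻¹ * g * k) x = cj (dl g (cj x k⁻¹)) k := by
  unfold dl
  rw [jw_cj_mul, jw_cj_inv, jw_cj_cj, jw_cj_cj, jw_cj_cj, inv_mul_cancel, jw_cj_one]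
  simp only [mul_assoc]

theorem jw_cj_dl (g k x : G) : cj (dl g x) k = dl (k⁻¹ * g * k) (cj x k) := by
  rw [jw_dl_conj, jw_cj_cj, mul_inv_cancel, jw_cj_one]

theorem jw_cj_mem (D : Subgroup G) [hDn : D.Normal] {x : G} (hx : x ∈ D) (g : G) : cj x g ∈ D := by
  have := hDn.conj_mem x hx g⁻¹
  simpa [cj] using this

theorem jw_dl_mem (D : Subgroup G) [hDn : D.Normal] {x : G} (hx : x ∈ D) (g : G) : dl g x ∈ D :=
  D.mul_mem (D.inv_mem hx) (jw_cj_mem D hx g)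

theorem jw_dl_mul (D : Subgroup G) [hDn : D.Normal] (hD : ∀ x ∈ D, ∀ y ∈ D, x * y = y * x)
    (g : G) {x y : G} (hx : x ∈ D) (hy : y ∈ D) : dl g (x * y) = dl g x * dl g y := by
  have h1 := hD y⁻¹ (D.inv_mem hy) (x⁻¹ * cj x g) (jw_dl_mem D hx g)
  unfold dl
  rw [jw_cj_mul, mul_inv_rev]
  calc y⁻¹ * x⁻¹ * (cj x g * cj y g) = (y⁻¹ * (x⁻¹ * cj x g)) * cj y g := by group
    _ = ((x⁻¹ * cj x g) * y⁻¹) * cj y g := by rw [h1]
    _ = x⁻¹ * cj x g * (y⁻¹ * cj y g) := by group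

theorem jw_dl_inv (D : Subgroup G) [hDn : D.Normal] (hD : ∀ x ∈ D, ∀ y ∈ D, x * y = y * x)
    (g : G) {x : G} (hx : x ∈ D) : dl g x⁻¹ = (dl g x)⁻¹ := by
  have := jw_dl_mul D hD g hx (D.inv_mem hx)
  rw [mul_inv_cancel, jw_dl_one] at this
  exact (inv_eq_of_mul_eq_one_right this.symm).symm

theorem jw_dl_pow (D : Subgroup G) [hDn : D.Normal] (hD : ∀ x ∈ D, ∀ y ∈ D, x * y = y * x)
    (g : G) {x : G} (hx : x ∈ D) (n : ℕ) : dl g (x ^ n) = (dl g x) ^ n := by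
  induction n with
  | zero => simp [jw_dl_one]
  | succ n ih => rw [pow_succ, pow_succ, jw_dl_mul D hD g (D.pow_mem hx n) hx, ih]

theorem jw_br (D : Subgroup G) [hDn : D.Normal] (hD : ∀ x ∈ D, ∀ y ∈ D, x * y = y * x)
    (g : G) (W : Subgroup G) (hW : W ≤ D) :
    ∃ B : Subgroup G, ∀ y, y ∈ B ↔ ∃ x ∈ W, y = dl g x :=
  ⟨{ carrier := {y | ∃ x ∈ W, y = dl g x}
     mul_mem' := by
      rintro _ _ ⟨x, hx, rfl⟩ ⟨y, hy, rfl⟩
      exact ⟨x * y, W.mul_mem hx hy, (jw_dl_mul D hD g (hW hx) (hW hy)).symm⟩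
     one_mem' := ⟨1, W.one_mem, (jw_dl_one g).symm⟩
     inv_mem' := by
      rintro _ ⟨x, hx, rfl⟩
      exact ⟨x⁻¹, W.inv_mem hx, (jw_dl_inv D hD g (hW hx)).symm⟩ }, fun y => Iff.rfl⟩

theorem jw_sup (D : Subgroup G) (hD : ∀ x ∈ D, ∀ y ∈ D, x * y = y * x)
    (A B : Subgroup G) (hA : A ≤ D) (hB : B ≤ D) :
    ∃ S : Subgroup G, ∀ y, y ∈ S ↔ ∃ s ∈ A, ∃ t ∈ B, y = s * t :=
  ⟨{ carrier := {y | ∃ s ∈ A, ∃ t ∈ B, y = s * t}
     mul_mem' := by
      rintro _ _ ⟨s, hs, t, ht, rfl⟩ ⟨s', hs', t', ht', rfl⟩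
      refine ⟨s * s', A.mul_mem hs hs', t * t', B.mul_mem ht ht', ?_⟩
      have := hD t (hB ht) s' (hA hs')
      calc s * t * (s' * t') = s * (t * s') * t' := by group
        _ = s * (s' * t) * t' := by rw [this]
        _ = s * s' * (t * t') := by group
     one_mem' := ⟨1, A.one_mem, 1, B.one_mem, by simp⟩
     inv_mem' := by
      rintro _ ⟨s, hs, t, ht, rfl⟩
      refine ⟨s⁻¹, A.inv_mem hs, t⁻¹, B.inv_mem ht, ?_⟩
      rw [mul_inv_rev]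
      exact hD _ (D.inv_mem (hB ht)) _ (D.inv_mem (hA hs)) }, fun y => Iff.rfl⟩

theorem jw_div_le {p : ℕ} (hG : IsPGroup p G) (D A B : Subgroup G)
    (hD : ∀ x ∈ D, ∀ y ∈ D, x * y = y * x) (hAD : A ≤ D) (hBD : B ≤ D) (hAB : A ≤ B)
    (hA : ∀ x ∈ A, ∃ y ∈ A, y ^ p = x) (hs : ∀ y ∈ B, y ^ p = 1 → y ∈ A) : B ≤ A := by
  have key : ∀ n : ℕ, ∀ x ∈ B, x ^ (p ^ n) = 1 → x ∈ A := by
    intro n
    induction n with
    | zero => intro x _ h; rw [pow_zero, pow_one] at h; rw [h]; exact A.one_mem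
    | succ n ih =>
      intro x hx h
      have h1 : x ^ p ∈ A := by
        apply ih _ (B.pow_mem hx p)
        rw [← pow_mul, ← pow_succ']; exact h
      obtain ⟨y, hy, hyx⟩ := hA _ h1
      have hc : Commute x y⁻¹ := hD x (hBD hx) y⁻¹ (D.inv_mem (hAD hy))
      have h2 : (x * y⁻¹) ^ p = 1 := by
        rw [hc.mul_pow, inv_pow, hyx, mul_inv_cancel]
      have h3 := hs (x * y⁻¹) (B.mul_mem hx (B.inv_mem (hAB hy))) h2
      have : x = x * y⁻¹ * y := by group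
      rw [this]; exact A.mul_mem h3 hy
  intro x hx
  obtain ⟨k, hk⟩ := hG x
  exact key k x hx hk

/-- the admissible subgroups -/
def JWp (p : ℕ) (D K W : Subgroup G) : Prop :=
  W ≤ D ∧ (∀ x ∈ W, ∀ k ∈ K, cj x k ∈ W) ∧ (∀ x ∈ W, ∃ y ∈ W, y ^ p = x) ∧
    {y : G | y ∈ W ∧ y ^ p = 1}.Finite

theorem jw_sup_Wp {p : ℕ} [hp : Fact p.Prime] (hG : IsPGroup p G) (D K W W2 : Subgroup G)
    (hD : ∀ x ∈ D, ∀ y ∈ D, x * y = y * x) (h1 : JWp p D K W) (h2 : JWp p D K W2) :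
    ∃ S : Subgroup G, JWp p D K S ∧ ∀ y, y ∈ S ↔ ∃ s ∈ W, ∃ t ∈ W2, y = s * t := by
  obtain ⟨S, hS⟩ := jw_sup D hD W W2 h1.1 h2.1
  refine ⟨S, ⟨?_, ?_, ?_, ?_⟩, hS⟩
  · intro y hy
    obtain ⟨s, hs, t, ht, rfl⟩ := (hS y).1 hy
    exact D.mul_mem (h1.1 hs) (h2.1 ht)
  · intro y hy k hk
    obtain ⟨s, hs, t, ht, rfl⟩ := (hS y).1 hy
    rw [hS]
    exact ⟨cj s k, h1.2.1 s hs k hk, cj t k, h2.2.1 t ht k hk, jw_cj_mul s t k⟩
  · intro y hy
    obtain ⟨s, hs, t, ht, rfl⟩ := (hS y).1 hy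
    obtain ⟨s', hs', rfl⟩ := h1.2.2.1 s hs
    obtain ⟨t', ht', rfl⟩ := h2.2.2.1 t ht
    refine ⟨s' * t', (hS _).2 ⟨s', hs', t', ht', rfl⟩, ?_⟩
    have hc : Commute s' t' := hD _ (h1.1 hs') _ (h2.1 ht')
    exact hc.mul_pow p
  · have := FSsum hG D W W2 hD h1.1 h2.1 h1.2.2.2 h2.2.2.2
    refine this.subset ?_
    rintro y ⟨hy, hy2⟩
    exact ⟨(hS y).1 hy, hy2⟩

/-- PROVE THIS ONE -/
theorem exists_W {p : ℕ} [hp : Fact p.Prime] (hG : IsPGroup p G) (D K : Subgroup G)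
    [hDn : D.Normal] [hKn : K.Normal] (hD : ∀ x ∈ D, ∀ y ∈ D, x * y = y * x)
    (hDd : ∀ x ∈ D, ∃ y ∈ D, y ^ p = x) (a : G) (haK : a ∈ K) (s : ℕ)
    (hs : ∀ k ∈ K.lowerCentralSeries s, ∀ x ∈ D, k * x = x * k)
    (hR : {y : G | (∃ x ∈ D, y = dl a x) ∧ y ^ p = 1}.Finite) :
    ∃ W : Subgroup G, W ≤ D ∧ (∀ x ∈ W, ∀ k ∈ K, cj x k ∈ W) ∧
      (∀ x ∈ W, ∃ y ∈ W, y ^ p = x) ∧ {y : G | y ∈ W ∧ y ^ p = 1}.Finite ∧
      ∀ x ∈ D, dl a x ∈ W := by
  classical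
  -- maximal choice
  let soc : Subgroup G → Set G := fun W => {y : G | (∃ x ∈ W, y = dl a x) ∧ y ^ p = 1}
  have hsocR : ∀ W : Subgroup G, W ≤ D → soc W ⊆ {y : G | (∃ x ∈ D, y = dl a x) ∧ y ^ p = 1} := by
    rintro W hW y ⟨⟨x, hx, rfl⟩, h2⟩
    exact ⟨⟨x, hW hx, rfl⟩, h2⟩
  have hbot : JWp p D K ⊥ := by
    refine ⟨bot_le, ?_, ?_, ?_⟩
    · intro x hx k _
      rw [Subgroup.mem_bot] at hx ⊢
      rw [hx, jw_one_cj]
    · intro x hx
      rw [Subgroup.mem_bot] at hx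
      exact ⟨1, Subgroup.one_mem _, by rw [hx, one_pow]⟩
    · refine (Set.finite_singleton (1:G)).subset ?_
      rintro y ⟨hy, -⟩
      exact Subgroup.mem_bot.1 hy
  obtain ⟨W, hW, hmax⟩ : ∃ W, JWp p D K W ∧
      ∀ W', JWp p D K W' → (soc W').ncard ≤ (soc W).ncard := by
    have hne : {n : ℕ | ∃ W, JWp p D K W ∧ (soc W).ncard = n}.Nonempty := ⟨_, ⊥, hbot, rfl⟩
    have hbd : BddAbove {n : ℕ | ∃ W, JWp p D K W ∧ (soc W).ncard = n} := by
      refine ⟨{y : G | (∃ x ∈ D, y = dl a x) ∧ y ^ p = 1}.ncard, ?_⟩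
      rintro n ⟨W, hW, rfl⟩
      exact Set.ncard_le_ncard (hsocR W hW.1) hR
    obtain ⟨W, hW, hWn⟩ := Nat.sSup_mem hne hbd
    refine ⟨W, hW, fun W' hW' => ?_⟩
    rw [hWn]
    exact le_csSup hbd ⟨W', hW', rfl⟩
  -- the claim
  have hclaim : ∀ W2, JWp p D K W2 → ∀ y ∈ W2, dl a y ∈ W := by
    intro W2 hW2 y hy
    obtain ⟨S, hS, hSm⟩ := jw_sup_Wp hG D K W W2 hD hW hW2
    have hWS : W ≤ S := fun x hx => (hSm x).2 ⟨x, hx, 1, W2.one_mem, by simp⟩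
    have hyS : y ∈ S := (hSm y).2 ⟨1, W.one_mem, y, hy, by simp⟩
    have hsub : soc W ⊆ soc S := by
      rintro z ⟨⟨x, hx, rfl⟩, h2⟩
      exact ⟨⟨x, hWS hx, rfl⟩, h2⟩
    have hSfin : (soc S).Finite := hR.subset (hsocR S hS.1)
    have heq : soc W = soc S := Set.eq_of_subset_of_ncard_le hsub (hmax S hS) hSfin
    obtain ⟨A, hA⟩ := jw_br D hD a W hW.1
    obtain ⟨B, hB⟩ := jw_br D hD a S hS.1
    have hAD : A ≤ D := by
      intro z hz
      obtain ⟨x, hx, rfl⟩ := (hA z).1 hz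
      exact jw_dl_mem D (hW.1 hx) a
    have hBD : B ≤ D := by
      intro z hz
      obtain ⟨x, hx, rfl⟩ := (hB z).1 hz
      exact jw_dl_mem D (hS.1 hx) a
    have hAB : A ≤ B := by
      intro z hz
      obtain ⟨x, hx, rfl⟩ := (hA z).1 hz
      exact (hB _).2 ⟨x, hWS hx, rfl⟩
    have hAdiv : ∀ x ∈ A, ∃ y ∈ A, y ^ p = x := by
      intro z hz
      obtain ⟨x, hx, rfl⟩ := (hA z).1 hz
      obtain ⟨x', hx', rfl⟩ := hW.2.2.1 x hx
      exact ⟨dl a x', (hA _).2 ⟨x', hx', rfl⟩, (jw_dl_pow D hD a (hW.1 hx') p).symm⟩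
    have hle := jw_div_le hG D A B hD hAD hBD hAB hAdiv (by
      intro z hz hz2
      have h3 : z ∈ soc S := ⟨(hB z).1 hz, hz2⟩
      rw [← heq] at h3
      exact (hA z).2 h3.1)
    have h4 : dl a y ∈ A := hle ((hB _).2 ⟨y, hyS, rfl⟩)
    obtain ⟨x, hx, hxy⟩ := (hA _).1 h4
    rw [hxy]
    exact W.mul_mem (W.inv_mem hx) (hW.2.1 x hx a haK)
  have hcjK : ∀ {g k : G}, g ∈ K → k ∈ K → k⁻¹ * g * k ∈ K := by
    intro g k hg hk
    exact K.mul_mem (K.mul_mem (K.inv_mem hk) hg) hk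
  -- L0
  let L0 : Subgroup G :=
    { carrier := {k | k ∈ K ∧ ∀ x ∈ D, dl k x ∈ W}
      mul_mem' := by
        rintro g h ⟨hg, hg'⟩ ⟨hh, hh'⟩
        refine ⟨K.mul_mem hg hh, fun x hx => ?_⟩
        rw [jw_dl_mulg]
        exact W.mul_mem (hg' x hx) (hh' _ (jw_cj_mem D hx g))
      one_mem' := ⟨K.one_mem, fun x _ => by rw [jw_one_dl]; exact W.one_mem⟩
      inv_mem' := by
        rintro g ⟨hg, hg'⟩
        refine ⟨K.inv_mem hg, fun x hx => ?_⟩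
        rw [jw_dl_invg]
        exact W.inv_mem (hg' _ (jw_cj_mem D hx g⁻¹)) }
  have hL0 : ∀ k, k ∈ L0 ↔ (k ∈ K ∧ ∀ x ∈ D, dl k x ∈ W) := fun k => Iff.rfl
  -- Sg : elements with finite socle of the commutator
  let Sg : Subgroup G :=
    { carrier := {g | g ∈ K ∧ {y : G | (∃ x ∈ D, y = dl g x) ∧ y ^ p = 1}.Finite}
      mul_mem' := by
        rintro g h ⟨hg, hg'⟩ ⟨hh, hh'⟩
        refine ⟨K.mul_mem hg hh, ?_⟩
        obtain ⟨A, hA⟩ := jw_br D hD g D le_rfl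
        obtain ⟨B, hB⟩ := jw_br D hD h D le_rfl
        have hAD : A ≤ D := by
          intro z hz
          obtain ⟨x, hx, rfl⟩ := (hA z).1 hz
          exact jw_dl_mem D hx g
        have hBD : B ≤ D := by
          intro z hz
          obtain ⟨x, hx, rfl⟩ := (hB z).1 hz
          exact jw_dl_mem D hx h
        have := FSsum hG D A B hD hAD hBD
          (hg'.subset (by rintro y ⟨hy, hy2⟩; exact ⟨(hA y).1 hy, hy2⟩))
          (hh'.subset (by rintro y ⟨hy, hy2⟩; exact ⟨(hB y).1 hy, hy2⟩))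
        refine this.subset ?_
        rintro y ⟨⟨x, hx, rfl⟩, hy2⟩
        refine ⟨⟨dl g x, (hA _).2 ⟨x, hx, rfl⟩, dl h (cj x g),
          (hB _).2 ⟨_, jw_cj_mem D hx g, rfl⟩, jw_dl_mulg g h x⟩, hy2⟩
      one_mem' := by
        refine ⟨K.one_mem, (Set.finite_singleton (1:G)).subset ?_⟩
        rintro y ⟨⟨x, _, rfl⟩, _⟩
        exact jw_one_dl x
      inv_mem' := by
        rintro g ⟨hg, hg'⟩
        refine ⟨K.inv_mem hg, hg'.subset ?_⟩
        rintro y ⟨⟨x, hx, rfl⟩, hy2⟩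
        refine ⟨⟨(cj x g⁻¹)⁻¹, D.inv_mem (jw_cj_mem D hx _), ?_⟩, hy2⟩
        rw [jw_dl_inv D hD g (jw_cj_mem D hx _), jw_dl_invg] }
  have hSg : ∀ g, g ∈ Sg ↔ (g ∈ K ∧ {y : G | (∃ x ∈ D, y = dl g x) ∧ y ^ p = 1}.Finite) :=
    fun g => Iff.rfl
  -- the normal closure of a in K
  let M : Subgroup G := Subgroup.closure {y | ∃ k ∈ K, y = k⁻¹ * a * k}
  have haM : a ∈ M := Subgroup.subset_closure ⟨1, K.one_mem, by simp⟩
  have hMK : M ≤ K := by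
    rw [Subgroup.closure_le]
    rintro _ ⟨k, hk, rfl⟩
    exact hcjK haK hk
  have hMSg : M ≤ Sg := by
    rw [Subgroup.closure_le]
    rintro _ ⟨k, hk, rfl⟩
    refine ⟨hcjK haK hk, ?_⟩
    refine (hR.image (fun y => cj y k)).subset ?_
    rintro y ⟨⟨x, hx, rfl⟩, hy2⟩
    refine ⟨dl a (cj x k⁻¹), ⟨⟨_, jw_cj_mem D hx _, rfl⟩, ?_⟩, (jw_dl_conj a k x).symm⟩
    have h5 : cj (dl (k⁻¹ * a * k) x) k⁻¹ = dl a (cj x k⁻¹) := by
      rw [jw_dl_conj, jw_cj_cj, mul_inv_cancel, jw_cj_one]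
    rw [← h5, ← jw_cj_pow, hy2, jw_one_cj]
  -- main step
  have hstep : ∀ ζ ∈ M, (∀ k ∈ K, ζ⁻¹ * (k⁻¹ * ζ * k) ∈ L0) → ζ ∈ L0 := by
    intro ζ hζ hcen
    have hζK := hMK hζ
    -- the subgroup W2
    obtain ⟨A, hA⟩ := jw_br D hD ζ D le_rfl
    have hAD : A ≤ D := by
      intro z hz
      obtain ⟨x, hx, rfl⟩ := (hA z).1 hz
      exact jw_dl_mem D hx ζ
    obtain ⟨W2, hW2m⟩ := jw_sup D hD A W hAD hW.1
    have hW2 : JWp p D K W2 := by
      refine ⟨?_, ?_, ?_, ?_⟩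
      · intro y hy
        obtain ⟨s, hs, t, ht, rfl⟩ := (hW2m y).1 hy
        exact D.mul_mem (hAD hs) (hW.1 ht)
      · intro y hy k hk
        obtain ⟨s, hs, t, ht, rfl⟩ := (hW2m y).1 hy
        obtain ⟨x, hx, rfl⟩ := (hA s).1 hs
        rw [jw_cj_mul, jw_cj_dl]
        have e : k⁻¹ * ζ * k = ζ * (ζ⁻¹ * (k⁻¹ * ζ * k)) := by group
        rw [e, jw_dl_mulg, mul_assoc]
        refine (hW2m _).2 ⟨_, (hA _).2 ⟨cj x k, jw_cj_mem D hx k, rfl⟩, _, ?_, rfl⟩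
        exact W.mul_mem ((hcen k hk).2 _ (jw_cj_mem D (jw_cj_mem D hx k) ζ)) (hW.2.1 t ht k hk)
      · intro y hy
        obtain ⟨s, hs, t, ht, rfl⟩ := (hW2m y).1 hy
        obtain ⟨x, hx, rfl⟩ := (hA s).1 hs
        obtain ⟨x', hx', rfl⟩ := hDd x hx
        obtain ⟨t', ht', rfl⟩ := hW.2.2.1 t ht
        refine ⟨dl ζ x' * t', (hW2m _).2 ⟨_, (hA _).2 ⟨x', hx', rfl⟩, t', ht', rfl⟩, ?_⟩
        have hc : Commute (dl ζ x') t' := hD _ (jw_dl_mem D hx' ζ) _ (hW.1 ht')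
        rw [hc.mul_pow, jw_dl_pow D hD ζ hx']
      · have := FSsum hG D A W hD hAD hW.1
          ((hMSg hζ).2.subset (by rintro y ⟨hy, hy2⟩; exact ⟨(hA y).1 hy, hy2⟩)) hW.2.2.2
        refine this.subset ?_
        rintro y ⟨hy, hy2⟩
        exact ⟨(hW2m y).1 hy, hy2⟩
    have hWW2 : W ≤ W2 := fun x hx => (hW2m x).2 ⟨1, A.one_mem, x, hx, by simp⟩
    -- T
    let T : Subgroup G :=
      { carrier := {g | g ∈ K ∧ ∀ y ∈ W2, dl g y ∈ W}
        mul_mem' := by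
          rintro g h ⟨hg, hg'⟩ ⟨hh, hh'⟩
          refine ⟨K.mul_mem hg hh, fun x hx => ?_⟩
          rw [jw_dl_mulg]
          exact W.mul_mem (hg' x hx) (hh' _ (hW2.2.1 x hx g hg))
        one_mem' := ⟨K.one_mem, fun x _ => by rw [jw_one_dl]; exact W.one_mem⟩
        inv_mem' := by
          rintro g ⟨hg, hg'⟩
          refine ⟨K.inv_mem hg, fun x hx => ?_⟩
          rw [jw_dl_invg]
          exact W.inv_mem (hg' _ (hW2.2.1 x hx _ (K.inv_mem hg))) }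
    have hMT : M ≤ T := by
      rw [Subgroup.closure_le]
      rintro _ ⟨k, hk, rfl⟩
      refine ⟨hcjK haK hk, fun y hy => ?_⟩
      rw [jw_dl_conj]
      exact hW.2.1 _ (hclaim W2 hW2 _ (hW2.2.1 y hy _ (K.inv_mem hk))) k hk
    have hζT := (hMT hζ).2
    -- unipotence
    have hpow : ∀ x ∈ D, ∀ n : ℕ, ∃ w ∈ W, cj x (ζ ^ n) = x * (dl ζ x) ^ n * w := by
      intro x hx n
      induction n with
      | zero => exact ⟨1, W.one_mem, by simp [jw_cj_one]⟩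
      | succ n ih =>
        obtain ⟨w, hw, he⟩ := ih
        set u := dl ζ x with hu
        have huD : u ∈ D := jw_dl_mem D hx ζ
        have huW2 : u ∈ W2 := (hW2m u).2 ⟨u, (hA u).2 ⟨x, hx, rfl⟩, 1, W.one_mem, by simp⟩
        have hw1 : dl ζ u ∈ W := hζT u huW2
        have e1 : cj u ζ = u * dl ζ u := by unfold dl; group
        have e0 : cj x ζ = x * u := by rw [hu]; unfold dl; group
        have hc1 : Commute u (dl ζ u) := hD _ huD _ (jw_dl_mem D huD ζ)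
        refine ⟨(dl ζ u) ^ n * cj w ζ, W.mul_mem (W.pow_mem hw1 n) (hW.2.1 w hw ζ hζK), ?_⟩
        rw [pow_succ, ← jw_cj_cj, he, jw_cj_mul, jw_cj_mul, jw_cj_pow, e0, e1, hc1.mul_pow,
          pow_succ']
        group
    refine ⟨hζK, fun z hz => ?_⟩
    obtain ⟨m, hm⟩ := hG ζ
    have hdivq : ∀ m : ℕ, ∀ z ∈ D, ∃ x ∈ D, x ^ (p ^ m) = z := by
      intro m
      induction m with
      | zero => intro z hz; exact ⟨z, hz, by simp⟩
      | succ m ih =>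
        intro z hz
        obtain ⟨y, hy, rfl⟩ := hDd z hz
        obtain ⟨x, hx, rfl⟩ := ih y hy
        exact ⟨x, hx, by rw [← pow_mul, ← pow_succ]⟩
    obtain ⟨x, hx, rfl⟩ := hdivq m z hz
    rw [jw_dl_pow D hD ζ hx]
    obtain ⟨w, hw, he⟩ := hpow x hx (p ^ m)
    rw [hm, jw_cj_one, mul_assoc] at he
    have h6 : (dl ζ x) ^ (p ^ m) * w = 1 := by
      have := mul_left_cancel (a := x) (b := 1) (c := (dl ζ x) ^ (p ^ m) * w) (by rw [mul_one]; exact he)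
      exact this.symm
    rw [eq_inv_of_mul_eq_one_left h6]
    exact W.inv_mem hw
  -- descend along commutators
  have hKn' : ∀ n, K.lowerCentralSeries n ≤ K := by
    intro n
    exact (K.lowerCentralSeries_antitone (Nat.zero_le n)).trans le_rfl
  let Mi : ℕ → Subgroup G := fun n => Nat.rec M (fun _ H => ⁅H, K⁆) n
  have hMi0 : Mi 0 = M := rfl
  have hMis : ∀ n, Mi (n + 1) = ⁅Mi n, K⁆ := fun n => rfl
  have hMiK : ∀ n, Mi n ≤ K.lowerCentralSeries n := by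
    intro n
    induction n with
    | zero => exact hMK
    | succ n ih =>
      rw [hMis, Subgroup.lowerCentralSeries_succ]
      exact Subgroup.commutator_mono ih le_rfl
  have hMM : ⁅M, K⁆ ≤ M := by
    rw [Subgroup.commutator_le]
    intro g hg k hk
    have h7 : k * g⁻¹ * k⁻¹ ∈ M := by
      have : ∀ g ∈ M, k * g * k⁻¹ ∈ M := by
        intro g hg
        induction hg using Subgroup.closure_induction with
        | mem x hx =>
          obtain ⟨l, hl, rfl⟩ := hx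
          apply Subgroup.subset_closure
          exact ⟨l * k⁻¹, K.mul_mem hl (K.inv_mem hk), by group⟩
        | one => simp
        | mul x y _ _ hx hy =>
          have := M.mul_mem hx hy
          have e : k * x * k⁻¹ * (k * y * k⁻¹) = k * (x * y) * k⁻¹ := by group
          rwa [e] at this
        | inv x _ hx =>
          have := M.inv_mem hx
          have e : (k * x * k⁻¹)⁻¹ = k * x⁻¹ * k⁻¹ := by group
          rwa [e] at this
      exact this _ (M.inv_mem hg)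
    rw [commutatorElement_def]
    have e : g * k * g⁻¹ * k⁻¹ = g * (k * g⁻¹ * k⁻¹) := by group
    rw [e]
    exact M.mul_mem hg h7
  have hMiM : ∀ n, Mi n ≤ M := by
    intro n
    induction n with
    | zero => exact le_rfl
    | succ n ih => exact (Subgroup.commutator_mono ih le_rfl).trans hMM
  have hdesc : ∀ n, Mi n ≤ L0 → M ≤ L0 := by
    intro n
    induction n with
    | zero => exact id
    | succ n ih =>
      intro h
      apply ih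
      intro ζ hζ
      apply hstep ζ (hMiM n hζ)
      intro k hk
      apply h
      have h8 : ⁅ζ⁻¹, k⁻¹⁆ ∈ Mi (n + 1) := by
        rw [hMis]
        exact Subgroup.commutator_mem_commutator ((Mi n).inv_mem hζ) (K.inv_mem hk)
      rw [commutatorElement_def, inv_inv, inv_inv] at h8
      have e : ζ⁻¹ * (k⁻¹ * ζ * k) = ζ⁻¹ * k⁻¹ * ζ * k := by group
      rw [e]; exact h8
  have hlast : Mi s ≤ L0 := by
    intro g hg
    have hg2 := hMiK s hg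
    refine ⟨hKn' s hg2, fun x hx => ?_⟩
    have h9 := hs g hg2 x hx
    have : dl g x = 1 := by
      unfold dl cj
      calc x⁻¹ * (g⁻¹ * x * g) = x⁻¹ * (g⁻¹ * (x * g)) := by group
        _ = x⁻¹ * (g⁻¹ * (g * x)) := by rw [h9]
        _ = 1 := by group
    rw [this]; exact W.one_mem
  have haL0 : a ∈ L0 := hdesc s hlast haM
  exact ⟨W, hW.1, hW.2.1, hW.2.2.1, hW.2.2.2, haL0.2⟩


end Pool.Agent.Helper233.Cen.ZJW
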