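import Mathlib
import Pool.Agent.Helper233.Cen.M5

set_option autoImplicit false

namespace Pool.Agent.Helper233.Cen.ZLIFT

open Subgroup
open scoped commutatorElement
open Pool.Agent.Helper233.Cen

variable {G : Type*} [Group G]






theorem lift_aux1 {H : Type*} [Group H] (x z c : H) (h : x * z = c * z * x)
    (hz : z * c = c * z) (n : ℕ) : x * z ^ n = c ^ n * z ^ n * x := by
  induction n with
  | zero => simp
  | succ n ih =>
    have hzn : z ^ n * c = c * z ^ n := (Commute.pow_left (show Commute z c from hz) n)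
    calc x * z ^ (n + 1) = (x * z ^ n) * z := by rw [pow_succ, mul_assoc]
      _ = c ^ n * z ^ n * (x * z) := by rw [ih]; simp only [mul_assoc]
      _ = c ^ n * (z ^ n * c) * z * x := by rw [h]; simp only [mul_assoc]
      _ = c ^ n * (c * z ^ n) * z * x := by rw [hzn]
      _ = c ^ (n + 1) * z ^ (n + 1) * x := by rw [pow_succ, pow_succ]; simp only [mul_assoc]

theorem lift_aux2 {H : Type*} [Group H] (x z c : H) (h : x * z = c * z * x)
    (hx : x * c = c * x) (n : ℕ) : x ^ n * z = c ^ n * z * x ^ n := by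
  induction n with
  | zero => simp
  | succ n ih =>
    have hxn : x * c ^ n = c ^ n * x := (Commute.pow_right (show Commute x c from hx) n)
    calc x ^ (n + 1) * z = x * (x ^ n * z) := by rw [pow_succ', mul_assoc]
      _ = (x * c ^ n) * z * x ^ n := by rw [ih]; simp only [mul_assoc]
      _ = c ^ n * (x * z) * x ^ n := by rw [hxn]; simp only [mul_assoc]
      _ = c ^ n * (c * z * x) * x ^ n := by rw [h]
      _ = c ^ (n + 1) * z * x ^ (n + 1) := by
        rw [pow_succ c n, pow_succ' x n]; simp only [mul_assoc]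

theorem lift_aux3 {Q : Type*} [Group Q] {p : ℕ} (DX : Subgroup Q)
    (hDXd : ∀ x ∈ DX, ∃ y ∈ DX, y ^ p = x) (k : ℕ) : ∀ x ∈ DX, ∃ y ∈ DX, y ^ (p ^ k) = x := by
  induction k with
  | zero => exact fun x hx => ⟨x, hx, by simp⟩
  | succ k ih =>
    intro x hx
    obtain ⟨y, hy, hyx⟩ := ih x hx
    obtain ⟨w, hw, hwy⟩ := hDXd y hy
    exact ⟨w, hw, by rw [pow_succ', pow_mul, hwy, hyx]⟩

/-- `E / D` divisible abelian, `D` divisible abelian and central in `E`: then `E` is divisible abelian -/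
theorem lift_div {H : Type*} [Group H] {p : ℕ} [hp : Fact p.Prime] (hH : IsPGroup p H)
    (D : Subgroup H) [hDn : D.Normal] (hD : ∀ x ∈ D, ∀ y ∈ D, x * y = y * x)
    (hDd : ∀ x ∈ D, ∃ y ∈ D, y ^ p = x)
    (DX : Subgroup (H ⧸ D)) (hDX : ∀ x ∈ DX, ∀ y ∈ DX, x * y = y * x)
    (hDXd : ∀ x ∈ DX, ∃ y ∈ DX, y ^ p = x)
    (hc : ∀ x : H, (x : H ⧸ D) ∈ DX → ∀ y ∈ D, x * y = y * x) :
    (∀ x y : H, (x : H ⧸ D) ∈ DX → (y : H ⧸ D) ∈ DX → x * y = y * x) ∧
      ∀ x : H, (x : H ⧸ D) ∈ DX → ∃ y : H, (y : H ⧸ D) ∈ DX ∧ y ^ p = x := by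
  constructor
  · intro x y hx hy
    obtain ⟨k, hk⟩ := hH x
    obtain ⟨w, hw, hwy⟩ := lift_aux3 DX hDXd k _ hy
    obtain ⟨z, rfl⟩ := QuotientGroup.mk_surjective w
    have hd : (z ^ (p ^ k))⁻¹ * y ∈ D := by
      rw [← QuotientGroup.eq, ← hwy]
      rfl
    have hcD : x * z * x⁻¹ * z⁻¹ ∈ D := by
      have h1 : ((x * z : H) : H ⧸ D) = ((z * x : H) : H ⧸ D) := hDX _ hx _ hw
      have h2 : (x * z) * (z * x)⁻¹ ∈ D := by
        rw [← QuotientGroup.eq_one_iff]
        have h3 : (((x * z) * (z * x)⁻¹ : H) : H ⧸ D) =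
            ((x * z : H) : H ⧸ D) * ((z * x : H) : H ⧸ D)⁻¹ := rfl
        rw [h3, h1, mul_inv_cancel]
      simpa [mul_inv_rev, mul_assoc] using h2
    have h : x * z = (x * z * x⁻¹ * z⁻¹) * z * x := by group
    have hcx := hc x hx _ hcD
    have hcz := hc z hw _ hcD
    generalize x * z * x⁻¹ * z⁻¹ = c at h hcx hcz hcD
    have e1 := lift_aux2 x z c h hcx (p ^ k)
    rw [hk, one_mul, mul_one] at e1
    have e2 : c ^ (p ^ k) = 1 := by
      have := e1.symm
      simpa using this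
    have e3 := lift_aux1 x z c h hcz (p ^ k)
    rw [e2, one_mul] at e3
    have e4 := hc x hx _ hd
    have e5 : y = z ^ (p ^ k) * ((z ^ (p ^ k))⁻¹ * y) := by group
    calc x * y = (x * z ^ (p ^ k)) * ((z ^ (p ^ k))⁻¹ * y) := by rw [mul_assoc, ← e5]
      _ = z ^ (p ^ k) * (x * ((z ^ (p ^ k))⁻¹ * y)) := by rw [e3]; simp only [mul_assoc]
      _ = z ^ (p ^ k) * (((z ^ (p ^ k))⁻¹ * y) * x) := by rw [e4]
      _ = y * x := by rw [← mul_assoc, ← e5]
  · intro x hx
    obtain ⟨w, hw, hwy⟩ := hDXd _ hx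
    obtain ⟨y, rfl⟩ := QuotientGroup.mk_surjective w
    have hd : (y ^ p)⁻¹ * x ∈ D := by
      rw [← QuotientGroup.eq, ← hwy]
      rfl
    obtain ⟨e, he, hed⟩ := hDd _ hd
    refine ⟨y * e, ?_, ?_⟩
    · have h3 : ((y * e : H) : H ⧸ D) = (y : H ⧸ D) * (e : H ⧸ D) := rfl
      rw [h3, (QuotientGroup.eq_one_iff e).mpr he, mul_one]
      exact hw
    · have hcom : Commute y e := hc y hw e he
      rw [hcom.mul_pow, hed]
      group


end Pool.Agent.Helper233.Cen.ZLIFT
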