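import Mathlib
import Pool.Agent.Helper233.Cen.M5

set_option autoImplicit false

namespace Pool.Agent.Helper233.Cen.ZJG

open Subgroup
open scoped commutatorElement
open Pool.Agent.Helper233.Cen

variable {G : Type*} [Group G]







open scoped Pointwise in
theorem generic2_aux {p : ℕ} [hp : Fact p.Prime] (hG : IsPGroup p G) (hZ : center G = ⊥)
    (D : Subgroup G) [hDn : D.Normal] (S T : Set (G × G)) (hS : S.Finite) (hT : T.Finite)
    (h1 : ∀ s ∈ S, s.1 ≠ 1)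
    (h2 : ∀ t ∈ T, ¬ ∃ U : Set G, U.Finite ∧ ∀ g, ∃ u ∈ U, cj t.1 g * u⁻¹ ∈ D) :
    ∃ g : G, (∀ s ∈ S, cj s.1 g ≠ s.2) ∧ ∀ t ∈ T, cj t.1 g * t.2⁻¹ ∉ D := by
  classical
  by_contra hcon
  push Not at hcon
  obtain ⟨π, hπ⟩ : ∃ π : G →* G ⧸ D, π = QuotientGroup.mk' D := ⟨_, rfl⟩
  have hmem : ∀ x y : G, x * y⁻¹ ∈ D ↔ π x = π y := by
    intro x y
    rw [hπ, QuotientGroup.mk'_apply, QuotientGroup.mk'_apply, QuotientGroup.eq_iff_div_mem,
      div_eq_mul_inv]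
  obtain ⟨K, hK⟩ : ∃ K : G → Subgroup G, ∀ y c, c ∈ K y ↔ π c * π y = π y * π c := by
    refine ⟨fun y => (centralizer ({π y} : Set (G ⧸ D))).comap π, fun y c => ?_⟩
    rw [Subgroup.mem_comap, Subgroup.mem_centralizer_singleton_iff]
  let H : (G × G) ⊕ (G × G) → Subgroup G :=
    Sum.elim (fun s => centralizer {s.2}) (fun t => K t.2)
  let gg : (G × G) ⊕ (G × G) → G :=
    Sum.elim (fun s => if h : ∃ g0, cj s.1 g0 = s.2 then h.choose else 1)
      (fun t => if h : ∃ g0, cj t.1 g0 * t.2⁻¹ ∈ D then h.choose else 1)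
  let F : Finset ((G × G) ⊕ (G × G)) :=
    (hS.toFinset.filter (fun s => ∃ g0, cj s.1 g0 = s.2)).disjSum
      (hT.toFinset.filter (fun t => ∃ g0, cj t.1 g0 * t.2⁻¹ ∈ D))
  have hcov : ⋃ i ∈ F, gg i • (H i : Set G) = Set.univ := by
    rw [Set.eq_univ_iff_forall]
    intro g
    simp only [Set.mem_iUnion]
    by_cases hs : ∃ s ∈ S, cj s.1 g = s.2
    · obtain ⟨s, hsS, hsg⟩ := hs
      have hex : ∃ g0, cj s.1 g0 = s.2 := ⟨g, hsg⟩
      have hg0 := hex.choose_spec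
      refine ⟨Sum.inl s, ?_, ?_⟩
      · refine Finset.inl_mem_disjSum.2 (Finset.mem_filter.2 ⟨?_, hex⟩)
        exact (Set.Finite.mem_toFinset hS).2 hsS
      · have e : gg (Sum.inl s) = hex.choose := by
          show (if h : ∃ g0, cj s.1 g0 = s.2 then h.choose else 1) = _
          rw [dif_pos hex]
        rw [e, Set.mem_smul_set_iff_inv_smul_mem, smul_eq_mul, SetLike.mem_coe]
        show _ ∈ centralizer {s.2}
        rw [Subgroup.mem_centralizer_singleton_iff]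
        generalize hex.choose = g0 at hg0
        calc g0⁻¹ * g * s.2 = g0⁻¹ * g * (cj s.1 g) := by rw [hsg]
          _ = (cj s.1 g0) * (g0⁻¹ * g) := by unfold cj; group
          _ = s.2 * (g0⁻¹ * g) := by rw [hg0]
    · push Not at hs
      obtain ⟨t, htT, htg⟩ := hcon g hs
      have hex : ∃ g0, cj t.1 g0 * t.2⁻¹ ∈ D := ⟨g, htg⟩
      have hg0 := hex.choose_spec
      refine ⟨Sum.inr t, ?_, ?_⟩
      · refine Finset.inr_mem_disjSum.2 (Finset.mem_filter.2 ⟨?_, hex⟩)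
        exact (Set.Finite.mem_toFinset hT).2 htT
      · have e : gg (Sum.inr t) = hex.choose := by
          show (if h : ∃ g0, cj t.1 g0 * t.2⁻¹ ∈ D then h.choose else 1) = _
          rw [dif_pos hex]
        rw [e, Set.mem_smul_set_iff_inv_smul_mem, smul_eq_mul, SetLike.mem_coe]
        show _ ∈ K t.2
        rw [hK]
        generalize hex.choose = g0 at hg0
        rw [hmem] at hg0 htg
        calc π (g0⁻¹ * g) * π t.2 = π (g0⁻¹ * g) * π (cj t.1 g) := by rw [htg]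
          _ = π (cj t.1 g0) * π (g0⁻¹ * g) := by
            rw [← map_mul, ← map_mul]; congr 1; unfold cj; group
          _ = π t.2 * π (g0⁻¹ * g) := by rw [hg0]
  obtain ⟨i, hiF, hfi⟩ := Subgroup.exists_finiteIndex_of_leftCoset_cover hcov
  rcases i with s | t
  · have hs := Finset.inl_mem_disjSum.1 hiF
    rw [Finset.mem_filter, Set.Finite.mem_toFinset] at hs
    obtain ⟨hsS, g0, hg0⟩ := hs
    have hne : s.2 ≠ 1 := by
      intro h
      apply h1 s hsS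
      rw [h] at hg0
      unfold cj at hg0
      have h3 : s.1 = g0 * (g0⁻¹ * s.1 * g0) * g0⁻¹ := by group
      rw [h3, hg0]
      group
    exact center_ne_bot hG s.2 hne hfi hZ
  · have ht := Finset.inr_mem_disjSum.1 hiF
    rw [Finset.mem_filter, Set.Finite.mem_toFinset] at ht
    obtain ⟨htT, g0, hg0⟩ := ht
    have hfi' : (K t.2).FiniteIndex := hfi
    apply h2 t htT
    refine ⟨Set.range (fun q : G ⧸ K t.2 => q.out * t.2 * q.out⁻¹), Set.finite_range _, ?_⟩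
    intro g
    obtain ⟨g', hg'⟩ : ∃ g', g' = g0⁻¹ * g := ⟨_, rfl⟩
    refine ⟨_, ⟨(QuotientGroup.mk g'⁻¹ : G ⧸ K t.2), rfl⟩, ?_⟩
    have hq : ((QuotientGroup.mk g'⁻¹ : G ⧸ K t.2).out)⁻¹ * g'⁻¹ ∈ K t.2 := by
      rw [← QuotientGroup.eq, QuotientGroup.out_eq']
    simp only []
    generalize (QuotientGroup.mk g'⁻¹ : G ⧸ K t.2).out = r at hq
    rw [hK] at hq
    rw [hmem] at hg0 ⊢
    have e1 : π (cj t.1 g) = π (cj t.2 g') := by
      have e2 : cj t.1 g = g'⁻¹ * cj t.1 g0 * g' := by rw [hg']; unfold cj; group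
      rw [e2, map_mul, map_mul, hg0, ← map_mul, ← map_mul]
      rfl
    rw [e1]
    have e3 : π (cj t.2 g') = π r * (π (r⁻¹ * g'⁻¹) * π t.2) * π g' := by
      rw [← map_mul, ← map_mul, ← map_mul]; congr 1; unfold cj; group
    rw [e3, hq, ← map_mul, ← map_mul, ← map_mul]
    congr 1
    group

/-- PROVE THIS ONE -/
theorem generic2 {p : ℕ} [hp : Fact p.Prime] (hG : IsPGroup p G) (hZ : center G = ⊥)
    (D : Subgroup G) [hDn : D.Normal] (S T : Set (G × G)) (hS : S.Finite) (hT : T.Finite)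
    (h1 : ∀ s ∈ S, s.1 ≠ 1)
    (h2 : ∀ t ∈ T, ¬ ∃ U : Set G, U.Finite ∧ ∀ g, ∃ u ∈ U, cj t.1 g * u⁻¹ ∈ D) :
    ∃ g : G, (∀ s ∈ S, cj s.1 g ≠ s.2) ∧ ∀ t ∈ T, cj t.1 g * t.2⁻¹ ∉ D :=
  generic2_aux hG hZ D S T hS hT h1 h2


end Pool.Agent.Helper233.Cen.ZJG
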