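import Mathlib
import Pool.Agent.Helper233.Cen.M5

set_option autoImplicit false

namespace Pool.Agent.Helper233.Cen.ZMG

open Subgroup
open scoped commutatorElement
open Pool.Agent.Helper233.Cen

variable {G : Type*} [Group G]

/-- the generic version of the metabelian case -/
theorem meta_gen {p : ℕ} [hp : Fact p.Prime] (hG : IsPGroup p G) (a : G) (ha : orderOf a = p)
    (h2 : (CC a).Finite) (A : Subgroup G) [hAn : A.Normal]
    (hA : ∀ x ∈ A, ∀ y ∈ A, x * y = y * x) :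
    ∃ P : Set (G × G), P.Finite ∧ (∀ s ∈ P, s.1 ≠ 1) ∧
      ∀ g, (∀ s ∈ P, cj s.1 g ≠ s.2) → a⁻¹ * cj a (cj a g) ∉ A := by
  have hap : a ^ p = 1 := by rw [← ha]; exact pow_orderOf_eq_one a
  have ha1 : a ≠ 1 := by
    intro h
    rw [h, orderOf_one] at ha
    exact hp.out.one_lt.ne ha
  set S := {y : G | y ^ p = 1 ∧ ∃ x ∈ A, y = dl a x} with hS
  set T := {u : G | u ∈ A ∧ u ^ p = 1 ∧ IsConj a (a * u)} with hT
  have hSf : S.Finite := finite_S1 A hA a hp.out hap h2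
  have hTf : T.Finite := finite_T1 A hA a hp.out hap h2
  set P1 : Set (G × G) := (fun c => (a, c)) '' (CC a) with hP1
  set P2 : Set (G × G) := {s | s ∈ S ×ˢ S ∧ s.1 ≠ 1} with hP2
  set P3 : Set (G × G) := {s | s ∈ ((fun x : G => x⁻¹) '' T) ×ˢ T ∧ s.1 ≠ 1} with hP3
  refine ⟨P1 ∪ P2 ∪ P3, (((h2.image _).union ((hSf.prod hSf).subset fun s hs => hs.1)).union
      (((hTf.image _).prod hTf).subset fun s hs => hs.1)), ?_, ?_⟩
  · rintro s ((⟨c, _, rfl⟩ | hs) | hs)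
    · exact ha1
    · exact hs.2
    · exact hs.2
  intro g hg huA
  set b := cj a g with hb
  set u := a⁻¹ * cj a b with hu
  have hbp : b ^ p = 1 := by rw [hb, ← cj_pow, hap, cj_one]
  have hau : a * u = cj a b := by rw [hu]; group
  have hbu : b * u⁻¹ = cj b a := by rw [hu]; unfold cj; group
  -- `u^p ∈ [A, a]`
  obtain ⟨x, hx, hxe⟩ := mul_pow_dl A hA a huA p
  rw [hau, ← cj_pow, hap, cj_one, one_mul] at hxe
  have hup1 : u ^ p = dl a x⁻¹ := by
    rw [dl_inv A hA a hx]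
    exact eq_inv_of_mul_eq_one_left hxe.symm
  obtain ⟨x', hx', hxe'⟩ := mul_pow_dl A hA b (A.inv_mem huA) p
  rw [hbu, ← cj_pow, hbp, cj_one, one_mul] at hxe'
  have hup2 : u ^ p = dl b x' := by
    rw [inv_pow] at hxe'
    exact (inv_mul_eq_one.1 hxe'.symm)
  -- intersection
  have hint : ∀ w : G, (∃ x ∈ A, w = dl a x) → (∃ x ∈ A, w = dl b x) → w = 1 := by
    rintro w ⟨y, hy, hyw⟩ ⟨z, hz, hzw⟩
    by_contra hw
    obtain ⟨k, hk⟩ := hG w
    have hex : ∃ k, w ^ p ^ k = 1 := ⟨k, hk⟩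
    classical
    have hk0 := Nat.find_spec hex
    have hkpos : Nat.find hex ≠ 0 := by
      intro h
      rw [h, pow_zero, pow_one] at hk0
      exact hw hk0
    obtain ⟨m, hm⟩ := Nat.exists_eq_succ_of_ne_zero hkpos
    have hm1 : w ^ p ^ m ≠ 1 := Nat.find_min hex (by omega)
    have hm2 : (w ^ p ^ m) ^ p = 1 := by
      rw [← pow_mul, ← pow_succ, ← Nat.succ_eq_add_one, ← hm]; exact hk0
    set w' := w ^ p ^ m with hw'
    have hw'S : w' ∈ S := ⟨hm2, y ^ p ^ m, A.pow_mem hy _, by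
      rw [dl_pow A hA a hy, ← hyw]⟩
    have hzA : cj z g⁻¹ ∈ A := cj_mem A g⁻¹ hz
    have hw'' : cj w' g⁻¹ ∈ S := by
      refine ⟨by rw [← cj_pow, hm2, cj_one], (cj z g⁻¹) ^ p ^ m, A.pow_mem hzA _, ?_⟩
      rw [dl_pow A hA a hzA, hw', cj_pow]
      congr 1
      rw [hzw, hb]
      unfold dl cj; group
    have hne : cj w' g⁻¹ ≠ 1 := by
      intro h
      apply hm1
      calc w' = cj (cj w' g⁻¹) g := by unfold cj; group
        _ = 1 := by rw [h, cj_one]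
    exact hg (cj w' g⁻¹, w') (Or.inl (Or.inr ⟨⟨hw'', hw'S⟩, hne⟩)) (by
      show cj (cj w' g⁻¹) g = w'
      unfold cj; group)
  have hup : u ^ p = 1 := hint _ ⟨_, A.inv_mem hx, hup1⟩ ⟨_, hx', hup2⟩
  have huT : u ∈ T := ⟨huA, hup, by rw [hau]; exact isConj_cj a b⟩
  have huT' : cj u⁻¹ g⁻¹ ∈ T := by
    refine ⟨cj_mem A g⁻¹ (A.inv_mem huA), ?_, ?_⟩
    · rw [← cj_pow, inv_pow, hup, inv_one, cj_one]
    · have e : a * cj u⁻¹ g⁻¹ = cj (b * u⁻¹) g⁻¹ := by rw [hb]; unfold cj; group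
      rw [e, hbu]
      exact ((isConj_cj a g).trans (isConj_cj b a)).trans (isConj_cj _ _)
  have hu1 : u = 1 := by
    by_contra hu1
    refine hg ((cj u⁻¹ g⁻¹)⁻¹, u) (Or.inr ⟨⟨⟨_, huT', rfl⟩, huT⟩, ?_⟩) ?_
    · intro h
      apply hu1
      have h' : (cj u⁻¹ g⁻¹)⁻¹ = 1 := h
      calc u = cj ((cj u⁻¹ g⁻¹)⁻¹) g := by unfold cj; group
        _ = 1 := by rw [h', cj_one]
    · show cj ((cj u⁻¹ g⁻¹)⁻¹) g = u
      unfold cj; group
  have hcomm : Commute b a := by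
    have h3 : cj a b = a := by rw [← hau, hu1, mul_one]
    have h4 : b⁻¹ * a * b = a := h3
    show b * a = a * b
    calc b * a = b * (b⁻¹ * a * b) := by rw [h4]
      _ = a * b := by group
  exact hg (a, b) (Or.inl (Or.inl ⟨_, ⟨hcomm, isConj_cj a g⟩, rfl⟩)) rfl

end Pool.Agent.Helper233.Cen.ZMG
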