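import Mathlib
import Pool.Agent.Helper233.Cen.M5

set_option autoImplicit false

namespace Pool.Agent.Helper233.Cen.ZMGA

open Subgroup
open scoped commutatorElement
open Pool.Agent.Helper233.Cen

variable {G : Type*} [Group G]









theorem finiteIndex_aux (c : G) (V : Set G) (hV : V.Finite) (h : ∀ g, cj c g ∈ V) :
    (centralizer ({c} : Set G)).FiniteIndex := by
  haveI : Finite V := hV
  have hf : Function.Injective
      (fun q : G ⧸ centralizer ({c} : Set G) => (⟨cj c (q.out)⁻¹, h _⟩ : V)) := by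
    intro q1 q2 hq
    have hq' : cj c (q1.out)⁻¹ = cj c (q2.out)⁻¹ := congrArg Subtype.val hq
    unfold cj at hq'
    rw [inv_inv, inv_inv] at hq'
    rw [← QuotientGroup.out_eq' q1, ← QuotientGroup.out_eq' q2, QuotientGroup.eq]
    rw [mem_centralizer_singleton_iff]
    have e1 : c = q1.out⁻¹ * (q1.out * c * q1.out⁻¹) * q1.out := by group
    calc q1.out⁻¹ * q2.out * c = q1.out⁻¹ * (q2.out * c * q2.out⁻¹) * q2.out := by group
      _ = q1.out⁻¹ * (q1.out * c * q1.out⁻¹) * q2.out := by rw [hq']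
      _ = c * (q1.out⁻¹ * q2.out) := by group
  haveI : Finite (G ⧸ centralizer ({c} : Set G)) := Finite.of_injective _ hf
  exact finiteIndex_of_finite_quotient

theorem cj_mul (x y g : G) : cj (x * y) g = cj x g * cj y g := by
  unfold cj; group

theorem cj_inv (x g : G) : cj x⁻¹ g = (cj x g)⁻¹ := by
  unfold cj; group

/-- representatives that are conjugates -/
theorem reps (D : Subgroup G) (x : G)
    (h : ∃ U : Set G, U.Finite ∧ ∀ g, ∃ u ∈ U, cj x g * u⁻¹ ∈ D) :
    ∃ V : Set G, V.Finite ∧ (∀ g, cj x g ∈ V) ∨ ∃ V : Set G, V.Finite ∧ (∀ v ∈ V, ∃ g, v = cj x g) ∧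
      ∀ g, ∃ v ∈ V, cj x g * v⁻¹ ∈ D := by
  classical
  obtain ⟨U, hU, hg⟩ := h
  refine ⟨∅, Or.inr ?_⟩
  refine ⟨(fun u => if hu : ∃ g, cj x g * u⁻¹ ∈ D then cj x hu.choose else cj x 1) '' U,
    hU.image _, ?_, ?_⟩
  · rintro v ⟨u, -, rfl⟩
    by_cases hu : ∃ g, cj x g * u⁻¹ ∈ D
    · exact ⟨hu.choose, by simp only [dif_pos hu]⟩
    · exact ⟨1, by simp only [dif_neg hu]⟩
  · intro g
    obtain ⟨u, huU, hud⟩ := hg g
    have hu : ∃ g, cj x g * u⁻¹ ∈ D := ⟨g, hud⟩
    refine ⟨_, ⟨u, huU, rfl⟩, ?_⟩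
    simp only [dif_pos hu]
    have h2 := hu.choose_spec
    have := D.mul_mem hud (D.inv_mem h2)
    convert this using 1
    group

/-- PROVE THIS ONE: the subgroup of those elements of `C(D)` with finitely many conjugates mod `D` -/
theorem exists_A {p : ℕ} [hp : Fact p.Prime] (hG : IsPGroup p G) (hZ : center G = ⊥)
    (D : Subgroup G) [hDn : D.Normal] :
    ∃ A : Subgroup G, A.Normal ∧ (∀ x ∈ A, ∀ y ∈ A, x * y = y * x) ∧
      ∀ x, (∀ y ∈ D, x * y = y * x) →
        (∃ U : Set G, U.Finite ∧ ∀ g, ∃ u ∈ U, cj x g * u⁻¹ ∈ D) → x ∈ A := by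
  classical
  let A : Subgroup G :=
    { carrier := {x | (∀ y ∈ D, x * y = y * x) ∧
        (∃ U : Set G, U.Finite ∧ ∀ g, ∃ u ∈ U, cj x g * u⁻¹ ∈ D)}
      one_mem' := by
        refine ⟨fun y _ => by simp, {1}, Set.finite_singleton _, fun g => ⟨1, rfl, ?_⟩⟩
        simp [cj, D.one_mem]
      mul_mem' := by
        rintro x y ⟨hx, U, hU, hUx⟩ ⟨hy, V, hV, hVy⟩
        refine ⟨fun z hz => ?_, Set.image2 (fun a b => a * b) U V, Set.Finite.image2 _ hU hV,
          fun g => ?_⟩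
        · rw [mul_assoc, hy z hz, ← mul_assoc, hx z hz, mul_assoc]
        · obtain ⟨u, hu, hud⟩ := hUx g
          obtain ⟨v, hv, hvd⟩ := hVy g
          refine ⟨u * v, ⟨u, hu, v, hv, rfl⟩, ?_⟩
          rw [cj_mul]
          have h1 := hDn.conj_mem _ hvd u
          have := D.mul_mem hud h1
          convert this using 1
          group
      inv_mem' := by
        rintro x ⟨hx, U, hU, hUx⟩
        refine ⟨fun z hz => ?_, (fun a => a⁻¹) '' U, hU.image _, fun g => ?_⟩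
        · have := hx z hz
          calc x⁻¹ * z = x⁻¹ * (z * x) * x⁻¹ := by group
            _ = x⁻¹ * (x * z) * x⁻¹ := by rw [this]
            _ = z * x⁻¹ := by group
        · obtain ⟨u, hu, hud⟩ := hUx g
          refine ⟨u⁻¹, ⟨u, hu, rfl⟩, ?_⟩
          rw [cj_inv]
          have h1 := hDn.conj_mem _ (D.inv_mem hud) u⁻¹
          convert h1 using 1
          group }
  have hconj : ∀ x, (∀ y ∈ D, x * y = y * x) → ∀ g, ∀ y ∈ D, cj x g * y = y * cj x g := by
    intro x hx g y hy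
    have h1 := hx _ (hDn.conj_mem y hy g)
    unfold cj
    calc g⁻¹ * x * g * y = g⁻¹ * (x * (g * y * g⁻¹)) * g := by group
      _ = g⁻¹ * (g * y * g⁻¹ * x) * g := by rw [h1]
      _ = y * (g⁻¹ * x * g) := by group
  refine ⟨A, ⟨?_⟩, ?_, fun x h1 h2 => ⟨h1, h2⟩⟩
  · rintro x ⟨hx, U, hU, hUx⟩ h
    refine ⟨fun y hy => ?_, U, hU, fun g => ?_⟩
    · have := hconj x hx h⁻¹ y hy
      unfold cj at this
      rwa [inv_inv] at this
    · obtain ⟨u, hu, hud⟩ := hUx (h⁻¹ * g)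
      refine ⟨u, hu, ?_⟩
      convert hud using 2
      unfold cj
      group
  · rintro x ⟨hx, hUx⟩ y ⟨hy, hUy⟩
    by_contra hne
    have hc : x⁻¹ * y⁻¹ * x * y ≠ 1 := by
      intro h
      apply hne
      calc x * y = y * x * (x⁻¹ * y⁻¹ * x * y) := by group
        _ = y * x := by rw [h, mul_one]
    obtain ⟨_, h⟩ := reps D x hUx
    obtain ⟨_, h'⟩ := reps D y hUy
    have hX : ∃ V : Set G, V.Finite ∧ (∀ v ∈ V, ∃ g, v = cj x g) ∧ ∀ g, ∃ v ∈ V, cj x g * v⁻¹ ∈ D := by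
      rcases h with ⟨hf, hm⟩ | h
      · refine ⟨Set.range (cj x), hf.subset ?_, ?_, ?_⟩
        · rintro _ ⟨g, rfl⟩; exact hm g
        · rintro v ⟨g, rfl⟩; exact ⟨g, rfl⟩
        · intro g; exact ⟨cj x g, ⟨g, rfl⟩, by simp [D.one_mem]⟩
      · exact h
    have hY : ∃ V : Set G, V.Finite ∧ (∀ v ∈ V, ∃ g, v = cj y g) ∧ ∀ g, ∃ v ∈ V, cj y g * v⁻¹ ∈ D := by
      rcases h' with ⟨hf, hm⟩ | h
      · refine ⟨Set.range (cj y), hf.subset ?_, ?_, ?_⟩
        · rintro _ ⟨g, rfl⟩; exact hm g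
        · rintro v ⟨g, rfl⟩; exact ⟨g, rfl⟩
        · intro g; exact ⟨cj y g, ⟨g, rfl⟩, by simp [D.one_mem]⟩
      · exact h
    obtain ⟨V, hV, hVc, hVg⟩ := hX
    obtain ⟨W, hW, hWc, hWg⟩ := hY
    refine center_ne_bot hG (x⁻¹ * y⁻¹ * x * y) hc ?_ hZ
    refine finiteIndex_aux _ (Set.image2 (fun a b => a⁻¹ * b⁻¹ * a * b) V W)
      (Set.Finite.image2 _ hV hW) fun g => ?_
    obtain ⟨v, hv, hvd⟩ := hVg g
    obtain ⟨w, hw, hwd⟩ := hWg g
    refine ⟨v, hv, w, hw, ?_⟩
    obtain ⟨g1, hg1⟩ := hVc v hv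
    obtain ⟨g2, hg2⟩ := hWc w hw
    -- commutation facts
    have hvD : ∀ z ∈ D, Commute v z := fun z hz => by rw [hg1]; exact hconj x hx g1 z hz
    have hwD : ∀ z ∈ D, Commute w z := fun z hz => by rw [hg2]; exact hconj y hy g2 z hz
    have hxD : ∀ z ∈ D, Commute (cj x g) z := fun z hz => hconj x hx g z hz
    have hyD : ∀ z ∈ D, Commute (cj y g) z := fun z hz => hconj y hy g z hz
    set d := cj x g * v⁻¹ with hd
    set e := cj y g * w⁻¹ with he
    have ex : cj x g = d * v := by rw [hd]; group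
    have ey : cj y g = e * w := by rw [he]; group
    have hde : Commute d e := by
      have h1 : Commute (cj x g) e := hxD e hwd
      have h2 : Commute v e := hvD e hwd
      rw [hd]
      exact h1.mul_left h2.inv_left
    have hdv : Commute d v := (hvD d hvd).symm
    have hdw : Commute d w := (hwD d hvd).symm
    have hev : Commute e v := (hvD e hwd).symm
    have hew : Commute e w := (hwD e hwd).symm
    have e1 : cj (x⁻¹ * y⁻¹ * x * y) g = (cj x g)⁻¹ * (cj y g)⁻¹ * cj x g * cj y g := by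
      simp only [cj_mul, cj_inv]
    show v⁻¹ * w⁻¹ * v * w = cj (x⁻¹ * y⁻¹ * x * y) g
    rw [e1, ex, ey]
    -- (d v)⁻¹ (e w)⁻¹ (d v) (e w)
    have a1 : d * v * (e * w) = (d * e) * (v * w) := by
      calc d * v * (e * w) = d * (v * e) * w := by group
        _ = d * (e * v) * w := by rw [hev.eq]
        _ = (d * e) * (v * w) := by group
    have a2 : e * w * (d * v) = (d * e) * (w * v) := by
      calc e * w * (d * v) = e * (w * d) * v := by group
        _ = e * (d * w) * v := by rw [hdw.eq]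
        _ = (e * d) * (w * v) := by group
        _ = (d * e) * (w * v) := by rw [hde.eq]
    calc v⁻¹ * w⁻¹ * v * w = (w * v)⁻¹ * (v * w) := by group
      _ = ((d * e) * (w * v))⁻¹ * ((d * e) * (v * w)) := by group
      _ = (e * w * (d * v))⁻¹ * (d * v * (e * w)) := by rw [a1, a2]
      _ = (d * v)⁻¹ * (e * w)⁻¹ * (d * v) * (e * w) := by group


end Pool.Agent.Helper233.Cen.ZMGA
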