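import Mathlib
import Pool.Agent.Helper233.Cen.M5
import Pool.Agent.Helper233.Cen.Z.JG
import Pool.Agent.Helper233.Cen.Z.MGA
import Pool.Agent.Helper233.Cen.Z.MG

set_option autoImplicit false

namespace Pool.Agent.Helper233.Cen.ZMGB

open Subgroup
open scoped commutatorElement
open Pool.Agent.Helper233.Cen
open Pool.Agent.Helper233.Cen.ZJG
open Pool.Agent.Helper233.Cen.ZMGA
open Pool.Agent.Helper233.Cen.ZMG

variable {G : Type*} [Group G]











theorem fg_root {p : ℕ} (hG : IsPGroup p G) (w : G) (hw : w ≠ 1) :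
    ∃ m : ℕ, w ^ m ≠ 1 ∧ (w ^ m) ^ p = 1 := by
  classical
  have h := hG w
  have hk : w ^ p ^ (Nat.find h) = 1 := Nat.find_spec h
  have hk0 : Nat.find h ≠ 0 := by
    intro h0; rw [h0, pow_zero, pow_one] at hk; exact hw hk
  obtain ⟨m, hm⟩ := Nat.exists_eq_succ_of_ne_zero hk0
  refine ⟨p ^ m, Nat.find_min h (by omega : m < Nat.find h), ?_⟩
  rw [← pow_mul, ← pow_succ, ← Nat.succ_eq_add_one, ← hm]; exact hk

theorem fg_cj_pow (x g : G) (n : ℕ) : cj (x ^ n) g = (cj x g) ^ n := by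
  induction n with
  | zero => unfold cj; simp
  | succ n ih => rw [pow_succ, pow_succ, ← ih]; unfold cj; group

theorem fg_cj_mul (x y g : G) : cj (x * y) g = cj x g * cj y g := by unfold cj; group

/-- PROVE THIS ONE -/
theorem final_generic {p : ℕ} [hp : Fact p.Prime] (hG : IsPGroup p G) (hZ : center G = ⊥)
    (a : G) (ha : orderOf a = p) (h2 : (CC a).Finite)
    (D : Subgroup G) [hDn : D.Normal] (hD : ∀ x ∈ D, ∀ y ∈ D, x * y = y * x)
    (W : Subgroup G) (hWD : W ≤ D)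
    (hWK : ∀ x ∈ W, ∀ k ∈ normalClosure ({a} : Set G), cj x k ∈ W)
    (hWf : {y : G | y ∈ W ∧ y ^ p = 1}.Finite) (hRW : ∀ x ∈ D, dl a x ∈ W)
    (S : Set G) (hS : S.Finite)
    (hSa : ∀ b, (∃ g, b = cj a g) → (∀ x ∈ D, b * dl a x = dl a x * b) →
      ∃ s ∈ S, (a⁻¹ * cj a b) * s⁻¹ ∈ D) : False := by
  obtain ⟨A, hAn, hAc, hAm⟩ := exists_A hG hZ D
  obtain ⟨P, hPf, hP1, hP2⟩ := meta_gen hG a ha h2 A hAc
  let Wp : Set G := {y : G | y ∈ W ∧ y ^ p = 1}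
  let S0 : Set (G × G) := P ∪ {s | s ∈ Wp ×ˢ Wp ∧ s.1 ≠ 1}
  let T0 : Set (G × G) := {t | ∃ s ∈ S, ∃ r ∈ S, t = (s, r⁻¹) ∧
    ¬ ∃ U : Set G, U.Finite ∧ ∀ g, ∃ u ∈ U, cj s g * u⁻¹ ∈ D}
  have hS0 : S0.Finite := hPf.union ((hWf.prod hWf).subset (fun s hs => hs.1))
  have hT0 : T0.Finite := by
    refine ((hS.prod hS).image (fun q : G × G => (q.1, q.2⁻¹))).subset ?_
    rintro t ⟨s, hs, r, hr, rfl, _⟩
    exact ⟨(s, r), ⟨hs, hr⟩, rfl⟩
  have hS1 : ∀ s ∈ S0, s.1 ≠ 1 := by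
    rintro s (hs | hs)
    · exact hP1 s hs
    · exact hs.2
  have hT1 : ∀ t ∈ T0, ¬ ∃ U : Set G, U.Finite ∧ ∀ g, ∃ u ∈ U, cj t.1 g * u⁻¹ ∈ D := by
    rintro t ⟨s, hs, r, hr, rfl, hn⟩
    exact hn
  obtain ⟨g, hg1, hg2⟩ := generic2 hG hZ D S0 T0 hS0 hT0 hS1 hT1
  have cjD : ∀ x ∈ D, ∀ h, cj x h ∈ D := by
    intro x hx h
    have := hDn.conj_mem x hx h⁻¹
    rwa [inv_inv] at this
  have hWg : ∀ w ∈ W, cj w g ∈ W → w = 1 := by
    intro w hw hwg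
    by_contra hne
    obtain ⟨m, hm1, hm2⟩ := fg_root hG w hne
    have hin : cj (w ^ m) g ∈ W := by rw [fg_cj_pow]; exact W.pow_mem hwg m
    have hp1 : (cj (w ^ m) g) ^ p = 1 := by
      rw [← fg_cj_pow, hm2]; unfold cj; simp
    exact hg1 (w ^ m, cj (w ^ m) g) (Or.inr ⟨⟨⟨W.pow_mem hw m, hm2⟩, ⟨hin, hp1⟩⟩, hm1⟩) rfl
  have hWg' : ∀ w ∈ W, cj w g⁻¹ ∈ W → w = 1 := by
    intro w hw hwg
    have e : cj (cj w g⁻¹) g = w := by unfold cj; group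
    have h1 := hWg (cj w g⁻¹) hwg (by rw [e]; exact hw)
    rw [← e, h1]; unfold cj; simp
  have hK : ∀ h, cj a h ∈ normalClosure ({a} : Set G) := by
    intro h
    have := (normalClosure_normal (s := ({a} : Set G))).conj_mem a (subset_normalClosure rfl) h⁻¹
    rwa [inv_inv] at this
  have key : ∀ h, (∀ w ∈ W, cj w h ∈ W → w = 1) → ∀ w ∈ W, cj a h * w = w * cj a h := by
    intro h hh w hw
    have hv : dl a (cj w h⁻¹) ∈ W := hRW _ (cjD w (hWD hw) _)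
    have e : cj (dl a (cj w h⁻¹)) h = dl (cj a h) w := by unfold cj dl cj; group
    have hin : dl (cj a h) w ∈ W := W.mul_mem (W.inv_mem hw) (hWK w hw _ (hK h))
    have h1 := hh _ hv (by rw [e]; exact hin)
    rw [h1] at e
    have e2 : dl (cj a h) w = 1 := by rw [← e]; unfold cj; simp
    generalize cj a h = b at *
    calc b * w = b * w * 1 := by rw [mul_one]
      _ = b * w * dl b w := by rw [e2]
      _ = w * b := by unfold dl cj; group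
  obtain ⟨b, hb⟩ : ∃ b, b = cj a g := ⟨_, rfl⟩
  obtain ⟨b1, hb1⟩ : ∃ b1, b1 = cj a g⁻¹ := ⟨_, rfl⟩
  have hbW : ∀ w ∈ W, b * w = w * b := by rw [hb]; exact key g hWg
  have hb1W : ∀ w ∈ W, b1 * w = w * b1 := by rw [hb1]; exact key g⁻¹ hWg'
  obtain ⟨s, hs, hsD⟩ := hSa b ⟨g, hb⟩ (fun x hx => hbW _ (hRW x hx))
  obtain ⟨s1, hs1, hs1D⟩ := hSa b1 ⟨g⁻¹, hb1⟩ (fun x hx => hb1W _ (hRW x hx))
  have hPA := hP2 g (fun s hs => hg1 s (Or.inl hs))
  rw [← hb] at hPA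
  obtain ⟨u, hu⟩ : ∃ u, u = a⁻¹ * cj a b := ⟨_, rfl⟩
  obtain ⟨u1, hu1⟩ : ∃ u1, u1 = a⁻¹ * cj a b1 := ⟨_, rfl⟩
  rw [← hu] at hsD hPA
  rw [← hu1] at hs1D
  have huu : u1 = g * u⁻¹ * g⁻¹ := by rw [hu, hu1, hb, hb1]; unfold cj; group
  have haW : ∀ w ∈ W, a * cj w g = cj w g * a := by
    intro w hw
    have h1 := congrArg (fun x => cj x g) (hb1W w hw)
    simp only [fg_cj_mul] at h1
    have h3 : cj b1 g = a := by rw [hb1]; unfold cj; group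
    rw [h3] at h1
    exact h1
  have hdb : ∀ x ∈ D, a * dl b x = dl b x * a := by
    intro x hx
    have e : dl b x = cj (dl a (cj x g⁻¹)) g := by rw [hb]; unfold dl cj; group
    rw [e]
    exact haW _ (hRW _ (cjD x hx _))
  have hcomm : ∀ y ∈ D, cj (cj y a) b = cj (cj y b) a := by
    intro y hy
    have h1 : cj y a = y * dl a y := by unfold dl cj; group
    have h3 : cj y b = y * dl b y := by unfold dl cj; group
    have h4 : cj (dl a y) b = dl a y := by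
      have := hbW _ (hRW y hy)
      unfold cj
      rw [mul_assoc, ← this]; group
    have h5 : cj (dl b y) a = dl b y := by
      have := hdb y hy
      unfold cj
      rw [mul_assoc, ← this]; group
    rw [h1, fg_cj_mul, h4, h3, fg_cj_mul, h5, h1, mul_assoc, mul_assoc]
    congr 1
    have h6 : dl b y ∈ D := D.mul_mem (D.inv_mem hy) (cjD y hy b)
    exact hD _ h6 _ (hWD (hRW y hy))
  have hux : ∀ x ∈ D, u * x = x * u := by
    intro x hx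
    have h := hcomm (cj x (b * a)⁻¹) (cjD x hx _)
    have e1 : cj (cj (cj x (b * a)⁻¹) a) b = u⁻¹ * x * u := by rw [hu]; unfold cj; group
    have e2 : cj (cj (cj x (b * a)⁻¹) b) a = x := by unfold cj; group
    rw [e1, e2] at h
    calc u * x = u * (u⁻¹ * x * u) := by rw [h]
      _ = x * u := by group
  have hmem : cj s1 g * s ∈ D := by
    have e : cj s1 g * s = cj (u1 * s1⁻¹)⁻¹ g * cj (u * s⁻¹)⁻¹ u := by
      rw [huu]; unfold cj; group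
    rw [e]
    exact D.mul_mem (cjD _ (D.inv_mem hs1D) _) (cjD _ (D.inv_mem hsD) _)
  have hfin : ∃ U : Set G, U.Finite ∧ ∀ g, ∃ u ∈ U, cj s1 g * u⁻¹ ∈ D := by
    by_contra hcon
    refine hg2 (s1, s⁻¹) ⟨s1, hs1, s, hs, rfl, hcon⟩ ?_
    show cj s1 g * s⁻¹⁻¹ ∈ D
    rw [inv_inv]; exact hmem
  obtain ⟨U, hUf, hU⟩ := hfin
  apply hPA
  refine hAm u hux ⟨(fun x => x⁻¹) '' U, hUf.image _, fun h => ?_⟩
  obtain ⟨u', hu', hd'⟩ := hU (g * h)
  refine ⟨u'⁻¹, ⟨u', hu', rfl⟩, ?_⟩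
  have e1 : cj u h * u'⁻¹⁻¹ = cj ((cj s1 (g * h) * u'⁻¹)⁻¹ * (cj (u1 * s1⁻¹) (g * h))⁻¹) u' := by
    rw [huu]; unfold cj; group
  rw [e1]
  exact cjD _ (D.mul_mem (D.inv_mem hd') (D.inv_mem (cjD _ hs1D _))) _



end Pool.Agent.Helper233.Cen.ZMGB
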