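import Mathlib
import Pool.Agent.Helper233.Cen.M5

set_option autoImplicit false

namespace Pool.Agent.Helper233.Cen.ZPATH

open Subgroup
open scoped commutatorElement
open Pool.Agent.Helper233.Cen

variable {G : Type*} [Group G]





/-- all iterated commutators of length `i` of `x` with conjugates of `a` are trivial -/
def Q (a : G) : ℕ → G → Prop
  | 0, x => x = 1
  | i + 1, x => ∀ g : G, Q a i (dl (cj a g) x)

theorem path_cj_cj (x g h : G) : cj (cj x g) h = cj x (g * h) := by
  unfold cj; group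

theorem path_cj_one (x : G) : cj x 1 = x := by simp [cj]

theorem path_dl_cj (a x g h : G) : dl (cj a (g * h)) (cj x h) = cj (dl (cj a g) x) h := by
  unfold dl cj; group

theorem path_dl_one (k : G) : dl k 1 = 1 := by simp [dl, cj]

theorem path_dl_conj (a x g : G) : dl (cj a g) x = cj (dl a (cj x g⁻¹)) g := by
  unfold dl cj; group

def pathT (a : G) : G → G → Prop := Relation.TransGen (fun x y => ∃ g, y = dl (cj a g) x)

theorem pathT_cj (a x y h : G) (hxy : pathT a x y) : pathT a (cj x h) (cj y h) := by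
  unfold pathT at hxy ⊢
  induction hxy with
  | single hs =>
    obtain ⟨g, rfl⟩ := hs
    exact .single ⟨g * h, (path_dl_cj a x g h).symm⟩
  | tail _ hs ih =>
    obtain ⟨g, rfl⟩ := hs
    exact ih.tail ⟨g * h, (path_dl_cj a _ g h).symm⟩

theorem pathT_pow (a x h : G) (hxy : pathT a x (cj x h)) (n : ℕ) : pathT a x (cj x (h ^ (n + 1))) := by
  induction n with
  | zero => simpa using hxy
  | succ n ih =>
    have h1 := pathT_cj a _ _ (h ^ (n + 1)) hxy
    rw [path_cj_cj, ← pow_succ'] at h1
    exact Relation.TransGen.trans ih h1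

theorem pathT_fin (a x y : G) (hxy : pathT a x y) : ∃ S : Set G, S.Finite ∧ (∀ k ∈ S, ∃ g, k = cj a g) ∧
    Relation.TransGen (fun x y => ∃ k ∈ S, y = dl k x) x y := by
  unfold pathT at hxy
  induction hxy with
  | single hs =>
    obtain ⟨g, rfl⟩ := hs
    exact ⟨{cj a g}, Set.finite_singleton _, by rintro k rfl; exact ⟨g, rfl⟩, .single ⟨_, rfl, rfl⟩⟩
  | tail _ hs ih =>
    obtain ⟨g, rfl⟩ := hs
    obtain ⟨S, hS1, hS2, hS3⟩ := ih
    refine ⟨insert (cj a g) S, hS1.insert _, ?_, ?_⟩
    · intro k hk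
      rcases Set.mem_insert_iff.mp hk with rfl | hk
      · exact ⟨g, rfl⟩
      · exact hS2 k hk
    · have hmono : ∀ u v : G, (∃ k ∈ S, v = dl k u) → (∃ k ∈ insert (cj a g) S, v = dl k u) := by
        rintro u v ⟨k, hk, rfl⟩
        exact ⟨k, Set.mem_insert_of_mem _ hk, rfl⟩
      exact Relation.TransGen.tail (Relation.TransGen.mono hmono _ _ hS3)
        ⟨cj a g, Set.mem_insert _ _, rfl⟩

theorem path_nil (H : Subgroup G) (hnil : Group.IsNilpotent H) (x : G) (hx : x ∈ H) (S : Set G)
    (hS : ∀ k ∈ S, k ∈ H) (hT : Relation.TransGen (fun x y => ∃ k ∈ S, y = dl k x) x x) : x = 1 := by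
  have hstep : ∀ n, ∀ y, y ∈ H.lowerCentralSeries n → ∀ k ∈ S, dl k y ∈ H.lowerCentralSeries (n + 1) := by
    intro n y hy k hk
    have h1 : dl k y = ⁅y⁻¹, k⁻¹⁆ := by simp [commutatorElement_def, dl, cj, mul_assoc]
    rw [h1]
    exact Subgroup.commutator_mem_commutator (Subgroup.inv_mem _ hy) (H.inv_mem (hS k hk))
  have hwalk : ∀ n, ∀ y, x ∈ H.lowerCentralSeries n →
      Relation.TransGen (fun x y => ∃ k ∈ S, y = dl k x) x y → y ∈ H.lowerCentralSeries (n + 1) := by
    intro n y hx hxy
    induction hxy with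
    | single hs =>
      obtain ⟨k, hk, rfl⟩ := hs
      exact hstep n x hx k hk
    | tail _ hs ih =>
      obtain ⟨k, hk, rfl⟩ := hs
      exact H.lowerCentralSeries_antitone (Nat.le_succ _) (hstep (n + 1) _ ih k hk)
  have hall : ∀ n, x ∈ H.lowerCentralSeries n := by
    intro n
    induction n with
    | zero => exact hx
    | succ n ih => exact hwalk n x ih hT
  obtain ⟨n, hn⟩ := (Subgroup.isNilpotent_iff_lowerCentralSeries H).mp hnil
  have := hall n
  rwa [hn, Subgroup.mem_bot] at this

theorem path_noreturn {p : ℕ} [hp : Fact p.Prime] (hG : IsPGroup p G) (a : G)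
    (hK : ∀ T : Set G, T.Finite → T ⊆ (normalClosure ({a} : Set G) : Set G) →
      Finite (closure T)) (x h : G) (hx : x ∈ normalClosure ({a} : Set G))
    (hxy : pathT a x (cj x h)) : x = 1 := by
  obtain ⟨k, hk⟩ := hG h
  have hpk : 0 < p ^ k := pow_pos hp.out.pos _
  obtain ⟨n, hn⟩ : ∃ n, p ^ k = n + 1 := ⟨p ^ k - 1, by omega⟩
  have h1 := pathT_pow a x h hxy n
  rw [← hn, hk, path_cj_one] at h1
  obtain ⟨S, hS1, hS2, hS3⟩ := pathT_fin a x x h1
  have hSK : insert x S ⊆ (normalClosure ({a} : Set G) : Set G) := by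
    intro y hy
    rcases Set.mem_insert_iff.mp hy with rfl | hy
    · exact hx
    · obtain ⟨g, rfl⟩ := hS2 y hy
      have ha : a ∈ normalClosure ({a} : Set G) := subset_normalClosure (Set.mem_singleton a)
      have := (normalClosure_normal (s := ({a} : Set G))).conj_mem a ha g⁻¹
      simpa [cj] using this
  haveI := hK (insert x S) (hS1.insert _) hSK
  have hnil : Group.IsNilpotent (closure (insert x S)) := (hG.to_subgroup _).isNilpotent
  exact path_nil _ hnil x (subset_closure (Set.mem_insert _ _)) S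
    (fun k hk => subset_closure (Set.mem_insert_of_mem _ hk)) hS3

theorem path_exists (a : G) (m : ℕ) : ∀ x : G, ¬ Q a m x → ∃ f : ℕ → G, f 0 = x ∧
    (∀ i, i < m → ∃ g, f (i + 1) = dl (cj a g) (f i)) ∧ f m ≠ 1 := by
  induction m with
  | zero =>
    intro x hx
    exact ⟨fun _ => x, rfl, by intro i hi; omega, hx⟩
  | succ m ih =>
    intro x hx
    have hx' : ∃ g, ¬ Q a m (dl (cj a g) x) := by
      by_contra hcon
      push Not at hcon
      exact hx hcon
    obtain ⟨g, hg⟩ := hx'
    obtain ⟨f, hf0, hf1, hf2⟩ := ih _ hg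
    refine ⟨fun i => match i with | 0 => x | i + 1 => f i, rfl, ?_, hf2⟩
    intro i hi
    cases i with
    | zero => exact ⟨g, hf0⟩
    | succ i => exact hf1 i (by omega)

theorem path {p : ℕ} [hp : Fact p.Prime] (hG : IsPGroup p G) (a : G)
    (hK : ∀ T : Set G, T.Finite → T ⊆ (normalClosure ({a} : Set G) : Set G) →
      Finite (closure T))
    (M : Subgroup G) [hM : M.Normal] (hMK : M ≤ normalClosure ({a} : Set G))
    (hfin : {y : G | ∃ x ∈ M, y = dl a x}.Finite) : ∃ m, ∀ x ∈ M, Q a m x := by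
  classical
  by_contra hcon
  push Not at hcon
  obtain ⟨x, hxM, hx⟩ := hcon (hfin.toFinset.card + 1)
  set N := hfin.toFinset.card with hN
  obtain ⟨f, hf0, hf1, hf2⟩ := path_exists a (N + 1) x hx
  have hdlM : ∀ k y, y ∈ M → dl k y ∈ M := by
    intro k y hy
    refine M.mul_mem (M.inv_mem hy) ?_
    have := hM.conj_mem y hy k⁻¹
    simpa [cj] using this
  have hfM : ∀ i, i ≤ N + 1 → f i ∈ M := by
    intro i
    induction i with
    | zero => intro _; rw [hf0]; exact hxM
    | succ i ih =>
      intro hi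
      obtain ⟨g, hg⟩ := hf1 i (by omega)
      rw [hg]
      exact hdlM _ _ (ih (by omega))
  have hrep : ∀ i : Fin (N + 1), ∃ y ∈ hfin.toFinset, ∃ g, f (i + 1) = cj y g := by
    intro i
    obtain ⟨g, hg⟩ := hf1 i i.2
    refine ⟨dl a (cj (f i) g⁻¹), ?_, g, ?_⟩
    · rw [Set.Finite.mem_toFinset]
      refine ⟨cj (f i) g⁻¹, ?_, rfl⟩
      have := hM.conj_mem (f i) (hfM i (by have := i.2; omega)) g
      simpa [cj] using this
    · rw [hg, path_dl_conj]
  choose φ hφ1 hφ2 using hrep
  obtain ⟨i, -, j, -, hij, hφ⟩ := Finset.exists_ne_map_eq_of_card_lt_of_maps_to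
    (s := (Finset.univ : Finset (Fin (N + 1)))) (t := hfin.toFinset) (f := φ)
    (by rw [Finset.card_univ, Fintype.card_fin]; omega) (fun i _ => hφ1 i)
  have hreach : ∀ i j, i < j → j ≤ N + 1 → pathT a (f i) (f j) := by
    intro i j hij
    induction j, hij using Nat.le_induction with
    | base =>
      intro hj
      exact .single (hf1 i (by omega))
    | succ j hij ih =>
      intro hj
      exact Relation.TransGen.tail (ih (by omega)) (hf1 j (by omega))
  have hprop : ∀ i j, i ≤ j → j ≤ N + 1 → f i = 1 → f j = 1 := by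
    intro i j hij
    induction j, hij using Nat.le_induction with
    | base => intro _ h; exact h
    | succ j hij ih =>
      intro hj h
      obtain ⟨g, hg⟩ := hf1 j (by omega)
      rw [hg, ih (by omega) h, path_dl_one]
  have main : ∀ i j : Fin (N + 1), i < j → φ i = φ j → False := by
    intro i j hij hφ
    obtain ⟨g, hg⟩ := hφ2 i
    obtain ⟨g', hg'⟩ := hφ2 j
    have h1 : f (j + 1) = cj (f (i + 1)) (g⁻¹ * g') := by
      rw [hg, hg', hφ, path_cj_cj]
      congr 1
      group
    have hij' : (i : ℕ) < j := hij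
    have hj := j.2
    have h2 := hreach (i + 1) (j + 1) (by omega) (by omega)
    rw [h1] at h2
    have h3 := path_noreturn hG a hK _ _ (hMK (hfM (i + 1) (by omega))) h2
    exact hf2 (hprop (i + 1) (N + 1) (by omega) le_rfl h3)
  rcases lt_or_gt_of_ne hij with h | h
  · exact main i j h hφ
  · exact main j i h hφ.symm


end Pool.Agent.Helper233.Cen.ZPATH
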