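import Mathlib
import Pool.Agent.Helper233.Cen.M5
import Pool.Agent.Helper233.Cen.Z.PATH

set_option autoImplicit false

namespace Pool.Agent.Helper233.Cen.ZP2

open Subgroup
open scoped commutatorElement
open Pool.Agent.Helper233.Cen
open Pool.Agent.Helper233.Cen.ZPATH

variable {G : Type*} [Group G]









/-- PROVE THIS ONE -/
theorem path_CsP {p : ℕ} [hp : Fact p.Prime] (hG : IsPGroup p G) (a : G)
    (hK : ∀ T : Set G, T.Finite → T ⊆ (normalClosure ({a} : Set G) : Set G) →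
      Finite (closure T))
    (D : Subgroup G) [hDn : D.Normal] (hDK : D ≤ normalClosure ({a} : Set G))
    (hD : ∀ x ∈ D, ∀ y ∈ D, x * y = y * x)
    (hfin : {y : G | (∃ x ∈ D, y = dl a x) ∧ y ^ p = 1}.Finite) :
    ∀ n : ℕ, ∃ m, ∀ x ∈ D, x ^ p ^ n = 1 → CsP (normalClosure ({a} : Set G)) m x := by
  intro n
  have hDc : ∀ x ∈ D, ∀ g : G, g⁻¹ * x * g ∈ D := fun x hx g => by
    simpa using hDn.conj_mem x hx g⁻¹
  have hDc' : ∀ x ∈ D, ∀ g : G, g * x * g⁻¹ ∈ D := fun x hx g => hDn.conj_mem x hx g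
  have hdlD : ∀ (k x : G), x ∈ D → dl k x ∈ D := fun k x hx =>
    D.mul_mem (D.inv_mem hx) (hDc x hx k)
  have hdlmul : ∀ (k x y : G), x ∈ D → y ∈ D → dl k (x*y) = dl k x * dl k y := by
    intro k x y hx hy
    unfold dl cj
    have h1 : (x*y)⁻¹ = x⁻¹ * y⁻¹ := by rw [hD x hx y hy, mul_inv_rev]
    have h2 : y⁻¹ * (k⁻¹ * x * k) = (k⁻¹ * x * k) * y⁻¹ := hD _ (D.inv_mem hy) _ (hDc x hx k)
    calc (x*y)⁻¹ * (k⁻¹ * (x*y) * k) = x⁻¹ * (y⁻¹ * (k⁻¹ * x * k)) * (k⁻¹ * y * k) := by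
          rw [h1]; group
      _ = x⁻¹ * ((k⁻¹ * x * k) * y⁻¹) * (k⁻¹ * y * k) := by rw [h2]
      _ = _ := by group
  have hdl1 : ∀ k : G, dl k 1 = 1 := by intro k; simp [dl, cj]
  have hdlinv : ∀ (k x : G), x ∈ D → dl k x⁻¹ = (dl k x)⁻¹ := by
    intro k x hx
    apply eq_inv_of_mul_eq_one_left
    rw [← hdlmul k _ _ (D.inv_mem hx) hx, inv_mul_cancel, hdl1]
  have hdlpow : ∀ (k x : G) (j : ℕ), x ∈ D → dl k (x^j) = (dl k x)^j := by
    intro k x j hx
    induction j with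
    | zero => simp [hdl1]
    | succ j ih => rw [pow_succ, pow_succ, hdlmul k _ _ (D.pow_mem hx j) hx, ih]
  have hQ1 : ∀ i, Q a i 1 := by
    intro i
    induction i with
    | zero => rfl
    | succ i ih => intro g; rw [hdl1]; exact ih
  have hQc : ∀ i x, Q a i x → ∀ h : G, Q a i (h * x * h⁻¹) := by
    intro i
    induction i with
    | zero => intro x hx h; change h * x * h⁻¹ = 1; rw [show x = 1 from hx]; group
    | succ i ih =>
      intro x hx h g
      have := ih _ (hx (g * h)) h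
      have e : dl (cj a g) (h * x * h⁻¹) = h * dl (cj a (g*h)) x * h⁻¹ := by unfold dl cj; group
      rw [e]; exact this
  have hQm : ∀ i x y, x ∈ D → y ∈ D → Q a i x → Q a i y → Q a i (x*y) := by
    intro i
    induction i with
    | zero =>
      intro x y _ _ hx hy
      change x * y = 1
      rw [show x = 1 from hx, show y = 1 from hy, mul_one]
    | succ i ih =>
      intro x y hxD hyD hx hy g
      rw [hdlmul _ _ _ hxD hyD]
      exact ih _ _ (hdlD _ _ hxD) (hdlD _ _ hyD) (hx g) (hy g)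
  have hQi : ∀ i x, x ∈ D → Q a i x → Q a i x⁻¹ := by
    intro i
    induction i with
    | zero => intro x _ hx; change x⁻¹ = 1; rw [show x = 1 from hx, inv_one]
    | succ i ih =>
      intro x hxD hx g
      rw [hdlinv _ _ hxD]
      exact ih _ (hdlD _ _ hxD) (hx g)
  have hcomD : ∀ x k : G, x ∈ D → ⁅x, k⁆ ∈ D := by
    intro x k hx
    have e : ⁅x, k⁆ = x * (k * x⁻¹ * k⁻¹) := by rw [commutatorElement_def]; group
    rw [e]
    exact D.mul_mem hx (hDc' _ (D.inv_mem hx) k)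
  have hstep : ∀ i x, x ∈ D → Q a (i+1) x → ∀ k ∈ normalClosure ({a} : Set G), Q a i ⁅x, k⁆ := by
    intro i x hxD hx k hk
    change k ∈ closure (Group.conjugatesOfSet ({a} : Set G)) at hk
    induction hk using closure_induction with
    | mem k hk =>
      rw [Group.mem_conjugatesOfSet_iff] at hk
      obtain ⟨b, hb, hc⟩ := hk
      rw [Set.mem_singleton_iff] at hb
      subst hb
      obtain ⟨c, hc⟩ := isConj_iff.mp hc
      have h3 := hQc i _ (hx c⁻¹) k
      have e2 : cj b c⁻¹ = k := by unfold cj; rw [inv_inv]; exact hc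
      rw [e2] at h3
      have e : ⁅x, k⁆ = k * dl k x * k⁻¹ := by
        have e3 : x * (k * x⁻¹ * k⁻¹) = (k * x⁻¹ * k⁻¹) * x :=
          hD _ hxD _ (hDc' _ (D.inv_mem hxD) k)
        calc ⁅x, k⁆ = x * (k * x⁻¹ * k⁻¹) := by rw [commutatorElement_def]; group
          _ = (k * x⁻¹ * k⁻¹) * x := e3
          _ = k * dl k x * k⁻¹ := by unfold dl cj; group
      rw [e]; exact h3
    | one => rw [commutatorElement_one_right]; exact hQ1 i
    | mul k1 k2 _ _ h1 h2 =>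
      have e : ⁅x, k1 * k2⁆ = ⁅x, k1⁆ * (k1 * ⁅x, k2⁆ * k1⁻¹) := by
        simp only [commutatorElement_def]; group
      rw [e]
      exact hQm i _ _ (hcomD _ _ hxD) (hDc' _ (hcomD _ _ hxD) _) h1 (hQc i _ h2 k1)
    | inv k _ h =>
      have e : ⁅x, k⁻¹⁆ = k⁻¹ * ⁅x, k⁆⁻¹ * k⁻¹⁻¹ := by
        simp only [commutatorElement_def]; group
      rw [e]
      exact hQc i _ (hQi i _ (hcomD _ _ hxD) h) k⁻¹
  have hQCs : ∀ i x, x ∈ D → Q a i x → CsP (normalClosure ({a} : Set G)) i x := by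
    intro i
    induction i with
    | zero => intro x _ hx; exact hx
    | succ i ih =>
      intro x hxD hx k hk
      exact ih _ (hcomD _ _ hxD) (hstep i x hxD hx k hk)
  have hfinN : ∀ n : ℕ, {y : G | (∃ x ∈ D, y = dl a x) ∧ y ^ p ^ n = 1}.Finite := by
    intro n
    induction n with
    | zero =>
      apply (Set.finite_singleton (1:G)).subset
      rintro y ⟨_, hy⟩
      simpa using hy
    | succ n ih =>
      have hsub : {y : G | (∃ x ∈ D, y = dl a x) ∧ y ^ p ^ (n+1) = 1} ⊆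
          ⋃ z ∈ {y : G | (∃ x ∈ D, y = dl a x) ∧ y ^ p = 1},
            {y : G | (∃ x ∈ D, y = dl a x) ∧ y ^ p ^ n = z} := by
        rintro y ⟨⟨x, hx, rfl⟩, hy⟩
        simp only [Set.mem_iUnion, Set.mem_setOf_eq]
        refine ⟨(dl a x)^p^n, ⟨⟨x^p^n, D.pow_mem hx _, (hdlpow a x _ hx).symm⟩, ?_⟩,
          ⟨x, hx, rfl⟩, rfl⟩
        rw [← pow_mul, ← pow_succ]; exact hy
      refine Set.Finite.subset (hfin.biUnion ?_) hsub
      intro z hz
      by_cases hne : ∃ y0 : G, (∃ x ∈ D, y0 = dl a x) ∧ y0 ^ p^n = z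
      · obtain ⟨y0, ⟨x0, hx0, rfl⟩, hz0⟩ := hne
        apply (ih.image (fun y => dl a x0 * y)).subset
        rintro y ⟨⟨x, hx, rfl⟩, hy⟩
        refine ⟨dl a (x0⁻¹ * x), ⟨⟨x0⁻¹ * x, D.mul_mem (D.inv_mem hx0) hx, rfl⟩, ?_⟩, ?_⟩
        · rw [hdlmul a _ _ (D.inv_mem hx0) hx, hdlinv a _ hx0]
          have hcm : Commute (dl a x0)⁻¹ (dl a x) :=
            hD _ (D.inv_mem (hdlD a _ hx0)) _ (hdlD a _ hx)
          rw [hcm.mul_pow, inv_pow, hz0, hy, inv_mul_cancel]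
        · change dl a x0 * dl a (x0⁻¹ * x) = dl a x
          rw [← hdlmul a _ _ hx0 (D.mul_mem (D.inv_mem hx0) hx), mul_inv_cancel_left]
      · have hemp : {y : G | (∃ x ∈ D, y = dl a x) ∧ y ^ p ^ n = z} = ∅ := by
          rw [Set.eq_empty_iff_forall_notMem]
          intro y hy
          exact hne ⟨y, hy⟩
        rw [hemp]
        exact Set.finite_empty
  let M : Subgroup G :=
    { carrier := {x | x ∈ D ∧ x ^ p ^ n = 1}
      one_mem' := ⟨D.one_mem, one_pow _⟩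
      mul_mem' := by
        rintro x y ⟨hx, hx1⟩ ⟨hy, hy1⟩
        refine ⟨D.mul_mem hx hy, ?_⟩
        have hcm : Commute x y := hD x hx y hy
        rw [hcm.mul_pow, hx1, hy1, mul_one]
      inv_mem' := by
        rintro x ⟨hx, hx1⟩
        exact ⟨D.inv_mem hx, by rw [inv_pow, hx1, inv_one]⟩ }
  have hMn : M.Normal := by
    refine ⟨?_⟩
    rintro x ⟨hx, hx1⟩ g
    exact ⟨hDc' x hx g, by rw [conj_pow, hx1]; group⟩
  have hMK : M ≤ normalClosure ({a} : Set G) := fun x hx => hDK hx.1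
  have hfM : {y : G | ∃ x ∈ M, y = dl a x}.Finite := by
    apply (hfinN n).subset
    rintro y ⟨x, hx, rfl⟩
    refine ⟨⟨x, hx.1, rfl⟩, ?_⟩
    rw [← hdlpow a x _ hx.1, hx.2, hdl1]
  obtain ⟨m, hm⟩ := path hG a hK M hMK hfM
  exact ⟨m, fun x hx hx1 => hQCs m x hx (hm x ⟨hx, hx1⟩)⟩


end Pool.Agent.Helper233.Cen.ZP2
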