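import Mathlib
import Pool.Agent.Helper233.Cen.M5

set_option autoImplicit false

namespace Pool.Agent.Helper233.Cen.ZTT

open Subgroup
open scoped commutatorElement
open Pool.Agent.Helper233.Cen

variable {G : Type*} [Group G]





theorem TT_cj_one (x : G) : cj x 1 = x := by simp [cj]

theorem TT_cj_mul (x y g : G) : cj (x * y) g = cj x g * cj y g := by
  simp only [cj]; group

theorem TT_cj_pow (x g : G) (n : ℕ) : cj (x ^ n) g = cj x g ^ n := by
  induction n with
  | zero => simp [cj]
  | succ n ih => rw [pow_succ, pow_succ, TT_cj_mul, ih]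

theorem TT_cj_cj (x g h : G) : cj x (g * h) = cj (cj x g) h := by
  simp only [cj]; group

theorem TT_core {p : ℕ} (D : Subgroup G)
    (hD : ∀ x ∈ D, ∀ y ∈ D, x * y = y * x) (hd : ∀ x ∈ D, ∃ y ∈ D, y ^ p = x) (k : G)
    (hk : ∀ x ∈ D, cj x k ∈ D) (h : ∀ x ∈ D, x ^ p ^ 2 = 1 → cj x k = x)
    (hkp : ∀ x ∈ D, cj x (k ^ p) = x) :
    ∀ n : ℕ, ∀ x ∈ D, x ^ p ^ n = 1 → cj x k = x := by
  intro n
  induction n with
  | zero =>
    intro x _ hx1
    have : x = 1 := by simpa using hx1
    rw [this]; simp [cj]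
  | succ n ih =>
    intro x hx hx1
    have h1 : cj (x ^ p) k = x ^ p := by
      apply ih _ (D.pow_mem hx p)
      rw [← pow_mul, ← pow_succ']; exact hx1
    have hmulpow : ∀ a ∈ D, ∀ b ∈ D, ∀ m : ℕ, (a * b) ^ m = a ^ m * b ^ m :=
      fun a ha b hb m => (show Commute a b from hD a ha b hb).mul_pow m
    set c := x⁻¹ * cj x k with hc
    have hcp : c ^ p = 1 := by
      rw [hc, hmulpow _ (D.inv_mem hx) _ (hk x hx), ← TT_cj_pow, h1, inv_pow, inv_mul_cancel]
    obtain ⟨y, hy, hyx⟩ := hd x hx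
    set e := y⁻¹ * cj y k with he
    have heD : e ∈ D := D.mul_mem (D.inv_mem hy) (hk y hy)
    have hep : e ^ p = c := by
      rw [he, hmulpow _ (D.inv_mem hy) _ (hk y hy), ← TT_cj_pow, inv_pow, hyx]
    have hep2 : e ^ p ^ 2 = 1 := by
      rw [pow_two, pow_mul, hep, hcp]
    have hek := h e heD hep2
    have hyk : cj y k = y * e := by rw [he]; group
    have hi : ∀ i : ℕ, cj y (k ^ i) = y * e ^ i := by
      intro i
      induction i with
      | zero => simp [cj]
      | succ i ih2 =>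
        rw [pow_succ, TT_cj_cj, ih2, TT_cj_mul, TT_cj_pow, hek, hyk, mul_assoc, ← pow_succ']
    have h2 := hi p
    rw [hkp y hy, hep] at h2
    have h3 : c = 1 := by
      have : y * 1 = y * c := by rw [mul_one]; exact h2
      exact (mul_left_cancel this).symm
    have h4 : cj x k = x * c := by rw [hc]; group
    rw [h4, h3, mul_one]

/-- a `p`-element acting on a divisible abelian `p`-group `D` trivially on `D[p^2]` acts trivially -/
theorem triv_of_socle {p : ℕ} [hp : Fact p.Prime] (hG : IsPGroup p G) (D : Subgroup G)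
    (hD : ∀ x ∈ D, ∀ y ∈ D, x * y = y * x) (hd : ∀ x ∈ D, ∃ y ∈ D, y ^ p = x) (k : G)
    (hk : ∀ x ∈ D, cj x k ∈ D) (h : ∀ x ∈ D, x ^ p ^ 2 = 1 → cj x k = x) :
    ∀ x ∈ D, cj x k = x := by
  obtain ⟨j, hj⟩ := hG k
  induction j generalizing k with
  | zero =>
    intro x _
    have : k = 1 := by simpa using hj
    rw [this]; exact TT_cj_one x
  | succ j ih =>
    have hki : ∀ i : ℕ, ∀ x ∈ D, cj x (k ^ i) ∈ D := by
      intro i
      induction i with
      | zero => intro x hx; simpa [cj] using hx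
      | succ i ih2 =>
        intro x hx
        rw [pow_succ, TT_cj_cj]
        exact hk _ (ih2 x hx)
    have hhi : ∀ i : ℕ, ∀ x ∈ D, x ^ p ^ 2 = 1 → cj x (k ^ i) = x := by
      intro i
      induction i with
      | zero => intro x _ _; simp [cj]
      | succ i ih2 =>
        intro x hx hx2
        rw [pow_succ, TT_cj_cj, ih2 x hx hx2]
        exact h x hx hx2
    have hkp := ih (k ^ p) (hki p) (hhi p) (by rw [← pow_mul, ← pow_succ']; exact hj)
    intro x hx
    obtain ⟨n, hn⟩ := hG x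
    exact TT_core D hD hd k hk h hkp n x hx hn


end Pool.Agent.Helper233.Cen.ZTT
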