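import Mathlib
import Pool.Agent.Helper233.Cen.M5

set_option autoImplicit false

namespace Pool.Agent.Helper233.Cen.ZEXP

open Subgroup
open scoped commutatorElement
open Pool.Agent.Helper233.Cen

variable {G : Type*} [Group G]





theorem hom_aux {Q : Type*} [Group Q] (p : Q) (hp : ∀ q r : Q, Commute ⁅p, q⁆ r) (n : ℕ)
    (S : Set Q) (hS : closure S = ⊤) (h : ∀ s ∈ S, s ^ n = 1) : ∀ q : Q, ⁅p, q⁆ ^ n = 1 := by
  let f : Q →* Q := MonoidHom.mk' (fun q => ⁅p, q⁆) (by
    intro a b
    have h1 : ⁅p, a * b⁆ = ⁅p, a⁆ * (a * ⁅p, b⁆ * a⁻¹) := by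
      simp only [commutatorElement_def]; group
    rw [h1, ← (hp b a).eq, mul_inv_cancel_right])
  intro q
  have hq : q ∈ closure S := hS ▸ mem_top q
  induction hq using closure_induction with
  | mem s hs => show f s ^ n = 1; rw [← map_pow, h s hs, map_one]
  | one => show f 1 ^ n = 1; rw [map_one, one_pow]
  | mul x y _ _ hx hy =>
    show f (x * y) ^ n = 1
    rw [map_mul]
    show (⁅p, x⁆ * ⁅p, y⁆) ^ n = 1
    rw [(hp x _).mul_pow, hx, hy, one_mul]
  | inv x _ hx =>
    show f x⁻¹ ^ n = 1
    rw [map_inv, inv_pow]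
    show (⁅p, x⁆ ^ n)⁻¹ = 1
    rw [hx, inv_one]

theorem step_aux {X : Type*} [Group X] (n : ℕ) (S : Set X)
    (hS : closure S = ⊤) (h : ∀ s ∈ S, s ^ n = 1) (i : ℕ) :
    ∀ x ∈ Subgroup.lowerCentralSeries (⊤ : Subgroup X) i,
      x ^ n ∈ Subgroup.lowerCentralSeries (⊤ : Subgroup X) (i + 1) := by
  let N := Subgroup.lowerCentralSeries (⊤ : Subgroup X) (i + 1)
  have hN : N.Normal := Subgroup.lowerCentralSeries_normal _ _
  let π : X →* X ⧸ N := QuotientGroup.mk' N
  have hπ : Function.Surjective π := QuotientGroup.mk'_surjective N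
  have hcen : ∀ x ∈ Subgroup.lowerCentralSeries (⊤ : Subgroup X) i, ∀ y : X ⧸ N, Commute (π x) y := by
    intro x hx y
    obtain ⟨y', rfl⟩ := hπ y
    rw [← commutatorElement_eq_one_iff_commute, ← map_commutatorElement]
    exact (QuotientGroup.eq_one_iff _).2 (commutator_mem_commutator hx (mem_top y'))
  have hS' : closure (π '' S) = ⊤ := by
    rw [← MonoidHom.map_closure, hS, ← MonoidHom.range_eq_map, MonoidHom.range_eq_top]
    exact hπ
  have h' : ∀ s ∈ π '' S, s ^ n = 1 := by
    rintro _ ⟨s, hs, rfl⟩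
    rw [← map_pow, h s hs, map_one]
  have hgen : ∀ x ∈ Subgroup.lowerCentralSeries (⊤ : Subgroup X) i, (π x) ^ n = 1 := by
    cases i with
    | zero =>
      intro x hx0
      clear hx0
      have hx : x ∈ closure S := hS ▸ mem_top x
      induction hx using closure_induction with
      | mem s hs => exact h' _ ⟨s, hs, rfl⟩
      | one => rw [map_one, one_pow]
      | mul x y _ _ hx hy =>
        rw [map_mul, (hcen x (mem_top x) (π y)).mul_pow, hx, hy, one_mul]
      | inv x _ hx => rw [map_inv, inv_pow, hx, inv_one]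
    | succ i =>
      intro x hx
      have hx2 := (Subgroup.mem_lowerCentralSeries_succ_iff (⊤ : Subgroup X) i x).1 hx
      clear hx
      induction hx2 using closure_induction with
      | mem s hs =>
        obtain ⟨p, hp, q, hq, rfl⟩ := hs
        rw [map_commutatorElement]
        refine hom_aux (π p) ?_ n (π '' S) hS' h' (π q)
        intro q r
        obtain ⟨q', rfl⟩ := hπ q
        rw [← map_commutatorElement]
        exact hcen _ (commutator_mem_commutator hp (mem_top q')) r
      | one => rw [map_one, one_pow]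
      | mul x y hx0 _ hx hy =>
        rw [map_mul, (hcen x ((Subgroup.mem_lowerCentralSeries_succ_iff (⊤ : Subgroup X) i x).2 hx0)
          (π y)).mul_pow, hx, hy, one_mul]
      | inv x _ hx => rw [map_inv, inv_pow, hx, inv_one]
  intro x hx
  have := hgen x hx
  rw [← map_pow] at this
  exact (QuotientGroup.eq_one_iff _).1 this

/-- a nilpotent group generated by elements of exponent `n` has finite exponent -/
theorem exp_nilp {X : Type*} [Group X] [hX : Group.IsNilpotent X] (n : ℕ) (S : Set X)
    (hS : closure S = ⊤) (h : ∀ s ∈ S, s ^ n = 1) : ∃ e : ℕ, ∀ x : X, x ^ n ^ e = 1 := by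
  obtain ⟨c, hc⟩ := Subgroup.nilpotent_iff_lowerCentralSeries.1 hX
  refine ⟨c, ?_⟩
  have key : ∀ i : ℕ, ∀ x : X, x ^ n ^ i ∈ Subgroup.lowerCentralSeries (⊤ : Subgroup X) i := by
    intro i
    induction i with
    | zero => intro x; exact mem_top _
    | succ i ih =>
      intro x
      rw [pow_succ, pow_mul]
      exact step_aux n S hS h i _ (ih x)
  intro x
  have := key c x
  rw [hc] at this
  exact mem_bot.1 this

end Pool.Agent.Helper233.Cen.ZEXP
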