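import Mathlib
import Pool.Agent.Helper233.Cen.M5

set_option autoImplicit false

namespace Pool.Agent.Helper233.Cen.ZJD

open Subgroup
open scoped commutatorElement
open Pool.Agent.Helper233.Cen

variable {G : Type*} [Group G]






theorem CC_quot {p : ℕ} [hp : Fact p.Prime] (hG : IsPGroup p G) (D : Subgroup G)
    [hDn : D.Normal] (hD : ∀ x ∈ D, ∀ y ∈ D, x * y = y * x)
    (hDd : ∀ x ∈ D, ∃ y ∈ D, y ^ p = x) (a : G) (hap : a ^ p = 1) (h2 : (CC a).Finite)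
    (R X : Subgroup G) (hR : ∀ y, y ∈ R ↔ ∃ d ∈ D, y = dl a d) (hDX : D ≤ X)
    [hRn : (R.subgroupOf X).Normal] (haX : a ∈ X) :
    (CC (QuotientGroup.mk' (R.subgroupOf X) ⟨a, haX⟩)).Finite := by
  classical
  have hDconj : ∀ g d, d ∈ D → g⁻¹ * d * g ∈ D := fun g d hd => by
    have := hDn.conj_mem d hd g⁻¹
    simpa using this
  have hRD : ∀ r ∈ R, r ∈ D := by
    intro r hr
    obtain ⟨d, hd, rfl⟩ := (hR r).mp hr
    exact D.mul_mem (D.inv_mem hd) (hDconj a d hd)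
  have hdec : ∀ e ∈ D, ∃ n ∈ D, ∃ r ∈ R, e = n * r ∧ a⁻¹ * n * a = n := by
    intro e he
    obtain ⟨d, hd, rfl⟩ := hDd e he
    let f : ℕ → G := fun k => Nat.rec 1 (fun k x => x * cj d (a ^ k)) k
    have hf0 : f 0 = 1 := rfl
    have hfs : ∀ k, f (k + 1) = f k * cj d (a ^ k) := fun k => rfl
    have hcD : ∀ k : ℕ, cj d (a ^ k) ∈ D := fun k => hDconj _ d hd
    have hfD : ∀ k, f k ∈ D := by
      intro k
      induction k with
      | zero => exact D.one_mem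
      | succ k ih => rw [hfs]; exact D.mul_mem ih (hcD k)
    have hcR : ∀ k : ℕ, d⁻¹ * cj d (a ^ k) ∈ R := by
      intro k
      induction k with
      | zero => simp [cj, R.one_mem]
      | succ k ih =>
        have h2 : dl a (cj d (a ^ k)) ∈ R := (hR _).mpr ⟨_, hcD k, rfl⟩
        have h3 : d⁻¹ * cj d (a ^ (k + 1)) = (d⁻¹ * cj d (a ^ k)) * dl a (cj d (a ^ k)) := by
          simp only [dl, cj, pow_succ]; group
        rw [h3]
        exact R.mul_mem ih h2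
    have hfR : ∀ k : ℕ, (f k)⁻¹ * d ^ k ∈ R := by
      intro k
      induction k with
      | zero => simp [hf0, R.one_mem]
      | succ k ih =>
        have hc := hD _ (D.inv_mem (hcD k)) _ (hRD _ ih)
        have h3 : (f (k + 1))⁻¹ * d ^ (k + 1) = ((f k)⁻¹ * d ^ k) * (d⁻¹ * cj d (a ^ k))⁻¹ := by
          calc (f (k + 1))⁻¹ * d ^ (k + 1)
              = ((cj d (a ^ k))⁻¹ * ((f k)⁻¹ * d ^ k)) * d := by
                rw [hfs, pow_succ]; group
            _ = (((f k)⁻¹ * d ^ k) * (cj d (a ^ k))⁻¹) * d := by rw [hc]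
            _ = _ := by group
        rw [h3]
        exact R.mul_mem ih (R.inv_mem (hcR k))
    have hfa : ∀ k : ℕ, a⁻¹ * f k * a = d⁻¹ * f k * cj d (a ^ k) := by
      intro k
      induction k with
      | zero => simp [hf0, cj]
      | succ k ih =>
        calc a⁻¹ * f (k + 1) * a = (a⁻¹ * f k * a) * (a⁻¹ * cj d (a ^ k) * a) := by
              rw [hfs]; group
          _ = (d⁻¹ * f k * cj d (a ^ k)) * (a⁻¹ * cj d (a ^ k) * a) := by rw [ih]
          _ = d⁻¹ * (f k * cj d (a ^ k)) * cj d (a ^ (k + 1)) := by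
              simp only [cj, pow_succ]; group
          _ = _ := by rw [hfs]
    refine ⟨f p, hfD p, (f p)⁻¹ * d ^ p, hfR p, by group, ?_⟩
    rw [hfa p, hap]
    have h4 : cj d 1 = d := by simp [cj]
    rw [h4, mul_assoc, hD _ (hfD p) _ hd]
    group
  -- the finite set
  have hfin : ({y : X | (y : G) ∈ CC a}).Finite := h2.preimage (Subtype.val_injective.injOn)
  refine (hfin.image (QuotientGroup.mk' (R.subgroupOf X))).subset ?_
  rintro xb ⟨hcomm, hconj⟩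
  obtain ⟨c, hc⟩ := isConj_iff.mp hconj
  obtain ⟨⟨h, hhX⟩, rfl⟩ := QuotientGroup.mk'_surjective (R.subgroupOf X) c
  set x : G := h * a * h⁻¹ with hx
  have hxX : x ∈ X := X.mul_mem (X.mul_mem hhX haX) (X.inv_mem hhX)
  have hxb : xb = QuotientGroup.mk' (R.subgroupOf X) ⟨x, hxX⟩ := by
    rw [← hc, ← map_mul, ← map_inv, ← map_mul]
    rfl
  have hcm : Commute xb (QuotientGroup.mk' (R.subgroupOf X) ⟨a, haX⟩) := hcomm
  rw [hxb] at hcm
  have h5 : QuotientGroup.mk' (R.subgroupOf X) (⟨x, hxX⟩ * ⟨a, haX⟩) =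
      QuotientGroup.mk' (R.subgroupOf X) (⟨a, haX⟩ * ⟨x, hxX⟩) := by
    rw [map_mul, map_mul]; exact hcm
  have h6 : (x * a)⁻¹ * (a * x) ∈ R := by
    have := QuotientGroup.eq.mp h5
    exact this
  obtain ⟨e, heD, het⟩ := (hR _).mp h6
  obtain ⟨n, hnD, r, hrR, hen, hna⟩ := hdec e heD
  have hrD := hRD r hrR
  have htD := hRD _ h6
  -- dl a r = t
  have hrt : (x * a)⁻¹ * (a * x) = r⁻¹ * (a⁻¹ * r * a) := by
    rw [het]
    simp only [dl, cj]
    rw [hen]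
    calc (n * r)⁻¹ * (a⁻¹ * (n * r) * a) = r⁻¹ * (n⁻¹ * (a⁻¹ * n * a)) * (a⁻¹ * r * a) := by group
      _ = _ := by rw [hna]; group
  have hcomxr : (x * r) * a = a * (x * r) := by
    have h7 : a⁻¹ * r * a = ((x * a)⁻¹ * (a * x)) * r := by
      rw [hD _ htD _ hrD, hrt]; group
    calc (x * r) * a = x * a * (a⁻¹ * r * a) := by group
      _ = x * a * (((x * a)⁻¹ * (a * x)) * r) := by rw [h7]
      _ = _ := by group
  -- r = dl x d'
  have hrh : h⁻¹ * r * h ∈ R := by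
    have hrX : r ∈ X := hDX hrD
    have h8 : (⟨r, hrX⟩ : X) ∈ R.subgroupOf X := hrR
    have h9 := hRn.conj_mem _ h8 (⟨h, hhX⟩ : X)⁻¹
    have h10 : ((((⟨h, hhX⟩ : X)⁻¹ * ⟨r, hrX⟩ * ((⟨h, hhX⟩ : X)⁻¹)⁻¹ : X)) : G) ∈ R := h9
    simpa using h10
  obtain ⟨d, hd, hdr⟩ := (hR _).mp hrh
  have hr2 : r = (h * d * h⁻¹)⁻¹ * (x⁻¹ * (h * d * h⁻¹) * x) := by
    have : r = h * (h⁻¹ * r * h) * h⁻¹ := by group
    rw [this, hdr, hx]
    simp only [dl, cj]
    group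
  have hd' : h * d * h⁻¹ ∈ D := hDn.conj_mem d hd h
  have hxd' : x⁻¹ * (h * d * h⁻¹) * x ∈ D := hDconj _ _ hd'
  have hxr : x * r = (h * d * h⁻¹) * x * (h * d * h⁻¹)⁻¹ := by
    rw [hr2, hD _ (D.inv_mem hd') _ hxd']
    group
  refine ⟨⟨x * r, X.mul_mem hxX (hDX hrD)⟩, ⟨hcomxr, ?_⟩, ?_⟩
  · show IsConj a (x * r)
    rw [isConj_iff]
    refine ⟨(h * d * h⁻¹) * h, ?_⟩
    rw [hxr, hx]
    group
  · rw [hxb]
    refine QuotientGroup.eq.mpr ?_
    show (x * r)⁻¹ * x ∈ R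
    have : (x * r)⁻¹ * x = r⁻¹ := by group
    rw [this]
    exact R.inv_mem hrR


end Pool.Agent.Helper233.Cen.ZJD
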