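import Mathlib
import Pool.Agent.Helper233.Cen.M5

set_option autoImplicit false

namespace Pool.Agent.Helper233.Cen.ZJE

open Subgroup
open scoped commutatorElement
open Pool.Agent.Helper233.Cen

variable {G : Type*} [Group G]







/-- PROVE THIS ONE -/
theorem je_tsl {X : Type*} [Group X] (H1 H2 H3 M : Subgroup X) [M.Normal]
    (h1 : ⁅⁅H2, H3⁆, H1⁆ ≤ M) (h2 : ⁅⁅H3, H1⁆, H2⁆ ≤ M) : ⁅⁅H1, H2⁆, H3⁆ ≤ M := by
  have key : ∀ A B C : Subgroup X, ⁅⁅A, B⁆, C⁆ ≤ M ↔
      ⁅⁅A.map (QuotientGroup.mk' M), B.map (QuotientGroup.mk' M)⁆,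
        C.map (QuotientGroup.mk' M)⁆ = ⊥ := by
    intro A B C
    rw [← Subgroup.map_commutator, ← Subgroup.map_commutator, Subgroup.map_eq_bot_iff,
      QuotientGroup.ker_mk']
  rw [key] at h1 h2 ⊢
  exact Subgroup.commutator_commutator_eq_bot_of_rotate h1 h2

theorem je_LZ {X : Type*} [Group X] (i : ℕ) : ∀ j : ℕ,
    ⁅(⊤ : Subgroup X).lowerCentralSeries i, Subgroup.upperCentralSeries X (j + i + 1)⁆ ≤
      Subgroup.upperCentralSeries X j := by
  induction i with
  | zero =>
    intro j
    rw [Subgroup.lowerCentralSeries_zero, Subgroup.commutator_comm]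
    exact Subgroup.commutator_upperCentralSeries_top_le X j
  | succ i ih =>
    intro j
    rw [Subgroup.lowerCentralSeries_succ]
    refine je_tsl _ _ _ _ ?_ ?_
    · have h1 : ⁅(⊤ : Subgroup X), Subgroup.upperCentralSeries X (j + (i + 1) + 1)⁆ ≤
          Subgroup.upperCentralSeries X (j + i + 1) := by
        rw [Subgroup.commutator_comm]
        exact Subgroup.commutator_upperCentralSeries_top_le X (j + i + 1)
      refine (Subgroup.commutator_mono h1 le_rfl).trans ?_
      rw [Subgroup.commutator_comm]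
      exact ih j
    · have h1 : ⁅Subgroup.upperCentralSeries X (j + (i + 1) + 1),
          (⊤ : Subgroup X).lowerCentralSeries i⁆ ≤ Subgroup.upperCentralSeries X (j + 1) := by
        rw [Subgroup.commutator_comm]
        have := ih (j + 1)
        have e : j + 1 + i + 1 = j + (i + 1) + 1 := by ring
        rwa [e] at this
      exact (Subgroup.commutator_mono h1 le_rfl).trans
        (Subgroup.commutator_upperCentralSeries_top_le X j)

theorem je_ker {X : Type*} [Group X] (n : ℕ) :
    (⊤ : Subgroup X).lowerCentralSeries n ≤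
      (MulAut.conjNormal : X →* MulAut (Subgroup.upperCentralSeries X n)).ker := by
  intro x hx
  rw [MonoidHom.mem_ker]
  ext z
  rw [MulAut.conjNormal_apply, MulAut.one_apply]
  have hz : (z : X) ∈ Subgroup.upperCentralSeries X (0 + n + 1) :=
    Subgroup.upperCentralSeries_mono X (by omega : n ≤ 0 + n + 1) z.2
  have h1 := je_LZ n 0 (Subgroup.commutator_mem_commutator hx hz)
  rw [Subgroup.upperCentralSeries_zero, Subgroup.mem_bot, commutatorElement_def] at h1
  exact mul_inv_eq_one.1 h1

/-- the acting quotient -/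
noncomputable def je_phi (X : Type*) [Group X] (n : ℕ) :
    (X ⧸ (⊤ : Subgroup X).lowerCentralSeries n) →* MulAut (Subgroup.upperCentralSeries X n) :=
  QuotientGroup.lift _ (MulAut.conjNormal : X →* MulAut (Subgroup.upperCentralSeries X n))
    (fun _ hx => je_ker n hx)

theorem je_phi_mk {X : Type*} [Group X] (n : ℕ) (x : X) (z : Subgroup.upperCentralSeries X n) :
    ((je_phi X n (QuotientGroup.mk x) z : Subgroup.upperCentralSeries X n) : X) = x * z * x⁻¹ := by
  show ((MulAut.conjNormal x z : Subgroup.upperCentralSeries X n) : X) = x * z * x⁻¹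
  rw [MulAut.conjNormal_apply]

abbrev JG (X : Type*) [Group X] (n : ℕ) :=
  (Subgroup.upperCentralSeries X n) ⋊[je_phi X n] (X ⧸ (⊤ : Subgroup X).lowerCentralSeries n)

theorem je_conj {X : Type*} [Group X] (n : ℕ) (g : JG X n) (z : Subgroup.upperCentralSeries X n) :
    g * SemidirectProduct.inl z * g⁻¹ =
      SemidirectProduct.inl (g.left * je_phi X n g.right z * g.left⁻¹) := by
  conv_lhs => rw [← SemidirectProduct.inl_left_mul_inr_right g]
  rw [map_mul, map_mul, SemidirectProduct.inl_aut]
  simp only [mul_inv_rev, map_inv]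
  group

theorem je_nil {X : Type*} [Group X] (n : ℕ) : Group.IsNilpotent (JG X n) := by
  rw [Subgroup.nilpotent_iff_lowerCentralSeries]
  -- the first n steps
  have h1 : (⊤ : Subgroup (JG X n)).lowerCentralSeries n ≤
      (SemidirectProduct.inl : _ →* JG X n).range := by
    rw [SemidirectProduct.range_inl_eq_ker_rightHom]
    rw [← Subgroup.map_eq_bot_iff, Subgroup.map_lowerCentralSeries,
      Subgroup.map_top_of_surjective _ SemidirectProduct.rightHom_surjective]
    rw [← Subgroup.map_top_of_surjective (QuotientGroup.mk' ((⊤ : Subgroup X).lowerCentralSeries n))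
      (QuotientGroup.mk'_surjective _), ← Subgroup.map_lowerCentralSeries,
      Subgroup.map_eq_bot_iff, QuotientGroup.ker_mk']
  have h2 : ∀ k, k ≤ n → (⊤ : Subgroup (JG X n)).lowerCentralSeries (n + k) ≤
      ((Subgroup.upperCentralSeries X (n - k)).subgroupOf
        (Subgroup.upperCentralSeries X n)).map (SemidirectProduct.inl : _ →* JG X n) := by
    intro k
    induction k with
    | zero =>
      intro _
      refine h1.trans ?_
      rw [MonoidHom.range_eq_map]
      apply Subgroup.map_mono
      intro z _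
      rw [Subgroup.mem_subgroupOf]
      exact z.2
    | succ k ih =>
      intro hk
      have h3 := ih (by omega)
      show ⁅(⊤ : Subgroup (JG X n)).lowerCentralSeries (n + k), ⊤⁆ ≤ _
      refine (Subgroup.commutator_mono h3 le_rfl).trans ?_
      rw [Subgroup.commutator_le]
      rintro _ ⟨z, hz, rfl⟩ g _
      obtain ⟨x, hx⟩ := QuotientGroup.mk_surjective g.right
      rw [commutatorElement_def]
      have h4 : SemidirectProduct.inl z * g * (SemidirectProduct.inl z)⁻¹ * g⁻¹ =
          SemidirectProduct.inl z * (g * SemidirectProduct.inl z * g⁻¹)⁻¹ := by group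
      rw [h4, je_conj, ← map_inv, ← map_mul]
      refine ⟨_, ?_, rfl⟩
      have hz' : (z : X) ∈ Subgroup.upperCentralSeries X (n - k) := hz
      have e : n - k = (n - (k + 1)) + 1 := by omega
      rw [e] at hz'
      have h5 := Subgroup.mem_upperCentralSeries_succ_iff.1 hz' ((g.left : X) * x)
      show ((z * (g.left * je_phi X n g.right z * g.left⁻¹)⁻¹ : Subgroup.upperCentralSeries X n) : X) ∈
        Subgroup.upperCentralSeries X (n - (k + 1))
      rw [← hx]
      have h6 : ((z * (g.left * je_phi X n (QuotientGroup.mk x) z * g.left⁻¹)⁻¹ :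
          Subgroup.upperCentralSeries X n) : X) = ⁅(z : X), (g.left : X) * x⁆ := by
        push_cast
        rw [je_phi_mk, commutatorElement_def]
        group
      rw [h6]
      exact h5
  refine ⟨n + n, ?_⟩
  have h7 := h2 n le_rfl
  rw [Nat.sub_self, Subgroup.upperCentralSeries_zero] at h7
  rw [eq_bot_iff]
  refine h7.trans ?_
  rintro _ ⟨z, hz, rfl⟩
  have hz1 : z = 1 := by
    have : (z : X) ∈ (⊥ : Subgroup X) := hz
    exact Subtype.ext (Subgroup.mem_bot.1 this)
  rw [hz1, map_one]
  exact Subgroup.one_mem _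

theorem je_conj2 {X : Type*} [Group X] (n : ℕ) (g : JG X n) (z : Subgroup.upperCentralSeries X n)
    (x : X) (hx : QuotientGroup.mk x = g.right) :
    ((g * SemidirectProduct.inl z * g⁻¹ : JG X n).left : X) =
      ((g.left : X) * x) * z * ((g.left : X) * x)⁻¹ ∧
    (g * SemidirectProduct.inl z * g⁻¹ : JG X n).right = 1 := by
  rw [je_conj]
  refine ⟨?_, SemidirectProduct.right_inl _⟩
  rw [SemidirectProduct.left_inl, ← hx]
  push_cast
  rw [je_phi_mk]
  group

theorem nilp_upper {X : Type*} [Group X] (a : X) (n : ℕ)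
    (ha : a ∈ Subgroup.upperCentralSeries X n) (h2 : (CC a).Finite) :
    {x : X | IsConj a x}.Finite := by
  have := je_nil (X := X) n
  set a' : JG X n := SemidirectProduct.inl ⟨a, ha⟩ with ha'
  have hfin : (CC a').Finite := by
    refine Set.Finite.of_injOn (f := fun g : JG X n => (g.left : X)) (t := CC a) ?_ ?_ h2
    · rintro g ⟨hg1, hg2⟩
      obtain ⟨c, hc⟩ := isConj_iff.1 hg2
      obtain ⟨x, hx⟩ := QuotientGroup.mk_surjective c.right
      obtain ⟨e1, e2⟩ := je_conj2 n c ⟨a, ha⟩ x hx
      rw [← ha', hc] at e1 e2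
      refine ⟨?_, ?_⟩
      · have h3 : g = SemidirectProduct.inl g.left := by
          ext
          · rw [SemidirectProduct.left_inl]
          · rw [e2, SemidirectProduct.right_inl]
        have h4 : g * a' = a' * g := hg1
        rw [h3, ha', ← map_mul, ← map_mul] at h4
        have h5 := SemidirectProduct.inl_injective h4
        exact congrArg Subtype.val h5
      · show IsConj a (g.left : X)
        rw [isConj_iff]
        exact ⟨_, e1.symm⟩
    · rintro g ⟨_, hg2⟩ g' ⟨_, hg2'⟩ he
      obtain ⟨c, hc⟩ := isConj_iff.1 hg2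
      obtain ⟨x, hx⟩ := QuotientGroup.mk_surjective c.right
      obtain ⟨c', hc'⟩ := isConj_iff.1 hg2'
      obtain ⟨x', hx'⟩ := QuotientGroup.mk_surjective c'.right
      obtain ⟨_, e2⟩ := je_conj2 n c ⟨a, ha⟩ x hx
      obtain ⟨_, e2'⟩ := je_conj2 n c' ⟨a, ha⟩ x' hx'
      rw [← ha', hc] at e2
      rw [← ha', hc'] at e2'
      have he' : (g.left : X) = (g'.left : X) := he
      apply SemidirectProduct.ext
      · exact Subtype.ext he'
      · rw [e2, e2']
  have h6 := nilp a' hfin
  refine (h6.image (fun g : JG X n => (g.left : X))).subset ?_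
  intro y hy
  obtain ⟨x, hx⟩ := isConj_iff.1 hy
  set g : JG X n := SemidirectProduct.inr (QuotientGroup.mk x) with hg
  refine ⟨g * a' * g⁻¹, isConj_iff.2 ⟨g, rfl⟩, ?_⟩
  have h7 := (je_conj2 n g ⟨a, ha⟩ x (by rw [hg, SemidirectProduct.right_inr])).1
  show ((g * a' * g⁻¹ : JG X n).left : X) = y
  rw [ha', h7, hg, SemidirectProduct.left_inr, ← hx]
  simp


end Pool.Agent.Helper233.Cen.ZJE
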