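import Mathlib
import Pool.Agent.Helper233.Cen.M5
import Pool.Agent.Helper233.Cen.Z.EXP

set_option autoImplicit false

namespace Pool.Agent.Helper233.Cen.ZJX1

open Subgroup
open scoped commutatorElement
open Pool.Agent.Helper233.Cen
open Pool.Agent.Helper233.Cen.ZEXP

variable {G : Type*} [Group G]

theorem exp_normalClosure {Y : Type*} [Group Y] (a : Y) (n : ℕ) (ha : a ^ n = 1)
    (hnil : Group.IsNilpotent (normalClosure ({a} : Set Y))) :
    ∃ e : ℕ, ∀ x ∈ normalClosure ({a} : Set Y), x ^ n ^ e = 1 := by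
  set L := normalClosure ({a} : Set Y) with hL
  let S : Set L := {x | IsConj a (x : Y)}
  have hS : closure S = ⊤ := by
    rw [eq_top_iff]
    rintro ⟨x, hx⟩ _
    have hx' : x ∈ closure (Group.conjugatesOfSet ({a} : Set Y)) := hx
    induction hx' using closure_induction with
    | mem y hy =>
      refine subset_closure ?_
      rw [Group.mem_conjugatesOfSet_iff] at hy
      obtain ⟨z, hz, hzy⟩ := hy
      rw [Set.mem_singleton_iff] at hz
      rw [hz] at hzy
      exact hzy
    | one => exact one_mem _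
    | mul y z hy hz ihy ihz =>
      have h1 := ihy hy (mem_top _)
      have h2 := ihz hz (mem_top _)
      exact mul_mem h1 h2
    | inv y hy ih =>
      have h1 := ih hy (mem_top _)
      exact inv_mem h1
  obtain ⟨e, he⟩ := exp_nilp n S hS (by
    rintro ⟨x, hx⟩ hxS
    obtain ⟨g, hg⟩ := isConj_iff.1 (show IsConj a x from hxS)
    apply Subtype.ext
    show x ^ n = 1
    rw [← hg, conj_pow, ha]
    group)
  exact ⟨e, fun x hx => congrArg Subtype.val (he ⟨x, hx⟩)⟩

theorem upper_of_lcs {Y : Type*} [Group Y] (L : Subgroup Y) [hLn : L.Normal] (c m : ℕ)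
    (h : ∀ x ∈ L, x ∈ (⊤ : Subgroup Y).lowerCentralSeries c →
      x ∈ Subgroup.upperCentralSeries Y m) :
    ∀ x ∈ L, x ∈ Subgroup.upperCentralSeries Y (c + m) := by
  have hall : ∀ j, j ≤ c → ∀ x ∈ L, x ∈ (⊤ : Subgroup Y).lowerCentralSeries (c - j) →
      x ∈ Subgroup.upperCentralSeries Y (j + m) := by
    intro j
    induction j with
    | zero => intro _ x hx hx'; rw [Nat.zero_add]; exact h x hx hx'
    | succ j ih =>
      intro hj x hx hx'
      have e : j + 1 + m = (j + m) + 1 := by ring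
      rw [e, Subgroup.mem_upperCentralSeries_succ_iff]
      intro y
      apply ih (by omega)
      · have e2 : x * y * x⁻¹ * y⁻¹ = x * (y * x⁻¹ * y⁻¹) := by group
        rw [commutatorElement_def, e2]
        exact mul_mem hx (hLn.conj_mem _ (inv_mem hx) y)
      · have e3 : c - j = (c - (j + 1)) + 1 := by omega
        rw [e3, Subgroup.lowerCentralSeries_succ]
        exact commutator_mem_commutator hx' (mem_top y)
  intro x hx
  exact hall c le_rfl x hx (by rw [Nat.sub_self]; exact mem_top x)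

theorem upper_of_CsP {Y : Type*} [Group Y] (m : ℕ) : ∀ y : Y,
    CsP (⊤ : Subgroup Y) m y → y ∈ Subgroup.upperCentralSeries Y m := by
  induction m with
  | zero =>
    intro y hy
    have hy1 : y = 1 := hy
    rw [hy1]; exact one_mem _
  | succ m ih =>
    intro y hy
    rw [Subgroup.mem_upperCentralSeries_succ_iff]
    intro k
    exact ih _ (hy k (mem_top k))

theorem upper_X {p : ℕ} [hp : Fact p.Prime] (hG : IsPGroup p G) (D : Subgroup G)
    [hDn : D.Normal] (hD : ∀ x ∈ D, ∀ y ∈ D, x * y = y * x)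
    (hDd : ∀ x ∈ D, ∃ y ∈ D, y ^ p = x) (a : G) (hap : a ^ p = 1)
    (hDK : D ≤ normalClosure ({a} : Set G))
    (hpath : ∀ n : ℕ, ∃ m, ∀ x ∈ D, x ^ p ^ n = 1 → CsP (normalClosure ({a} : Set G)) m x)
    (hc : ∃ c, (normalClosure ({a} : Set G)).lowerCentralSeries c ≤ D)
    (R X : Subgroup G) (hR : ∀ y, y ∈ R ↔ ∃ d ∈ D, y = dl a d) (hDX : D ≤ X)
    (hXK : X ≤ normalClosure ({a} : Set G))
    [hRn : (R.subgroupOf X).Normal] (haX : a ∈ X) :
    ∃ n, QuotientGroup.mk' (R.subgroupOf X) ⟨a, haX⟩ ∈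
      Subgroup.upperCentralSeries (X ⧸ R.subgroupOf X) n := by
  obtain ⟨c, hc⟩ := hc
  set π := QuotientGroup.mk' (R.subgroupOf X) with hπ
  have hπs : Function.Surjective π := QuotientGroup.mk'_surjective _
  set b : X ⧸ R.subgroupOf X := π ⟨a, haX⟩ with hb
  set L := normalClosure ({b} : Set (X ⧸ R.subgroupOf X)) with hL
  -- E
  set E := (D.subgroupOf X).map π with hE
  have hDXn : (D.subgroupOf X).Normal := inferInstance
  have hEn : E.Normal := hDXn.map π hπs
  have hbE : ∀ y ∈ E, b * y = y * b := by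
    rintro _ ⟨d, hd, rfl⟩
    have hd' : (d : G) ∈ D := hd
    rw [hb, ← map_mul, ← map_mul]
    apply QuotientGroup.eq.2
    show ((⟨a, haX⟩ : X) * d)⁻¹ * (d * ⟨a, haX⟩) ∈ R.subgroupOf X
    rw [mem_subgroupOf, hR]
    refine ⟨(d : G), hd', ?_⟩
    show (a * (d : G))⁻¹ * ((d : G) * a) = dl a (d : G)
    unfold dl cj; group
  have hLE : ∀ x ∈ L, ∀ y ∈ E, x * y = y * x := by
    have h1 : L ≤ centralizer (E : Set (X ⧸ R.subgroupOf X)) := by
      apply normalClosure_le_normal
      rw [Set.singleton_subset_iff, SetLike.mem_coe, mem_centralizer_iff]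
      intro y hy
      exact (hbE y hy).symm
    intro x hx y hy
    have h3 := h1 hx
    rw [mem_centralizer_iff] at h3
    exact (h3 y hy).symm
  have hlcs : (⊤ : Subgroup (X ⧸ R.subgroupOf X)).lowerCentralSeries c ≤ E := by
    have h1 : (⊤ : Subgroup X).map π = ⊤ := Subgroup.map_top_of_surjective π hπs
    rw [← h1, ← Subgroup.map_lowerCentralSeries]
    apply Subgroup.map_mono
    intro x hx
    rw [mem_subgroupOf]
    apply hc
    have h3 : (x : G) ∈ ((⊤ : Subgroup X).lowerCentralSeries c).map X.subtype := ⟨x, hx, rfl⟩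
    rw [Subgroup.top_subtype_lowerCentralSeries] at h3
    exact lcs_mono hXK c h3
  have hLc : L.lowerCentralSeries c ≤ E := (lcs_mono le_top c).trans hlcs
  have hnil : Group.IsNilpotent L := by
    rw [Subgroup.isNilpotent_iff_lowerCentralSeries]
    refine ⟨c + 1, ?_⟩
    rw [Subgroup.lowerCentralSeries_succ, eq_bot_iff, commutator_le]
    intro x hx y hy
    rw [mem_bot, commutatorElement_eq_one_iff_mul_comm]
    exact (hLE y hy x (hLc hx)).symm
  have hbp : b ^ p = 1 := by
    rw [hb, ← map_pow]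
    have : (⟨a, haX⟩ : X) ^ p = 1 := Subtype.ext hap
    rw [this, map_one]
  obtain ⟨e, he⟩ := exp_normalClosure b p hbp hnil
  obtain ⟨m, hm⟩ := hpath e
  refine ⟨c + m, upper_of_lcs L c m ?_ b (subset_normalClosure (Set.mem_singleton b))⟩
  intro x hxL hxc
  obtain ⟨d, hd, hdx⟩ := hlcs hxc
  have hd' : (d : G) ∈ D := hd
  -- d ^ p^e in R
  have h1 : π (d ^ p ^ e) = 1 := by rw [map_pow, hdx]; exact he x hxL
  have h3 : d ^ p ^ e ∈ R.subgroupOf X := (QuotientGroup.eq_one_iff _).1 h1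
  rw [mem_subgroupOf, hR] at h3
  obtain ⟨d1, hd1, hd1e⟩ := h3
  have hdiv : ∀ n : ℕ, ∀ x ∈ D, ∃ y ∈ D, y ^ p ^ n = x := by
    intro n
    induction n with
    | zero => intro x hx; exact ⟨x, hx, by rw [pow_zero, pow_one]⟩
    | succ n ih =>
      intro x hx
      obtain ⟨y, hy, hyx⟩ := hDd x hx
      obtain ⟨z, hz, hzy⟩ := ih y hy
      exact ⟨z, hz, by rw [pow_succ, pow_mul, hzy, hyx]⟩
  obtain ⟨d2, hd2, hd2e⟩ := hdiv e d1 hd1
  have hrD : dl a d2 ∈ D := dl_mem D a hd2
  have h4 : (dl a d2) ^ p ^ e = (d : G) ^ p ^ e := by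
    rw [← dl_pow D hD a hd2, hd2e, ← hd1e]
    rfl
  set d3 : G := (d : G) * (dl a d2)⁻¹ with hd3
  have hd3D : d3 ∈ D := mul_mem hd' (inv_mem hrD)
  have h5 : d3 ^ p ^ e = 1 := by
    have hcomm : Commute (d : G) (dl a d2)⁻¹ := hD _ hd' _ (inv_mem hrD)
    rw [hd3, hcomm.mul_pow, inv_pow, h4, mul_inv_cancel]
  have h6 := hm d3 hd3D h5
  have h7 : π ⟨d3, hDX hd3D⟩ = x := by
    rw [← hdx]
    apply QuotientGroup.eq.2
    rw [mem_subgroupOf, hR]
    refine ⟨d2, hd2, ?_⟩
    show ((d : G) * (dl a d2)⁻¹)⁻¹ * (d : G) = dl a d2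
    group
  rw [← h7]
  apply upper_of_CsP
  have h8 : ∀ (i : ℕ) (z : X), CsP (normalClosure ({a} : Set G)) i (z : G) →
      CsP (⊤ : Subgroup (X ⧸ R.subgroupOf X)) i (π z) := by
    intro i
    induction i with
    | zero =>
      intro z hz
      have hz1 : (z : G) = 1 := hz
      have hz2 : z = 1 := Subtype.ext hz1
      rw [hz2, map_one]
      exact CsP_one _ 0
    | succ i ih =>
      intro z hz k _
      obtain ⟨k', rfl⟩ := hπs k
      rw [← map_commutatorElement]
      apply ih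
      exact hz k' (hXK k'.2)
  exact h8 m _ h6

end Pool.Agent.Helper233.Cen.ZJX1
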