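import Mathlib
import Pool.Agent.Helper233.Cen.M5
import Pool.Agent.Helper233.Cen.Z.JE
import Pool.Agent.Helper233.Cen.Z.EXP
import Pool.Agent.Helper233.Cen.Z.JD
import Pool.Agent.Helper233.Cen.Z.JX1

set_option autoImplicit false

namespace Pool.Agent.Helper233.Cen.ZJX2

open Subgroup
open scoped commutatorElement
open Pool.Agent.Helper233.Cen
open Pool.Agent.Helper233.Cen.ZJE
open Pool.Agent.Helper233.Cen.ZEXP
open Pool.Agent.Helper233.Cen.ZJD
open Pool.Agent.Helper233.Cen.ZJX1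

variable {G : Type*} [Group G]












/-- PROVE THIS ONE TOO -/
theorem class_X {p : ℕ} [hp : Fact p.Prime] (hG : IsPGroup p G) (D : Subgroup G)
    [hDn : D.Normal] (hD : ∀ x ∈ D, ∀ y ∈ D, x * y = y * x)
    (hDd : ∀ x ∈ D, ∃ y ∈ D, y ^ p = x) (a : G) (hap : a ^ p = 1) (h2 : (CC a).Finite)
    (hDK : D ≤ normalClosure ({a} : Set G))
    (hpath : ∀ n : ℕ, ∃ m, ∀ x ∈ D, x ^ p ^ n = 1 → CsP (normalClosure ({a} : Set G)) m x)
    (hc : ∃ c, (normalClosure ({a} : Set G)).lowerCentralSeries c ≤ D) :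
    ∃ S : Set G, S.Finite ∧ ∀ b ∈ normalClosure ({a} : Set G),
      (∀ x ∈ D, b * dl a x = dl a x * b) → ∃ s ∈ S, (a⁻¹ * cj a b) * s⁻¹ ∈ D := by
  classical
  have hconj : ∀ x ∈ D, ∀ g : G, cj x g ∈ D := by
    intro x hx g
    have := hDn.conj_mem x hx g⁻¹
    simpa [cj] using this
  have hdlD : ∀ x ∈ D, dl a x ∈ D := by
    intro x hx
    exact D.mul_mem (D.inv_mem hx) (hconj x hx a)
  have hdl : ∀ x ∈ D, ∀ y ∈ D, dl a (x * y) = dl a x * dl a y := by
    intro x hx y hy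
    have h1 : dl a (x * y) = y⁻¹ * (dl a x * cj y a) := by
      simp only [dl, cj]; group
    have h2 : dl a x * dl a y = dl a x * y⁻¹ * cj y a := by
      simp only [dl]; group
    rw [h1, h2, hD (dl a x) (hdlD x hx) y⁻¹ (D.inv_mem hy)]
    group
  have hdl1 : dl a (1 : G) = 1 := by simp [dl, cj]
  let R : Subgroup G :=
    { carrier := {y | ∃ d ∈ D, y = dl a d}
      mul_mem' := by
        rintro _ _ ⟨d, hd, rfl⟩ ⟨e, he, rfl⟩
        exact ⟨d * e, D.mul_mem hd he, (hdl d hd e he).symm⟩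
      one_mem' := ⟨1, D.one_mem, hdl1.symm⟩
      inv_mem' := by
        rintro _ ⟨d, hd, rfl⟩
        refine ⟨d⁻¹, D.inv_mem hd, ?_⟩
        have := hdl d⁻¹ (D.inv_mem hd) d hd
        rw [inv_mul_cancel, hdl1] at this
        exact (eq_inv_of_mul_eq_one_left this.symm).symm }
  have hR : ∀ y, y ∈ R ↔ ∃ d ∈ D, y = dl a d := fun y => Iff.rfl
  have hRD : R ≤ D := by
    rintro _ ⟨d, hd, rfl⟩
    exact hdlD d hd
  have hN : ∀ g : G, (∀ r ∈ R, g * r * g⁻¹ ∈ R) → (∀ r ∈ R, g⁻¹ * r * g ∈ R) →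
      g ∈ Subgroup.normalizer (R : Set G) := by
    intro g h1 h2
    rw [Subgroup.mem_normalizer_iff]
    intro h
    refine ⟨fun hh => h1 h hh, fun hh => ?_⟩
    have := h2 _ hh
    have e : g⁻¹ * (g * h * g⁻¹) * g = h := by group
    rwa [e] at this
  let X : Subgroup G := normalClosure ({a} : Set G) ⊓ Subgroup.normalizer (R : Set G)
  have hDX : D ≤ X := by
    intro x hx
    refine ⟨hDK hx, hN x ?_ ?_⟩
    · intro r hr
      rw [hD x hx r (hRD hr)]; simpa using hr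
    · intro r hr
      rw [hD x⁻¹ (D.inv_mem hx) r (hRD hr)]; simpa using hr
  have haX : a ∈ X := by
    refine ⟨Subgroup.subset_normalClosure rfl, hN a ?_ ?_⟩
    · rintro _ ⟨d, hd, rfl⟩
      refine ⟨a * d * a⁻¹, hDn.conj_mem d hd a, ?_⟩
      simp only [dl, cj]; group
    · rintro _ ⟨d, hd, rfl⟩
      refine ⟨a⁻¹ * d * a, hconj d hd a, ?_⟩
      simp only [dl, cj]; group
  haveI hRn : (R.subgroupOf X).Normal :=
    Subgroup.normal_subgroupOf_of_le_normalizer inf_le_right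
  obtain ⟨n, hn⟩ := upper_X hG D hD hDd a hap hDK hpath hc R X hR hDX inf_le_left haX
  have hCC := CC_quot hG D hD hDd a hap h2 R X hR hDX haX
  have hfin := nilp_upper _ n hn hCC
  refine ⟨(fun v : X ⧸ R.subgroupOf X => a⁻¹ * ((Quotient.out v : X) : G)) ''
    {x | IsConj (QuotientGroup.mk' (R.subgroupOf X) ⟨a, haX⟩) x}, hfin.image _, ?_⟩
  intro b hb hcomm
  have hbX : b ∈ X := by
    refine ⟨hb, hN b ?_ ?_⟩
    · rintro _ ⟨d, hd, rfl⟩
      rw [hcomm d hd]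
      exact ⟨d, hd, by group⟩
    · rintro _ ⟨d, hd, rfl⟩
      rw [mul_assoc, ← hcomm d hd]
      exact ⟨d, hd, by group⟩
  let B : X := ⟨b, hbX⟩
  let A : X := ⟨a, haX⟩
  let v : X ⧸ R.subgroupOf X := QuotientGroup.mk' (R.subgroupOf X) (B⁻¹ * A * B)
  refine ⟨a⁻¹ * ((Quotient.out v : X) : G), ⟨v, ?_, rfl⟩, ?_⟩
  · change IsConj (QuotientGroup.mk' (R.subgroupOf X) A) v
    rw [isConj_iff]
    refine ⟨QuotientGroup.mk' (R.subgroupOf X) B⁻¹, ?_⟩
    change _ = QuotientGroup.mk' (R.subgroupOf X) (B⁻¹ * A * B)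
    rw [map_mul, map_mul, map_inv]
    simp
  · have hv : (QuotientGroup.mk (Quotient.out v) : X ⧸ R.subgroupOf X) =
        QuotientGroup.mk (B⁻¹ * A * B) := by
      rw [QuotientGroup.out_eq']; rfl
    rw [QuotientGroup.eq] at hv
    have h5 : ((Quotient.out v : X) : G)⁻¹ * cj a b ∈ R := by
      have := Subgroup.mem_subgroupOf.1 hv
      simpa [cj, mul_assoc] using this
    have h6 := hRD h5
    have h7 : (a⁻¹ * cj a b) * (a⁻¹ * ((Quotient.out v : X) : G))⁻¹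
        = (a⁻¹ * ((Quotient.out v : X) : G)) * (((Quotient.out v : X) : G)⁻¹ * cj a b) *
          (a⁻¹ * ((Quotient.out v : X) : G))⁻¹ := by group
    rw [h7]
    exact hDn.conj_mem _ h6 _


end Pool.Agent.Helper233.Cen.ZJX2
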